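import Pool.Agent.helper58.LE.GenDefs
import Pool.Agent.helper1.FI4.SpecHT

/-!
# Project LE (MP_baa4d7_al): every member of the block has a defect, at most that of `D`
-/

set_option autoImplicit false

namespace Pool.Agent.LE

open Pool.Agent.helper58.DC Pool.Agent.DI Pool.Agent.GR Pool.Agent.OB Pool.Agent.DR Pool.Agent.FI Pool.Agent.FI3 Pool.Agent.FI4 Pool.Agent.FI4I

theorem DFE_cz_bot (G : Type) [Group G] : cz (⊥ : Subgroup G) = ⊤ := by
  rw [eq_top_iff]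
  intro g _
  rw [Subgroup.mem_centralizer_iff]
  intro h hh
  rw [SetLike.mem_coe, Subgroup.mem_bot] at hh
  rw [hh, one_mul, mul_one]

theorem DFE (hQID : QID_stmt) (hQHT : QHT_stmt) (hTPR : FI.TPR_stmt) : DFE_stmt := by
  intro p M hS G _ _ D x θ χ hR ψ hψ a ha
  have : Fact p.Prime := Fact.mk hS.pr
  obtain ⟨-, hT2, -⟩ := hTPR p M hS G
  have hθ : SB M ⊤ θ χ := (hT2 θ χ).1 hR.ind
  have hψB : ψ ∈ Bl M (⊤ : Subgroup G) θ := ⟨hψ.1, ((hT2 ψ χ).1 hψ.2).trans hθ.symm⟩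
  have hcz := DFE_cz_bot G
  obtain ⟨i, hi⟩ := hQID p M hS G D x θ χ hR ⊥ bot_le
  obtain ⟨N, d, hN, hd, hψ1, -, hv⟩ := hQHT p M hS G D x θ χ hR ⊥ bot_le i hi ψ
    (by rw [hcz]; exact hψB)
  rw [hcz, Subgroup.card_top] at hv
  have hvD : padicValNat p (Nat.card D) = a := by
    rw [ha, padicValNat.prime_pow]
  refine ⟨_, ⟨d, hψ1, rfl⟩, ?_⟩
  rw [Subgroup.card_top]
  omega

end Pool.Agent.LE
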