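import Mathlib
import Pool.Agent.helper59.FI4.SpecI
import Pool.Agent.helper59.FI4.Defs
import Pool.Agent.helper70.FI4.DefsK
import Pool.Agent.helper58.FI.SpecC

/-!
# MP_baa4d7_al: the induction (block IND) for an arbitrary hereditary hypothesis `H` on `(G, D, T)`, `T = TT M D θ`
-/

set_option autoImplicit false

namespace Pool.Agent.LE

open Pool.Agent.helper58.DC Pool.Agent.DI Pool.Agent.GR Pool.Agent.OB Pool.Agent.DR Pool.Agent.FI Pool.Agent.FI3 Pool.Agent.FI4 Pool.Agent.FI4I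

/-- A hypothesis on `(G, D, T)`, `T = TT M D θ`. -/
abbrev HP : Type 1 := ∀ (G : Type) [Group G] [Finite G], Subgroup G → Subgroup G → Prop

/-- `H` goes to subgroups `N` containing `D` and `cz D`, and to the conjugates. -/
structure Her (p : ℕ) (H : HP) : Prop where
  sub : ∀ (G : Type) [Group G] [Finite G] (D T N : Subgroup G), IsPGroup p D → D ≤ N → cz D ≤ N → cz D ≤ T → T ≤ nz D → H G D T →
    H N (D.subgroupOf N) (T.subgroupOf N)
  cj : ∀ (G : Type) [Group G] [Finite G] (D T : Subgroup G) (g : G), IsPGroup p D → cz D ≤ T → T ≤ nz D → H G D T →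
    H G (cjS g D) (cjS g T)

/-- `l(B) = l(B_N)` under `H`. -/
def MNH (p : ℕ) (M : Ideal (integralClosure ℤ ℂ)) (H : HP) : Prop :=
  ∀ (G : Type) [Group G] [Finite G]
    (D : Subgroup G) (x : G) (θ χ : G → ℂ), Rt p M D x θ χ → H G D (TT M D θ) →
    LL p M χ ⊤ = LL p M χ (nz D)

/-- Heights zero under `H`. -/
def HTH (p : ℕ) (M : Ideal (integralClosure ℤ ℂ)) (H : HP) : Prop :=
  ∀ (G : Type) [Group G] [Finite G]
    (D : Subgroup G) (x : G) (θ χ : G → ℂ), Rt p M D x θ χ → H G D (TT M D θ) →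
    ∀ ψ ∈ Blk M χ (⊤ : Subgroup G), ∀ a : ℕ, Nat.card D = p ^ a → Defect p ⊤ ψ a

/-- The bound: `1 ≤ l(B) ≤ q`. -/
def BDH (p : ℕ) (M : Ideal (integralClosure ℤ ℂ)) (H : HP) (q : ℕ) : Prop :=
  ∀ (G : Type) [Group G] [Finite G]
    (D : Subgroup G) (x : G) (θ χ : G → ℂ), Rt p M D x θ χ → H G D (TT M D θ) →
    ∃ l : ℕ, LL p M χ ⊤ = l ∧ 1 ≤ l ∧ l ≤ q

/-- The alternating sum is divisible by `q |G|` (`R = O_p(G)` not regular). -/
def DVH (p : ℕ) (M : Ideal (integralClosure ℤ ℂ)) (H : HP) (q : ℕ) : Prop :=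
  ∀ (G : Type) [Group G] [Finite G]
    (D : Subgroup G) (x : G) (θ χ : G → ℂ), Rt p M D x θ χ → H G D (TT M D θ) →
    ∀ R : Subgroup G, IsOp p (⊤ : Subgroup G) R → R ≤ D → ¬ RP M D θ R →
    ∃ m : ℤ, ∑ᶠ C ∈ {C : Finset (Subgroup G) | NCh p ⊤ R C},
      (-1 : ℂ) ^ (C.card + 1) * ((Nat.card (nrm C) : ℂ) * LL p M χ (nrm C)) =
        (q : ℂ) * (Nat.card G : ℂ) * m

/-- The case `R = O_p(G)` regular. -/
def NIH (p : ℕ) (M : Ideal (integralClosure ℤ ℂ)) (H : HP) : Prop :=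
  ∀ (G : Type) [Group G] [Finite G]
    (D : Subgroup G) (x : G) (θ χ : G → ℂ), Rt p M D x θ χ → H G D (TT M D θ) →
    ∀ R : Subgroup G, R ≤ D → nz R = ⊤ → RP M D θ R → LL p M χ ⊤ = LL p M χ (nz D)

/-- **HRN**: `H` for subgroups. -/
def HRN_stmt : Prop :=
  ∀ (p : ℕ) (M : Ideal (integralClosure ℤ ℂ)), Setup p M → ∀ H : HP, Her p H → ∀ (G : Type) [Group G] [Finite G]
    (D N : Subgroup G), IsPGroup p D → D ≤ N → cz D ≤ N → ∀ θ ∈ IrrOn (cz D), H G D (TT M D θ) →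
    H N (D.subgroupOf N) (TT M (D.subgroupOf N) (rN N θ))

/-- **HRC**: `H` for the conjugates. -/
def HRC_stmt : Prop :=
  ∀ (p : ℕ) (M : Ideal (integralClosure ℤ ℂ)), Setup p M → ∀ H : HP, Her p H → ∀ (G : Type) [Group G] [Finite G]
    (D : Subgroup G) (x : G) (θ χ : G → ℂ), Rt p M D x θ χ → ∀ g : G, ∀ θ₁ ∈ IrrOn (cz (cjS g D)),
    Induces M θ₁ χ → Rt p M (cjS g D) (g * x * g⁻¹) θ₁ χ ∧ iI M (cjS g D) θ₁ = iI M D θ ∧
      (H G D (TT M D θ) → H G (cjS g D) (TT M (cjS g D) θ₁))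

/-- **IHG**: the induction hypothesis. -/
def IHG_stmt : Prop :=
  ∀ (p : ℕ) (M : Ideal (integralClosure ℤ ℂ)), Setup p M → ∀ H : HP, Her p H → ∀ (G : Type) [Group G] [Finite G]
    (D : Subgroup G) (x : G) (θ χ : G → ℂ), Rt p M D x θ χ → H G D (TT M D θ) →
    ∀ Q N : Subgroup G, Mid p Q N →
    (∀ (D' : Subgroup N) (x' : N) (θ' χ' : N → ℂ), Rt p M D' x' θ' χ' → H N D' (TT M D' θ') →
      LL p M χ' ⊤ = LL p M χ' (nz D')) →
    Red p M D χ Q N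

/-- **OBG**: a property of `LL` goes to the normaliser. -/
def OBG_stmt : Prop :=
  ∀ (p : ℕ) (M : Ideal (integralClosure ℤ ℂ)), Setup p M → ∀ H : HP, Her p H → ∀ P : ℂ → Prop,
    (∀ (G : Type) [Group G] [Finite G]
    (D : Subgroup G) (x : G) (θ χ : G → ℂ), Rt p M D x θ χ → H G D (TT M D θ) → P (LL p M χ ⊤)) →
    ∀ (G : Type) [Group G] [Finite G]
    (D : Subgroup G) (x : G) (θ χ : G → ℂ), Rt p M D x θ χ → H G D (TT M D θ) → P (LL p M χ (nz D))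

/-- **TGG**: the alternating sum of the `LL`. -/
def TGG_stmt : Prop :=
  ∀ (p : ℕ) (M : Ideal (integralClosure ℤ ℂ)), Setup p M → ∀ H : HP, Her p H → ∀ (G : Type) [Group G] [Finite G]
    (D : Subgroup G) (x : G) (θ χ : G → ℂ), Rt p M D x θ χ → H G D (TT M D θ) →
    ∀ R : Subgroup G, IsOp p (⊤ : Subgroup G) R → R ≤ D → R ≠ D →
    (∀ (G' : Type) [Group G'] [Finite G'], Nat.card G' < Nat.card G → ∀ (D' : Subgroup G') (x' : G')
      (θ' χ' : G' → ℂ), Rt p M D' x' θ' χ' → H G' D' (TT M D' θ') → LL p M χ' ⊤ = LL p M χ' (nz D')) →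
    ∑ᶠ C ∈ {C : Finset (Subgroup G) | NCh p ⊤ R C},
      (-1 : ℂ) ^ (C.card + 1) * ((Nat.card (nrm C) : ℂ) * LL p M χ (nrm C)) =
        (Nat.card G : ℂ) * (LL p M χ ⊤ - LL p M χ (nz D))

/-- **MNG**: `l(B) = l(B_N)`. -/
def MNG_stmt : Prop :=
  ∀ (p : ℕ) (M : Ideal (integralClosure ℤ ℂ)), Setup p M → ∀ H : HP, Her p H → ∀ q : ℕ, NIH p M H → BDH p M H q →
    DVH p M H q → MNH p M H

/-- **HNG**: heights in the local blocks are zero. -/
def HNG_stmt : Prop :=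
  ∀ (p : ℕ) (M : Ideal (integralClosure ℤ ℂ)), Setup p M → ∀ H : HP, Her p H → HTH p M H → ∀ (G : Type) [Group G] [Finite G]
    (D : Subgroup G) (x : G) (θ χ : G → ℂ), Rt p M D x θ χ → H G D (TT M D θ) →
    ∀ Q N : Subgroup G, IsPGroup p Q → Q ≤ N → cz Q ≤ N → N ≤ nz Q →
    ∀ φ ∈ Blk M χ N, ∀ a : ℕ, Nat.card D = p ^ a → Defect p N φ a

/-- **AMG**: `k(B) = k(B_N)`. -/
def AMG_stmt : Prop :=
  ∀ (p : ℕ) (M : Ideal (integralClosure ℤ ℂ)), Setup p M → ∀ H : HP, Her p H → MNH p M H → ∀ (G : Type) [Group G] [Finite G]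
    (D : Subgroup G) (x : G) (θ χ : G → ℂ), Rt p M D x θ χ → H G D (TT M D θ) →
    (Blk M χ (⊤ : Subgroup G)).ncard = (Blk M χ (nz D)).ncard

/-- **FSG**: the sum over `d` of the alternating sums is zero. -/
def FSG_stmt : Prop :=
  ∀ (p : ℕ) (M : Ideal (integralClosure ℤ ℂ)), Setup p M → ∀ H : HP, Her p H → MNH p M H → ∀ (G : Type) [Group G] [Finite G]
    (D : Subgroup G) (x : G) (θ χ : G → ℂ), Rt p M D x θ χ → H G D (TT M D θ) → D ≠ ⊥ →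
    IsOp p (⊤ : Subgroup G) ⊥ → ∑ᶠ d : ℤ, altSum (trivE G) p M χ d ⊤ = 0

/-- **FDG**: Dade's conjecture for `B`, all defects `d`. -/
def FDG_stmt : Prop :=
  ∀ (p : ℕ) (M : Ideal (integralClosure ℤ ℂ)), Setup p M → ∀ H : HP, Her p H → MNH p M H → HTH p M H → ∀ (G : Type) [Group G] [Finite G]
    (D : Subgroup G) (x : G) (θ χ : G → ℂ), Rt p M D x θ χ → H G D (TT M D θ) → D ≠ ⊥ →
    IsOp p (⊤ : Subgroup G) ⊥ → ∀ d : ℤ, altSum (trivE G) p M χ d ⊤ = 0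

/-- **DFE**: every member of the block has a defect, at most that of `D`. -/
def DFE_stmt : Prop :=
  ∀ (p : ℕ) (M : Ideal (integralClosure ℤ ℂ)), Setup p M → ∀ (G : Type) [Group G] [Finite G]
    (D : Subgroup G) (x : G) (θ χ : G → ℂ), Rt p M D x θ χ →
    ∀ ψ ∈ Blk M χ (⊤ : Subgroup G), ∀ a : ℕ, Nat.card D = p ^ a → ∃ k : ℤ, Defect p ⊤ ψ k ∧ k ≤ a

end Pool.Agent.LE
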