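import Pool.Agent.helper58.LE.GenDefs
import Pool.Agent.helper20.FI4.CJR

/-!
# Project LE (MP_baa4d7_al): `H` for conjugates
-/

set_option autoImplicit false

namespace Pool.Agent.LE

open Pool.Agent.helper58.DC Pool.Agent.DI Pool.Agent.GR Pool.Agent.OB Pool.Agent.DR Pool.Agent.FI Pool.Agent.FI3 Pool.Agent.FI4 Pool.Agent.FI4I

theorem HRC (hTTC : TTC_stmt) (hCON : CON_stmt) (hFEQ : FEQ_stmt) (hSYL : SYL_stmt)   : HRC_stmt := by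
  classical
  intro p M hM H hH G _ _ D x θ χ hRt g θ₁ hθ₁ hInd
  obtain ⟨hRt1, hiI1, -⟩ := CJR hTTC hCON hFEQ hSYL p M hM G D x θ χ hRt g θ₁ hθ₁ hInd
  refine ⟨hRt1, hiI1, ?_⟩
  have hc : Nat.card (cjS g D) = Nat.card D :=
    (hFEQ G M g 1 D D D θ θ χ).2.1.2.2.2.2.2
  obtain ⟨h, hle, hSB⟩ := hCON p M hM G D x θ χ hRt (cjS g D) hRt1.dfa.pgrp θ₁ hθ₁ hInd
  have hle' : cjS h (cjS g D) ≤ D := hle
  have hcard2 : Nat.card (cjS h (cjS g D)) = Nat.card D := by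
    rw [← hc]
    exact (hFEQ G M h 1 (cjS g D) D D θ θ χ).2.1.2.2.2.2.2
  have hD : cjS h (cjS g D) = D := Subgroup.eq_of_le_of_card_ge hle' hcard2.ge
  have hSB' : SB M (cz (cjS h (cjS g D))) θ (cjF h θ₁) := hSB
  rw [hD] at hSB'
  have hθ' : cjF h θ₁ ∈ IrrOn (cz D) := by
    have h1 := (hFEQ G M h 1 (cjS g D) D (cz (cjS g D)) θ θ₁ χ).2.2.2.1.1 hθ₁
    have h2 : cz (cjS h (cjS g D)) = cjS h (cz (cjS g D)) := (hFEQ G M h 1 (cjS g D) D D θ θ χ).2.1.1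
    rw [← h2, hD] at h1
    exact h1
  obtain ⟨t1, t2⟩ := hTTC G M D
  have hTT : TT M D θ = TT M D (cjF h θ₁) := t1 θ hRt.th (cjF h θ₁) hθ' hSB'
  obtain ⟨t0, -, -, -⟩ := t2 (cjF h θ₁) hθ' h⁻¹
  have e1 : cjS h⁻¹ D = cjS g D := by
    have h1 := (hFEQ G M h⁻¹ h (cjS g D) D D θ θ χ).1.1
    rw [hD, inv_mul_cancel] at h1
    rw [h1]
    exact (hFEQ G M h⁻¹ h (cjS g D) D D θ θ χ).1.2.2.1
  have e2 : cjF h⁻¹ (cjF h θ₁) = θ₁ := by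
    have h1 := (hFEQ G M h⁻¹ h D D D θ θ₁ χ).1.2.1
    rw [inv_mul_cancel] at h1
    rw [h1]
    exact (hFEQ G M h⁻¹ h D D D θ θ₁ χ).1.2.2.2
  rw [e1, e2, ← hTT] at t0
  -- `t0 : TT M (cjS g D) θ₁ = cjS h⁻¹ (TT M D θ)`
  intro hh
  rw [t0, ← e1]
  exact hH.cj G D (TT M D θ) h⁻¹ hRt.dfa.pgrp cz_le_TT (fun t ht => ht.1) hh

end Pool.Agent.LE
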