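import Pool.Agent.helper58.LE.GenDefs

set_option autoImplicit false

namespace Pool.Agent.LE

open Pool.Agent.helper58.DC Pool.Agent.DI Pool.Agent.GR Pool.Agent.OB Pool.Agent.DR Pool.Agent.FI Pool.Agent.FI3 Pool.Agent.FI4 Pool.Agent.FI4I

theorem HRN (hTRT : TRT_stmt) : HRN_stmt := by
  intro p M hM H hH G _ _ D N hD hDN hCN θ hθ h
  rw [hTRT G M D N hDN hCN θ hθ]
  exact hH.sub G D (TT M D θ) N hD hDN hCN cz_le_TT (fun t ht => ht.1) h

end Pool.Agent.LE
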