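import Pool.Agent.helper58.LE.GenDefs

/-!
# Row fi4:MN4 of MP_baa4d7_al: `l(B) = l(B_N)`
-/

set_option autoImplicit false

namespace Pool.Agent.LE

open Pool.Agent.helper58.DC Pool.Agent.DI Pool.Agent.GR Pool.Agent.OB Pool.Agent.DR Pool.Agent.FI Pool.Agent.FI3 Pool.Agent.FI4 Pool.Agent.FI4I

/-- `O_p(G)` exists. -/
theorem MN4_op (p : ℕ) (hp : p.Prime) (G : Type) [Group G] [Finite G] : ∃ R : Subgroup G, IsOp p (⊤ : Subgroup G) R := by
  classical
  haveI : Fact p.Prime := ⟨hp⟩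
  obtain ⟨R, hR, hmax⟩ := Set.exists_max_image {Q : Subgroup G | Q ≤ ⊤ ∧ IsPGroup p Q ∧ (⊤ : Subgroup G) ≤ Subgroup.normalizer (Q : Set G)}
    (fun Q => Nat.card Q) (Set.toFinite _) ⟨⊥, le_top, IsPGroup.of_bot, by
      rw [top_le_iff, Subgroup.normalizer_eq_top_iff]
      infer_instance⟩
  refine ⟨R, hR, fun Q hQ => ?_⟩
  obtain ⟨-, hQp, hQn⟩ := hQ
  obtain ⟨-, hRp, hRn⟩ := hR
  rw [top_le_iff, Subgroup.normalizer_eq_top_iff] at hQn hRn
  have hsup : Nat.card (Q ⊔ R : Subgroup G) ≤ Nat.card R := by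
    refine hmax (Q ⊔ R) ⟨le_top, IsPGroup.to_sup_of_normal_right hQp hRp, ?_⟩
    rw [top_le_iff, Subgroup.normalizer_eq_top_iff]
    infer_instance
  have heq : R = Q ⊔ R := Subgroup.eq_of_le_of_card_ge le_sup_right hsup
  rw [heq]
  exact le_sup_left

theorem MNG_num (q l l' : ℕ) (m : ℤ) (h0 : 1 ≤ l) (h0' : 1 ≤ l') (h1 : l ≤ q) (h2 : l' ≤ q)
    (h : (l : ℤ) - l' = q * m) : l = l' := by
  have hq : (0 : ℤ) < q := by omega
  rcases lt_trichotomy m 0 with hm | hm | hm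
  · exfalso
    have : (q : ℤ) * m ≤ q * (-1) := mul_le_mul_of_nonneg_left (by omega) hq.le
    omega
  · rw [hm, mul_zero] at h
    omega
  · exfalso
    have : (q : ℤ) * 1 ≤ q * m := mul_le_mul_of_nonneg_left (by omega) hq.le
    omega

theorem MNG (hTG : TGG_stmt) (hOPD : OPD_stmt) (hOB : OBG_stmt) : MNG_stmt := by
  intro p M hS H hHer q hNI hBD hDV G₀ _ _ D₀ x₀ θ₀ χ₀ hR₀ hH₀
  have hOB' := hOB p M hS H hHer (fun z => ∃ l : ℕ, z = l ∧ 1 ≤ l ∧ l ≤ q) hBD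
  suffices K : ∀ k : ℕ, ∀ (G : Type) [Group G] [Finite G], Nat.card G = k → ∀ (D : Subgroup G) (x : G) (θ χ : G → ℂ),
      Rt p M D x θ χ → H G D (TT M D θ) → LL p M χ ⊤ = LL p M χ (nz D) from K _ G₀ rfl D₀ x₀ θ₀ χ₀ hR₀ hH₀
  intro k
  induction k using Nat.strong_induction_on with
  | _ k ih =>
    intro G _ _ hn D x θ χ hR hH
    obtain ⟨R, hRop⟩ := MN4_op p hS.pr G
    have hRD := hOPD p M hS G D x θ χ hR R hRop
    by_cases hne : R = D
    · have h1 : (⊤ : Subgroup G) ≤ Subgroup.normalizer (R : Set G) := hRop.1.2.2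
      have h2 : nz D = ⊤ := by
        rw [← hne]
        exact top_le_iff.1 h1
      rw [h2]
    · by_cases hRP : RP M D θ R
      · exact hNI G D x θ χ hR hH R hRD (top_le_iff.1 hRop.1.2.2) hRP
      · have h1 := hTG p M hS H hHer G D x θ χ hR hH R hRop hRD hne (fun G' _ _ hlt D' x' θ' χ' hR' hH' =>
          ih (Nat.card G') (by rw [← hn]; exact hlt) G' rfl D' x' θ' χ' hR' hH')
        obtain ⟨m, hm⟩ := hDV G D x θ χ hR hH R hRop hRD hRP
        obtain ⟨l, hl, hl0, hlp⟩ := hBD G D x θ χ hR hH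
        obtain ⟨l', hl', hl0', hlp'⟩ := hOB' G D x θ χ hR hH
        rw [h1, hl, hl'] at hm
        have hG0 : (Nat.card G : ℂ) ≠ 0 := by exact_mod_cast Nat.card_pos.ne'
        have h2 : (Nat.card G : ℂ) * (((l : ℤ) - l' : ℤ) : ℂ) = (Nat.card G : ℂ) * (((q : ℤ) * m : ℤ) : ℂ) := by
          push_cast
          rw [hm]
          ring
        have h3 : (l : ℤ) - l' = (q : ℤ) * m := by exact_mod_cast mul_left_cancel₀ hG0 h2
        rw [hl, hl', MNG_num q l l' m hl0 hl0' hlp hlp' h3]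

end Pool.Agent.LE
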