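import Pool.Agent.helper59.FI4.AllM
import Pool.Agent.helper59.FI4.AllI
import Pool.Agent.helper58.FI4E.AllE
import Pool.Agent.helper58.LE.GenDefs
import Pool.Agent.helper58.LE.HRN
import Pool.Agent.helper58.LE.HRC
import Pool.Agent.helper58.LE.DFE
import Pool.Agent.helper58.LE.IHG
import Pool.Agent.helper58.LE.OBG
import Pool.Agent.helper58.LE.TGG
import Pool.Agent.helper58.LE.MNG
import Pool.Agent.helper58.LE.HNG
import Pool.Agent.helper58.LE.AMG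
import Pool.Agent.helper58.LE.FSG
import Pool.Agent.helper58.LE.FDG

/-!
# MP_baa4d7_al: the induction for an arbitrary hereditary hypothesis, assembled (no hypotheses left)

`gMNG : MNG_stmt`, `gHNG`, `gAMG`, `gFSG`, `gFDG`, `gOBG`, `gTGG`, `gDFE`; statements in `GenDefs.lean`.
-/

set_option autoImplicit false

namespace Pool.Agent.LE.AllG

open Pool.Agent Pool.Agent.FI Pool.Agent.FI3 Pool.Agent.FI4 Pool.Agent.FI4I Pool.Agent.FI4E Pool.Agent.LE Pool.Agent.GR Pool.Agent.helper58.DC Pool.Agent.DI Pool.Agent.OB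

theorem gHRN : HRN_stmt := LE.HRN Pool.Agent.FI4I.AllI.iTRT
theorem gHRC : HRC_stmt := LE.HRC Pool.Agent.FI4I.AllI.iTTC AllB.dCON AllC.cFEQ AllA.dSYL
theorem gDFE : DFE_stmt := LE.DFE AllQ2.dQID (AllQ2.eQHT AllQ.qQEV) AllA.dTPR
theorem gIHG : IHG_stmt := LE.IHG Pool.Agent.FI4I.AllI.iRTN gHRN gHRC Pool.Agent.FI4I.AllI.iBKV Pool.Agent.FI4I.AllI.iTRL Pool.Agent.FI4I.AllI.iTR3 AllC.cFSI
theorem gTGG : TGG_stmt := LE.TGG (Pool.Agent.FI4I.AllI.iTOG AllK.kLBN) Pool.Agent.FI4I.AllI.iLOC gIHG Pool.Agent.FI3F.AllF.cFMX3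
theorem gOBG : OBG_stmt := LE.OBG Pool.Agent.FI4I.AllI.iBKV AllB.dCON AllA.dEXB AllC.cFEQ AllC.cFSI AllA.dCJG Pool.Agent.FI4I.AllI.iRTN
  gHRN Pool.Agent.FI4I.AllI.iTRL
theorem gMNG : MNG_stmt := LE.MNG gTGG AllK.kOPD gOBG
theorem gHNG : HNG_stmt := LE.HNG Pool.Agent.FI4I.AllI.iBKN Pool.Agent.FI4I.AllI.iBKV gHRC Pool.Agent.FI4I.AllI.iRTN gHRN
  Pool.Agent.FI4I.AllI.iTRL Pool.Agent.FI4I.AllI.iTR4
theorem gAMG : AMG_stmt :=
  LE.AMG gIHG Pool.Agent.FI4I.AllI.iLOC (Pool.Agent.FI4I.AllI.iKNR AllK.kKRA AllK.kLBN) Pool.Agent.FI4I.AllI.iVNN Pool.Agent.FI4I.AllI.iLBI gHRC AllC.cFEQ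
theorem gFDG : FDG_stmt := LE.FDG AllC.cFT0 gHNG AllK.kKRG gTGG
theorem gFSG : FSG_stmt := LE.FSG GR.All.dB2 AllC.cFT0 AllK.kKRG gTGG

end Pool.Agent.LE.AllG
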