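import Pool.Agent.helper58.LE.GenDefs

/-!
# MP_baa4d7_al: building blocks for hereditary hypotheses

`HerT_and`, `HerT_or`, `HerT_const`, `HerT_idx` (`|T : cz D| ≤ n`), `HerT_wit` (commutators of large order), `HerT_cnt` (number of elements of `D` with an invariant property),
`HerT_iso` (isomorphism invariant properties of the group `D`).
-/

set_option autoImplicit false

namespace Pool.Agent.LE

open Pool.Agent.helper58.DC Pool.Agent.DI Pool.Agent.GR Pool.Agent.OB Pool.Agent.DR Pool.Agent.FI Pool.Agent.FI3 Pool.Agent.FI4 Pool.Agent.FI4I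

theorem HerT_and {p : ℕ} {H K : HP} (hH : Her p H) (hK : Her p K) : Her p (fun G _ _ D T => H G D T ∧ K G D T) :=
  ⟨fun G _ _ D T N h1 h2 h3 h4 h5 h6 => ⟨hH.sub G D T N h1 h2 h3 h4 h5 h6.1, hK.sub G D T N h1 h2 h3 h4 h5 h6.2⟩,
    fun G _ _ D T g h1 h2 h3 h4 => ⟨hH.cj G D T g h1 h2 h3 h4.1, hK.cj G D T g h1 h2 h3 h4.2⟩⟩

theorem HerT_or {p : ℕ} {H K : HP} (hH : Her p H) (hK : Her p K) : Her p (fun G _ _ D T => H G D T ∨ K G D T) :=
  ⟨fun G _ _ D T N h1 h2 h3 h4 h5 h6 => h6.imp (hH.sub G D T N h1 h2 h3 h4 h5) (hK.sub G D T N h1 h2 h3 h4 h5),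
    fun G _ _ D T g h1 h2 h3 h4 => h4.imp (hH.cj G D T g h1 h2 h3) (hK.cj G D T g h1 h2 h3)⟩

theorem HerT_const {p : ℕ} (P : Prop) : Her p (fun _ _ _ _ _ => P) :=
  ⟨fun _ _ _ _ _ _ _ _ _ _ _ h => h, fun _ _ _ _ _ _ _ _ _ h => h⟩

theorem HerT_ex {p : ℕ} {ι : Type} {H : ι → HP} (hH : ∀ i, Her p (H i)) : Her p (fun G _ _ D T => ∃ i, H i G D T) :=
  ⟨fun G _ _ D T N h1 h2 h3 h4 h5 h6 => h6.imp fun i h => (hH i).sub G D T N h1 h2 h3 h4 h5 h,
    fun G _ _ D T g h1 h2 h3 h4 => h4.imp fun i h => (hH i).cj G D T g h1 h2 h3 h⟩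

theorem HerT_cz {G : Type} [Group G] (D N : Subgroup G) (hDN : D ≤ N) : cz (D.subgroupOf N) = (cz D).subgroupOf N := by
  ext y
  rw [Subgroup.mem_subgroupOf, Subgroup.mem_centralizer_iff, Subgroup.mem_centralizer_iff]
  constructor
  · intro h d hd
    exact congrArg Subtype.val (h ⟨d, hDN hd⟩ (Subgroup.mem_subgroupOf.2 hd))
  · intro h d hd
    exact Subtype.ext (h (d : G) (Subgroup.mem_subgroupOf.1 hd))

theorem HerT_czc {G : Type} [Group G] (D : Subgroup G) (g : G) : cz (cjS g D) = cjS g (cz D) := by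
  ext y
  rw [mem_cjS, Subgroup.mem_centralizer_iff, Subgroup.mem_centralizer_iff]
  constructor
  · intro h d hd
    have h1 := h (g * d * g⁻¹) (mem_cjS.2 (by
      have h2 : g⁻¹ * (g * d * g⁻¹) * g = d := by group
      rw [h2]
      exact hd))
    have h3 : d * (g⁻¹ * y * g) = g⁻¹ * ((g * d * g⁻¹) * y) * g := by group
    rw [h3, h1]
    group
  · intro h d hd
    have h1 := h _ (mem_cjS.1 hd)
    have h3 : d * y = g * ((g⁻¹ * d * g) * (g⁻¹ * y * g)) * g⁻¹ := by group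
    rw [h3, h1]
    group

theorem HerT_idx {p : ℕ} (n : ℕ) : Her p (fun G _ _ D T => (cz D).relIndex T ≤ n) := by
  constructor
  · intro G _ _ D T N _ hDN hCN hCT _ h
    rw [HerT_cz D N hDN]
    have e0 : ((cz D).subgroupOf N).relIndex (T.subgroupOf N) = (cz D).relIndex (T ⊓ N) := by
      have e1 : T.subgroupOf N = (T ⊓ N).subgroupOf N := by
        ext n
        simp [Subgroup.mem_subgroupOf]
      rw [e1]
      exact Subgroup.relIndex_subgroupOf inf_le_right
    rw [e0]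
    refine le_trans ?_ h
    have h1 := Subgroup.relIndex_mul_relIndex (cz D) (T ⊓ N) T (le_inf hCT hCN) inf_le_left
    rw [← h1]
    exact Nat.le_mul_of_pos_right _ (Nat.pos_of_ne_zero Subgroup.index_ne_zero_of_finite)
  · intro G _ _ D T g _ _ _ h
    rw [HerT_czc]
    have e1 : (cjS g (cz D)).relIndex (cjS g T) = (cz D).relIndex T :=
      Subgroup.relIndex_map_map_of_injective (cz D) T (MulAut.conj g).injective
    show (cjS g (cz D)).relIndex (cjS g T) ≤ n
    rw [e1]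
    exact h

theorem HerT_wit {p : ℕ} (k : ℕ) : Her p (fun G _ _ D T => ∀ t ∈ T, t ∉ cz D → ∃ w ∈ D, (w⁻¹ * t * w * t⁻¹) ^ k ≠ 1) := by
  constructor
  · intro G _ _ D T N _ hDN _ _ _ h t ht htc
    rw [Subgroup.mem_subgroupOf] at ht
    rw [HerT_cz D N hDN, Subgroup.mem_subgroupOf] at htc
    obtain ⟨w, hw, hne⟩ := h (t : G) ht htc
    refine ⟨⟨w, hDN hw⟩, Subgroup.mem_subgroupOf.2 hw, fun h0 => hne ?_⟩
    exact congrArg Subtype.val h0
  · intro G _ _ D T g _ _ _ h t ht htc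
    have ht0 := mem_cjS.1 ht
    have htc0 : g⁻¹ * t * g ∉ cz D := fun h1 => htc (by
      rw [HerT_czc]
      exact mem_cjS.2 h1)
    obtain ⟨w, hw, hne⟩ := h _ ht0 htc0
    refine ⟨g * w * g⁻¹, mem_cjS.2 ?_, fun h1 => hne ?_⟩
    · have h2 : g⁻¹ * (g * w * g⁻¹) * g = w := by group
      rw [h2]
      exact hw
    · have h2 : w⁻¹ * (g⁻¹ * t * g) * w * (g⁻¹ * t * g)⁻¹ =
          g⁻¹ * ((g * w * g⁻¹)⁻¹ * t * (g * w * g⁻¹) * t⁻¹) * (g⁻¹)⁻¹ := by group
      rw [h2, conj_pow, h1]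
      group

/-- The number of the elements of `D` with the property `P` (invariant under injective homomorphisms) is at most `k`. -/
theorem HerT_cnt {p : ℕ} (P : ∀ (A : Type) [Group A], A → Prop)
    (hP : ∀ (A B : Type) [Group A] [Group B] (f : A →* B), Function.Injective f → ∀ a, P B (f a) ↔ P A a) (k : ℕ) :
    Her p (fun G _ _ D _ => {u : G | u ∈ D ∧ P G u}.ncard ≤ k) := by
  constructor
  · intro G _ _ D T N _ hDN _ _ _ h
    refine le_trans ?_ h
    refine Set.ncard_le_ncard_of_injOn (fun u : N => (u : G)) ?_ Subtype.val_injective.injOn (Set.toFinite _)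
    rintro u ⟨hu, ho⟩
    exact ⟨Subgroup.mem_subgroupOf.1 hu, (hP N G N.subtype N.subtype_injective u).2 ho⟩
  · intro G _ _ D T g _ _ _ h
    refine le_trans ?_ h
    refine Set.ncard_le_ncard_of_injOn (fun u : G => g⁻¹ * u * g) ?_ ?_ (Set.toFinite _)
    · rintro u ⟨hu, ho⟩
      refine ⟨mem_cjS.1 hu, ?_⟩
      have h1 := (hP G G (MulAut.conj g⁻¹).toMonoidHom (MulAut.conj g⁻¹).injective u).2 ho
      have h2 : (MulAut.conj g⁻¹).toMonoidHom u = g⁻¹ * u * g := by
        show g⁻¹ * u * (g⁻¹)⁻¹ = g⁻¹ * u * g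
        rw [inv_inv]
      rw [h2] at h1
      exact h1
    · intro u _ v _ huv
      have huv' : g⁻¹ * u * g = g⁻¹ * v * g := huv
      exact mul_left_cancel (mul_right_cancel huv')

/-- An isomorphism invariant property of the group `D`. -/
theorem HerT_iso {p : ℕ} (P : ∀ (A : Type) [Group A], Prop)
    (hP : ∀ (A B : Type) [Group A] [Group B], Nonempty (A ≃* B) → P A → P B) :
    Her p (fun _ _ _ D _ => P D) := by
  constructor
  · intro G _ _ D T N _ hDN _ _ _ h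
    exact hP D (D.subgroupOf N) ⟨(Subgroup.subgroupOfEquivOfLe hDN).symm⟩ h
  · intro G _ _ D T g _ _ _ h
    exact hP D (cjS g D) ⟨D.equivMapOfInjective (MulAut.conj g).toMonoidHom (MulAut.conj g).injective⟩ h

end Pool.Agent.LE
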