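import Pool.Agent.helper70.LE.Defs3
import Pool.Agent.helper58.LE.HerL

/-!
# MP_baa4d7_al, project LE: heredity of the hypotheses of Defs v3 (HHE)
-/

set_option autoImplicit false

namespace Pool.Agent.LE

open Pool.Agent.helper58.DC Pool.Agent.DI Pool.Agent.GR Pool.Agent.OB Pool.Agent.DR Pool.Agent.FI Pool.Agent.FI3 Pool.Agent.FI4

theorem HHE_regS {G : Type} [Group G] {D T N : Subgroup G} (hDN : D ≤ N) {u : G} (hu : u ∈ RGT D T) (huN : u ∈ N) :
    (⟨u, huN⟩ : N) ∈ RGT (D.subgroupOf N) (T.subgroupOf N) := by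
  refine ⟨Subgroup.mem_subgroupOf.2 hu.1, fun t ht h => ?_⟩
  rw [HerT_cz D N hDN, Subgroup.mem_subgroupOf]
  exact hu.2 t (Subgroup.mem_subgroupOf.1 ht) (congrArg Subtype.val h)

theorem HHE_regC {G : Type} [Group G] {D T : Subgroup G} (g : G) {u : G} (hu : u ∈ RGT D T) :
    g * u * g⁻¹ ∈ RGT (cjS g D) (cjS g T) := by
  refine ⟨mem_cjS.2 ?_, fun t ht h => ?_⟩
  · have h2 : g⁻¹ * (g * u * g⁻¹) * g = u := by group
    rw [h2]
    exact hu.1
  · rw [HerT_czc]
    refine mem_cjS.2 (hu.2 _ (mem_cjS.1 ht) ?_)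
    calc g⁻¹ * t * g * u = g⁻¹ * (t * (g * u * g⁻¹)) * g := by group
      _ = g⁻¹ * ((g * u * g⁻¹) * t) * g := by rw [h]
      _ = u * (g⁻¹ * t * g) := by group

theorem HHE_cardS {G : Type} [Group G] {D N : Subgroup G} (hDN : D ≤ N) : Nat.card (D.subgroupOf N) = Nat.card D :=
  Nat.card_congr (Subgroup.subgroupOfEquivOfLe hDN).toEquiv

theorem HHE_cardC {G : Type} [Group G] (D : Subgroup G) (g : G) : Nat.card (cjS g D) = Nat.card D :=
  Nat.card_congr (D.equivMapOfInjective (MulAut.conj g).toMonoidHom (MulAut.conj g).injective).toEquiv.symm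

/-- many regular elements -/
theorem HHE_cnt {p : ℕ} (m : ℕ) : Her p (fun _ _ _ D T => (cz D).relIndex T * Nat.card D < m * (RGT D T).ncard) := by
  classical
  constructor
  · intro G _ _ D T N hp hDN hCN hCT hT h
    have h1 := (HerT_idx (p := p) ((cz D).relIndex T)).sub G D T N hp hDN hCN hCT hT le_rfl
    rw [HHE_cardS hDN]
    refine lt_of_le_of_lt (Nat.mul_le_mul_right _ h1) (lt_of_lt_of_le h (Nat.mul_le_mul_left _ ?_))
    refine Set.ncard_le_ncard_of_injOn (fun u : G => if hu : u ∈ N then (⟨u, hu⟩ : N) else 1) ?_ ?_ (Set.toFinite _)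
    · intro u hu
      have huN : u ∈ N := hDN hu.1
      show (if hu : u ∈ N then (⟨u, hu⟩ : N) else 1) ∈ _
      rw [dif_pos huN]
      exact HHE_regS hDN hu huN
    · intro u hu v hv huv
      have huN : u ∈ N := hDN hu.1
      have hvN : v ∈ N := hDN hv.1
      have h3 : (if hu : u ∈ N then (⟨u, hu⟩ : N) else 1) = (if hu : v ∈ N then (⟨v, hu⟩ : N) else 1) := huv
      rw [dif_pos huN, dif_pos hvN] at h3
      exact congrArg Subtype.val h3
  · intro G _ _ D T g hp hCT hT h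
    have h1 := (HerT_idx (p := p) ((cz D).relIndex T)).cj G D T g hp hCT hT le_rfl
    rw [HHE_cardC]
    refine lt_of_le_of_lt (Nat.mul_le_mul_right _ h1) (lt_of_lt_of_le h (Nat.mul_le_mul_left _ ?_))
    refine Set.ncard_le_ncard_of_injOn (fun u : G => g * u * g⁻¹) ?_ ?_ (Set.toFinite _)
    · intro u hu
      exact HHE_regC g hu
    · intro u _ v _ huv
      have huv' : g * u * g⁻¹ = g * v * g⁻¹ := huv
      exact mul_left_cancel (mul_right_cancel huv')

theorem HHE_krt {p : ℕ} (c h : ℕ) : Her p (fun _ _ _ D T =>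
    ∃ (g : ℕ) (K : Subgroup _) (u : _), KRT p D T h g K u ∧ Nat.card D ≤ p ^ (c + g) * Nat.card K) := by
  constructor
  · rintro G _ _ D T N _ hDN _ _ _ ⟨g, K, u, hK, hc⟩
    have hKN : K ≤ N := hK.le.trans hDN
    refine ⟨g, K.subgroupOf N, ⟨u, hDN hK.mem⟩, ⟨?_, ?_, ?_, ?_, ?_, ?_⟩, ?_⟩
    · exact fun k hk => Subgroup.mem_subgroupOf.2 (hK.le (Subgroup.mem_subgroupOf.1 hk))
    · intro k hk
      obtain ⟨v, hv, hvk⟩ := hK.pw k (Subgroup.mem_subgroupOf.1 hk)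
      exact ⟨⟨v, hDN hv⟩, Subgroup.mem_subgroupOf.2 hv, Subtype.ext hvk⟩
    · intro t ht k hk
      exact Subgroup.mem_subgroupOf.2 (hK.inv t (Subgroup.mem_subgroupOf.1 ht) k (Subgroup.mem_subgroupOf.1 hk))
    · exact Subgroup.mem_subgroupOf.2 hK.mem
    · intro k hk
      exact HHE_regS hDN (hK.reg k (Subgroup.mem_subgroupOf.1 hk)) (N.mul_mem (hDN hK.mem) k.2)
    · exact hK.ord.imp id fun h1 h2 => h1 (Subgroup.mem_subgroupOf.1 h2)
    · rw [HHE_cardS hDN, HHE_cardS hKN]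
      exact hc
  · rintro G _ _ D T y _ _ _ ⟨g, K, u, hK, hc⟩
    refine ⟨g, cjS y K, y * u * y⁻¹, ⟨?_, ?_, ?_, ?_, ?_, ?_⟩, ?_⟩
    · exact fun k hk => mem_cjS.2 (hK.le (mem_cjS.1 hk))
    · intro k hk
      obtain ⟨v, hv, hvk⟩ := hK.pw _ (mem_cjS.1 hk)
      refine ⟨y * v * y⁻¹, mem_cjS.2 ?_, ?_⟩
      · have h2 : y⁻¹ * (y * v * y⁻¹) * y = v := by group
        rw [h2]
        exact hv
      · rw [conj_pow, hvk]
        group
    · intro t ht k hk
      refine mem_cjS.2 ?_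
      have h1 := hK.inv _ (mem_cjS.1 ht) _ (mem_cjS.1 hk)
      have h2 : y⁻¹ * t * y * (y⁻¹ * k * y) * (y⁻¹ * t * y)⁻¹ = y⁻¹ * (t * k * t⁻¹) * y := by group
      rwa [h2] at h1
    · refine mem_cjS.2 ?_
      have h2 : y⁻¹ * (y * u * y⁻¹) * y = u := by group
      rw [h2]
      exact hK.mem
    · intro k hk
      have h1 := HHE_regC y (hK.reg _ (mem_cjS.1 hk))
      have h2 : y * (u * (y⁻¹ * k * y)) * y⁻¹ = y * u * y⁻¹ * k := by group
      rwa [h2] at h1
    · refine hK.ord.imp id fun h1 h2 => h1 ?_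
      have h3 := mem_cjS.1 h2
      rw [conj_pow] at h3
      have h4 : y⁻¹ * (y * u ^ p ^ g * y⁻¹) * y = u ^ p ^ g := by group
      rwa [h4] at h3
    · rw [HHE_cardC, HHE_cardC]
      exact hc

/-- **HHE**: all the hypotheses of Defs v3 are hereditary. -/
theorem HHE : HHE_stmt := by
  intro p _ c h
  have h1 : Her p (HLE p c h) := HerT_and (HHE_krt c h) (HHE_cnt (p ^ (2 * h + 2)))
  have h2 : Her p (HWE p c) := HerT_wit (p ^ (c - 1))
  have h3 : Her p (HZE p) := HHE_cnt (p ^ 2)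
  exact ⟨h1, h2, h3, HerT_and h1 h2, HerT_and h1 h3, HerT_and (HerT_and h1 h2) h3⟩

end Pool.Agent.LE
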