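import Pool.Agent.helper58.LE.GenDefs
import Pool.Agent.helper70.FI4.SpecK
import Pool.Agent.helper12.FI.Fin
import Pool.Agent.helper93.FI4.KDG
import Pool.Agent.helper48.FI4.KQ

/-!
# MP_baa4d7_al, project LE: the congruence modulo `p ^ c` (port of block K of FI4)

Input: `t` in `TT M D θ`, not in `cz D`, centralising `R = O_p(G)`, `v = [w, t]`, `w ∈ D`, with `v ^ p ^ (c + h - 1) ≠ 1`; the heights are at most `h`.
-/

set_option autoImplicit false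

namespace Pool.Agent.LE

open Pool.Agent.helper58.DC Pool.Agent.DI Pool.Agent.GR Pool.Agent.OB Pool.Agent.DR Pool.Agent.FI Pool.Agent.FI3 Pool.Agent.FI4

theorem DVK_deg {Γ : Type} [Group Γ] (χ : Γ → ℂ) (hχ : χ ∈ Irr Γ) : ∃ n : ℕ, χ 1 = n := by
  obtain ⟨V, _, _, _, ρ, -, hρ⟩ := hχ
  refine ⟨Module.finrank ℂ V, ?_⟩
  rw [← hρ, Representation.char_one]

/-- The defect groups of the blocks of the quotient. -/
def DVK_dg_stmt : Prop :=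
  ∀ (p : ℕ) (M : Ideal (integralClosure ℤ ℂ)), Setup p M → ∀ (G Gb : Type) [Group G] [Finite G]
    [Group Gb] [Finite Gb] (D : Subgroup G) (x : G) (θ χ : G → ℂ), Rt p M D x θ χ → ∀ c h : ℕ, 1 ≤ c →
    (∀ ψ ∈ Blk M χ (⊤ : Subgroup G), ∀ a : ℕ, Nat.card D = p ^ a → ∀ k : ℤ, Defect p ⊤ ψ k → (a : ℤ) ≤ k + h) →
    ∀ (R : Subgroup G) (π : G →* Gb), Qn p R π → R ≤ D → ∀ v ∈ D, (∀ j : ℕ, v ^ j ∈ R → v ^ j = 1) →
    v ^ p ^ (c + h - 1) ≠ 1 → ∀ χ' ∈ Irr Gb, Induces M (fun g => χ' (π g)) χ →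
    ∃ D' : Subgroup Gb, Pool.Agent.MAP.DefectGroup p M χ' D' ∧ Pool.Agent.MAPW.CentreOut p c D'

theorem DVK_dg (hDEX : DEX_stmt) (hCLS : CLS_stmt) (hTPR : Pool.Agent.FI.TPR_stmt) (hDG2 : DG2_stmt) (hKUP : KUP_stmt) (hKBL : KBL_stmt) (hKIN : KIN_stmt) (hKG1 : KG1_stmt) (hCFA : CFA_stmt) (hFOV : FOV_stmt) (hCON : CON_stmt) (hKHT : KHT_stmt) : DVK_dg_stmt := by
  intro p M hS G Gb _ _ _ _ D x θ χ hRt c h hc hdef R π hQ hRD v hv hv1 hv2 χ' hχ' hind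
  have hpr : p.Prime := hS.pr
  haveI hF : Fact p.Prime := ⟨hpr⟩
  obtain ⟨hT1, -, -, -, hT5⟩ := hTPR p M hS Gb
  obtain ⟨hG1, hG2, -, -, -⟩ := hTPR p M hS G
  obtain ⟨D', x', hD', -⟩ := hDEX p M hS Gb ⊤ χ' (by rw [hT1]; exact hχ')
  have hom : ∀ y : Gb, omega χ' y = cc χ' (cls ⊤ y) := fun y => (hCLS Gb ⊤ y).2.2.2.2.2.2.2.1 χ'
  have hint : ∀ y : Gb, IsIntegral ℤ (cc χ' (cls ⊤ y)) := fun y =>
    (hCLS Gb ⊤ y).2.2.2.2.2.2.2.2 ⊤ le_rfl χ' (by rw [hT1]; exact hχ')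
  have hcard : Nat.card D' = pp p (Subgroup.centralizer ({x'} : Set Gb)) := by
    have h := hD'.card
    rwa [hT5] at h
  have hle : D' ≤ Subgroup.centralizer {x'} := by
    have h := hD'.le
    rwa [hT5] at h
  have hmin : ∀ y : Gb, ¬ InM M (cc χ' (cls ⊤ y)) → Nat.card D' ≤ pp p (Subgroup.centralizer ({y} : Set Gb)) := by
    intro y hy
    have h := hD'.min y (Subgroup.mem_top _) hy
    rwa [hT5] at h
  have hDA : DefAt p M χ' D' x' := by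
    refine ⟨hD'.reg, ?_, hle, hD'.pg, hcard, ?_⟩
    · rw [hom]
      exact hD'.ne
    · intro y hy
      rw [hom] at hy
      exact hmin y hy
  have hnv : ∀ y : Gb, Pool.Agent.MAP.NonVan M χ' y ↔ ¬ InM M (cc χ' (cls ⊤ y)) := by
    intro y
    constructor
    · intro h h1
      have h2 : InM M (((⟨cc χ' (cls ⊤ y), hint y⟩ : integralClosure ℤ ℂ)) : ℂ) := h1
      exact h _ (InM.mem hS h2) (hom y)
    · intro h a ha h1
      apply h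
      rw [← hom, h1]
      exact InM.coe hS ha
  have hDG : Pool.Agent.MAP.DefectGroup p M χ' D' := by
    refine ⟨x', hD'.reg, (hnv _).2 hD'.ne, hle, hD'.pg, KDG_index hpr hle hcard, ?_⟩
    intro y hy
    obtain ⟨Q, hQ1, hQ2, hQ3⟩ := KDG_syl hpr (Subgroup.centralizer ({y} : Set Gb))
    exact ⟨Q, hQ1, hQ2, by rw [hQ3]; exact hmin y ((hnv y).1 hy)⟩
  -- the character of the centraliser
  obtain ⟨θ', hθ', hθi⟩ := hDG2 p M hS Gb χ' hχ' D' x' hDA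
  have hcn : ∀ (Γ : Type) [Group Γ] (P : Subgroup Γ), cz P ≤ nz P := by
    intro Γ _ P
    exact Subgroup.centralizer_le_normalizer _
  have hcn2 : ∀ (Γ : Type) [Group Γ] (P : Subgroup Γ), nz P ≤ nz (cz P) := by
    intro Γ _ P g hg
    refine Subgroup.mem_normalizer_iff.2 fun h => ⟨fun hh => cz_conj hg hh, fun hh => ?_⟩
    have h1 := cz_conj ((nz P).inv_mem hg) hh
    have h2 : g⁻¹ * (g * h * g⁻¹) * g⁻¹⁻¹ = h := by group
    rwa [h2] at h1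
  obtain ⟨φ, hφ, e, he, hov⟩ := hKUP Gb (cz D') (nz D') (hcn Gb D') (hcn2 Gb D') θ' hθ'
  have hφi : Induces M φ χ' :=
    (hFOV p M hS Gb D' (nz D') hD'.pg Subgroup.le_normalizer (hcn Gb D') le_rfl φ hφ θ' hθ' e he hov χ').2 hθi
  obtain ⟨-, hGG, hK1, -, hK2, -, -, -⟩ := hKG1 p G Gb R π hQ
  obtain ⟨-, hXcard, hXp, hXn⟩ := hK1 D'
  obtain ⟨-, hI2, -, -⟩ := hKIN p G Gb R π hQ
  set X : Subgroup G := D'.comap π with hX
  have hXpg : IsPGroup p X := hXp.1 hD'.pg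
  have hf : (fun g => φ (π g)) ∈ IrrOn (nz X) := by
    rw [← hXn]
    exact hI2 (nz D') φ hφ
  have hfi : Induces M (fun g => φ (π g)) χ := by
    have h1 := (hKBL p M hS G Gb R π hQ).1 φ χ' hφi
    rw [hG2] at h1 hind ⊢
    exact h1.trans hind
  obtain ⟨ψ, hψ, e', he', hov'⟩ := (hCFA G (cz X) (nz X) (hcn G X) (hcn2 G X)).1 _ hf
  have hψi : Induces M ψ χ :=
    (hFOV p M hS G X (nz X) hXpg Subgroup.le_normalizer (hcn G X) le_rfl _ hf ψ hψ e' he' hov' χ).1 hfi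
  obtain ⟨g, hg, -⟩ := hCON p M hS G D x θ χ hRt X hXpg ψ hψ hψi
  have hXc : ∀ a ∈ X, ∀ b ∈ X, a * b = b * a := by
    intro a ha b hb
    have h1 := hRt.com _ (hg (KDG_mem_map_conj (g := g) ha)) _ (hg (KDG_mem_map_conj (g := g) hb))
    have h2 : g * (a * b) * g⁻¹ = g * (b * a) * g⁻¹ := by
      calc g * (a * b) * g⁻¹ = (g * a * g⁻¹) * (g * b * g⁻¹) := by group
        _ = (g * b * g⁻¹) * (g * a * g⁻¹) := h1
        _ = g * (b * a) * g⁻¹ := by group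
    exact mul_left_cancel (mul_right_cancel h2)
  have hD'c : ∀ a ∈ D', ∀ b ∈ D', a * b = b * a := by
    intro a ha b hb
    obtain ⟨a', rfl⟩ := hQ.sur a
    obtain ⟨b', rfl⟩ := hQ.sur b
    have h1 := hXc a' ha b' hb
    rw [← map_mul, h1, map_mul]
  -- the order of `D'`
  have hRn : ∀ r ∈ R, ∀ g : G, g * r * g⁻¹ ∈ R := by
    intro r hr g
    rw [← hQ.ker, map_mul, map_mul, (hQ.ker r).2 hr, mul_one, ← map_mul, mul_inv_cancel, map_one]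
  have hDp : IsPGroup p D := hRt.dfa.pgrp
  obtain ⟨a, ha⟩ := IsPGroup.iff_card.1 hDp
  obtain ⟨r, hr⟩ := IsPGroup.iff_card.1 hQ.pg
  obtain ⟨d', hd'⟩ := IsPGroup.iff_card.1 hD'.pg
  have hXc2 : Nat.card X = p ^ (r + d') := by
    rw [hXcard, hr, hd', pow_add]
  have hBl : (fun g => χ' (π g)) ∈ Blk M χ ⊤ := by
    refine ⟨?_, hind⟩
    have h1 := hI2 ⊤ χ' (by rw [hT1]; exact hχ')
    rwa [Subgroup.comap_top] at h1
  obtain ⟨n, hn⟩ := DVK_deg χ' hχ'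
  have hn2 : (fun g => χ' (π g)) 1 = (n : ℂ) := by
    show χ' (π 1) = n
    rw [map_one]
    exact hn
  have hh1 := hdef _ hBl a ha _ ⟨n, hn2, rfl⟩
  have hh := hKHT p M hS Gb χ' hχ' D' x' hD' n hn
  have hv' : padicValNat p (Nat.card G) = r + padicValNat p (Nat.card Gb) := by
    rw [hGG, padicValNat.mul Nat.card_pos.ne' Nat.card_pos.ne', hr, padicValNat.prime_pow]
  rw [Subgroup.card_top] at hh1
  rw [hd', padicValNat.prime_pow] at hh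
  have har : a ≤ r + d' + h := by omega
  -- the conjugate of `X`
  obtain ⟨Y, hY⟩ : ∃ Y : Subgroup G, Y = X.map (MulAut.conj g).toMonoidHom := ⟨_, rfl⟩
  have hYD : Y ≤ D := by
    rw [hY]
    exact hg
  have hYc : Nat.card Y = p ^ (r + d') := by
    rw [← hXc2, hY]
    exact Subgroup.card_map_of_injective (MulAut.conj g).injective
  have hidx : Y.relIndex D ∣ p ^ h := by
    have h1 := Subgroup.relIndex_mul_relIndex (⊥ : Subgroup G) Y D bot_le hYD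
    rw [Subgroup.relIndex_bot_left, Subgroup.relIndex_bot_left, hYc, ha] at h1
    have h2 : Y.relIndex D ∣ p ^ a := ⟨p ^ (r + d'), by rw [← h1, mul_comm]⟩
    obtain ⟨i, -, hi⟩ := (Nat.dvd_prime_pow hpr).1 h2
    rw [hi, ← pow_add] at h1
    have h3 := Nat.pow_right_injective hpr.two_le h1
    rw [hi]
    exact pow_dvd_pow p (by omega)
  have hvY : v ^ p ^ h ∈ Y := by
    have hN : (Y.subgroupOf D).Normal := by
      constructor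
      intro n hn g
      have h1 : g * n * g⁻¹ = n := by
        apply Subtype.ext
        show (g : G) * (n : G) * (g : G)⁻¹ = n
        rw [hRt.com _ g.2 _ n.2]
        group
      rw [h1]
      exact hn
    have h1 := Subgroup.pow_index_mem (Y.subgroupOf D) (⟨v, hv⟩ : D)
    have h2 : v ^ Y.relIndex D ∈ Y := h1
    obtain ⟨m, hm⟩ := hidx
    rw [hm, pow_mul]
    exact Y.pow_mem h2 m
  rw [hY] at hvY
  obtain ⟨z, hzX, hzv⟩ := hvY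
  have hzv' : g * z * g⁻¹ = v ^ p ^ h := hzv
  refine ⟨D', hDG, hc, ?_⟩
  have hcm : ⁅D', D'⁆ = ⊥ := by
    rw [Subgroup.commutator_eq_bot_iff_le_centralizer]
    intro c hc
    rw [Subgroup.mem_centralizer_iff]
    intro d hd
    exact hD'c d hd c hc
  have hzD : π z ∈ D' := hzX
  refine ⟨π z, hzD, fun d hd => hD'c _ hzD d hd, ?_⟩
  rw [hcm, Subgroup.mem_bot, ← map_pow]
  intro h0
  have h1 : z ^ p ^ (c - 1) ∈ R := (hQ.ker _).1 h0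
  have h2 : g * z ^ p ^ (c - 1) * g⁻¹ = v ^ p ^ (c + h - 1) := by
    rw [← conj_pow, hzv', ← pow_mul, ← pow_add]
    congr 2
    omega
  have h3 := hRn _ h1 g
  rw [h2] at h3
  exact hv2 (hv1 _ h3)

/-- The congruence modulo `p ^ c` for one block. -/
def DVK_dv_stmt : Prop :=
  ∀ (p : ℕ) (M : Ideal (integralClosure ℤ ℂ)), Setup p M → ∀ (G : Type) [Group G] [Finite G],
    IsOp p (⊤ : Subgroup G) ⊥ → ∀ χ ∈ Irr G, ∀ D : Subgroup G, Pool.Agent.MAP.DefectGroup p M χ D → ∀ c : ℕ,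
    Pool.Agent.MAPW.CentreOut p c D →
    (p : ℤ) ^ c * Nat.card G ∣ ∑ᶠ C ∈ {C : Finset (Subgroup G) | NCh p ⊤ ⊥ C},
      (-1) ^ (C.card + 1) * ((Nat.card (nrm C) : ℤ) * (lb p M χ (nrm C) : ℤ))

theorem DVK_dv (hKRG : KRG_stmt) (hJT0 : JT0_stmt) (hLBN : LBN_stmt) : DVK_dv_stmt := by
  intro p M hM G _ _ hop χ hχ D hD c hz
  have h1 := Fin_div p hM.pr M hM.max hM.mem G hop χ hχ D hD c hz
  have h2 := hJT0 p M hM G hop χ hχ
  have h3 := hKRG p M hM G χ hχ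
  have hfin : ({C : Finset (Subgroup G) | NCh p ⊤ ⊥ C}).Finite := Set.toFinite _
  have h4 : (∑ᶠ C ∈ {C : Finset (Subgroup G) | NCh p ⊤ ⊥ C},
      (-1) ^ (C.card + 1) * ((Nat.card (nrm C) : ℤ) * (lb p M χ (nrm C) : ℤ))) =
      ∑ᶠ C ∈ {C : Finset (Subgroup G) | NCh p ⊤ ⊥ C},
        (-1) ^ (C.card + 1) * ((Nat.card (nrm C) : ℤ) * (Blk M χ (nrm C)).ncard) := by
    have h5 : (((∑ᶠ C ∈ {C : Finset (Subgroup G) | NCh p ⊤ ⊥ C},
      (-1) ^ (C.card + 1) * ((Nat.card (nrm C) : ℤ) * (lb p M χ (nrm C) : ℤ)) : ℤ)) : ℂ) =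
      ((∑ᶠ C ∈ {C : Finset (Subgroup G) | NCh p ⊤ ⊥ C},
        (-1) ^ (C.card + 1) * ((Nat.card (nrm C) : ℤ) * (Blk M χ (nrm C)).ncard) : ℤ) : ℂ) := by
      rw [finsum_mem_eq_finite_toFinset_sum _ hfin, finsum_mem_eq_finite_toFinset_sum _ hfin] at h3 ⊢
      push_cast
      rw [h3]
      refine Finset.sum_congr rfl fun C _ => ?_
      rw [lb_eq_LL hLBN p M hM G (nrm C) χ]
    exact_mod_cast h5
  rw [h4, ← h2, mul_comm ((p : ℤ) ^ c)]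
  exact mul_dvd_mul_left _ h1


/-- The congruence, for an arbitrary quotient map. -/
theorem DVK_gen (hKG1 : KG1_stmt) (hKCH : KCH_stmt) (hKLE : KLE_stmt) (hKIN : KIN_stmt)
    (hKBL : KBL_stmt) (hKDG : DVK_dg_stmt) (hKDV : DVK_dv_stmt) (hKUN : KUN_stmt) (hBCL : BCL_stmt)
    (hIM : IM_stmt) (p : ℕ) (M : Ideal (integralClosure ℤ ℂ)) (hM : Setup p M) (G Gb : Type)
    [Group G] [Finite G] [Group Gb] [Finite Gb] (D : Subgroup G) (x : G) (θ χ : G → ℂ)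
    (hRt : Rt p M D x θ χ)
    (c h : ℕ) (hc : 1 ≤ c)
    (hht : ∀ ψ ∈ Blk M χ (⊤ : Subgroup G), ∀ a : ℕ, Nat.card D = p ^ a → ∀ k : ℤ, Defect p ⊤ ψ k → (a : ℤ) ≤ k + h)
    (R : Subgroup G) (hR : IsOp p ⊤ R) (hRD : R ≤ D) (v : G) (hv : v ∈ D) (hv1 : ∀ j : ℕ, v ^ j ∈ R → v ^ j = 1)
    (hv2 : v ^ p ^ (c + h - 1) ≠ 1) (π : G →* Gb) (hQ : Qn p R π) :
    (p : ℤ) ^ c * Nat.card G ∣ ∑ᶠ C ∈ {C : Finset (Subgroup G) | NCh p ⊤ R C},
      (-1) ^ (C.card + 1) * ((Nat.card (nrm C) : ℤ) * (lb p M χ (nrm C) : ℤ)) := by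
  classical
  have : Fact p.Prime := ⟨hM.pr⟩
  obtain ⟨-, hcG, hN, -, -, -, -, hop⟩ := hKG1 p G Gb R π hQ
  obtain ⟨hbij, hch⟩ := hKCH p G Gb R π hQ
  have hX : ∀ χ' ∈ KQ_X M π χ, ∀ χ'' ∈ Irr Gb, Induces M χ'' χ' → χ'' ∈ KQ_X M π χ :=
    fun χ' h1 χ'' h2 h3 => ⟨h2, (hIM G M _ _ _).2.2.1 ((hKBL p M hM G Gb R π hQ).1 χ'' χ' h3) h1.2⟩
  have hdv : ∀ χ' ∈ KQ_X M π χ, (p : ℤ) ^ c * Nat.card Gb ∣
      ∑ᶠ C ∈ {C : Finset (Subgroup Gb) | NCh p ⊤ ⊥ C},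
        (-1) ^ (C.card + 1) * ((Nat.card (nrm C) : ℤ) * (lb p M χ' (nrm C) : ℤ)) := by
    intro χ' h1
    obtain ⟨D', h2, h3⟩ := hKDG p M hM G Gb D x θ χ hRt c h hc hht R π hQ hRD v hv hv1 hv2 χ' h1.1 h1.2
    exact hKDV p M hM Gb (hop hR) χ' h1.1 D' h2 c h3
  obtain ⟨-, m, hm⟩ := hKUN p M hM Gb {C : Finset (Subgroup Gb) | NCh p ⊤ ⊥ C}
    ((p : ℤ) ^ c * Nat.card Gb) (KQ_X M π χ) (fun _ h => h.1) hX hdv
  have h4 : ∑ᶠ Cb ∈ {Cb : Finset (Subgroup Gb) | NCh p ⊤ ⊥ Cb}, (Nat.card R : ℤ) *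
      ((-1) ^ (Cb.card + 1) * ((Nat.card (nrm Cb) : ℤ) *
        (ls p (nrm Cb) (BX M (KQ_X M π χ) (nrm Cb)) : ℤ))) =
      ∑ᶠ C ∈ {C : Finset (Subgroup G) | NCh p ⊤ R C},
        (-1) ^ (C.card + 1) * ((Nat.card (nrm C) : ℤ) * (lb p M χ (nrm C) : ℤ)) := by
    refine finsum_mem_eq_of_bijOn _ hbij ?_
    intro Cb hCb
    have h5 := hch Cb
    have h6 := KQ_lb hKLE hKIN hKBL hBCL p M hM G Gb R π hQ χ Cb hCb
    have h7 := (hN (nrm Cb)).2.1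
    change _ = (-1) ^ ((Cb.image (Subgroup.comap π)).card + 1) *
      ((Nat.card (nrm (Cb.image (Subgroup.comap π))) : ℤ) *
        (lb p M χ (nrm (Cb.image (Subgroup.comap π))) : ℤ))
    rw [h5.1, ← h5.2, h6, h7]
    push_cast
    ring
  have hfin : ({Cb : Finset (Subgroup Gb) | NCh p ⊤ ⊥ Cb}).Finite := Set.toFinite _
  have h8 : ∑ᶠ Cb ∈ {Cb : Finset (Subgroup Gb) | NCh p ⊤ ⊥ Cb}, (Nat.card R : ℤ) *
      ((-1) ^ (Cb.card + 1) * ((Nat.card (nrm Cb) : ℤ) *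
        (ls p (nrm Cb) (BX M (KQ_X M π χ) (nrm Cb)) : ℤ))) =
      (Nat.card R : ℤ) * ∑ᶠ Cb ∈ {Cb : Finset (Subgroup Gb) | NCh p ⊤ ⊥ Cb},
      ((-1) ^ (Cb.card + 1) * ((Nat.card (nrm Cb) : ℤ) *
        (ls p (nrm Cb) (BX M (KQ_X M π χ) (nrm Cb)) : ℤ))) := by
    rw [finsum_mem_eq_finite_toFinset_sum _ hfin, finsum_mem_eq_finite_toFinset_sum _ hfin,
      Finset.mul_sum]
  rw [← h4, h8, hm]
  refine ⟨m, ?_⟩
  rw [hcG]
  push_cast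
  ring

/-- The commutator lemma. -/
theorem DVK_comm {G : Type} [Group G] [Finite G] {p : ℕ} (hp : p.Prime) (D R : Subgroup G) (hDp : IsPGroup p D)
    (hDc : ∀ a ∈ D, ∀ b ∈ D, a * b = b * a) (hRD : R ≤ D) (t : G) (ht : t ∈ nz D) (htR : t ∈ cz R) (k : ℕ) (hk : ¬ p ∣ k)
    (htk : t ^ k ∈ cz D) (w : G) (hw : w ∈ D) :
    w⁻¹ * t * w * t⁻¹ ∈ D ∧ ∀ j : ℕ, (w⁻¹ * t * w * t⁻¹) ^ j ∈ R → (w⁻¹ * t * w * t⁻¹) ^ j = 1 := by
  have hconj : ∀ d ∈ D, t * d * t⁻¹ ∈ D := fun d hd => (Subgroup.mem_normalizer_iff.1 ht d).1 hd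
  have hvD : w⁻¹ * t * w * t⁻¹ ∈ D := by
    have h1 : w⁻¹ * t * w * t⁻¹ = w⁻¹ * (t * w * t⁻¹) := by group
    rw [h1]
    exact D.mul_mem (D.inv_mem hw) (hconj w hw)
  refine ⟨hvD, fun j hj => ?_⟩
  -- the power of the commutator
  have hpow : ∀ j : ℕ, (w⁻¹ * t * w * t⁻¹) ^ j = (w ^ j)⁻¹ * (t * w ^ j * t⁻¹) := by
    intro j
    have h1 : w⁻¹ * t * w * t⁻¹ = w⁻¹ * (t * w * t⁻¹) := by group
    have h2 : Commute w⁻¹ (t * w * t⁻¹) := hDc _ (D.inv_mem hw) _ (hconj w hw)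
    rw [h1, h2.mul_pow, conj_pow, inv_pow]
  obtain ⟨r, hr⟩ : ∃ r : G, r = (w⁻¹ * t * w * t⁻¹) ^ j := ⟨_, rfl⟩
  obtain ⟨u, hu⟩ : ∃ u : G, u = w ^ j := ⟨_, rfl⟩
  have huD : u ∈ D := by
    rw [hu]
    exact D.pow_mem hw j
  rw [← hr] at hj ⊢
  have hrD : r ∈ D := hRD hj
  have e1 : t * u * t⁻¹ = u * r := by
    rw [hr, hpow j, ← hu]
    group
  have e2 : t * r * t⁻¹ = r := by
    rw [Subgroup.mem_centralizer_iff] at htR
    rw [← htR r hj]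
    group
  have e3 : ∀ i : ℕ, t ^ i * u * (t ^ i)⁻¹ = u * r ^ i := by
    intro i
    induction i with
    | zero => simp
    | succ i ih =>
      have e4 : t * r ^ i * t⁻¹ = r ^ i := by
        rw [← conj_pow, e2]
      calc t ^ (i + 1) * u * (t ^ (i + 1))⁻¹ = t * (t ^ i * u * (t ^ i)⁻¹) * t⁻¹ := by
            rw [pow_succ']
            group
        _ = t * (u * r ^ i) * t⁻¹ := by rw [ih]
        _ = (t * u * t⁻¹) * (t * r ^ i * t⁻¹) := by group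
        _ = u * r * r ^ i := by rw [e1, e4]
        _ = u * r ^ (i + 1) := by rw [pow_succ', mul_assoc]
  have e5 : u = u * r ^ k := by
    rw [← e3 k]
    rw [Subgroup.mem_centralizer_iff] at htk
    rw [← htk u huD]
    group
  have e6 : r ^ k = 1 := (mul_eq_left.1 e5.symm)
  obtain ⟨m, hm⟩ := hDp ⟨r, hrD⟩
  have hm' : r ^ p ^ m = 1 := congrArg Subtype.val hm
  have h7 : orderOf r ∣ k := orderOf_dvd_of_pow_eq_one e6
  have h8 : orderOf r ∣ p ^ m := orderOf_dvd_of_pow_eq_one hm'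
  have h9 : Nat.Coprime k (p ^ m) := Nat.Coprime.pow_right m ((Nat.Prime.coprime_iff_not_dvd hp).2 hk).symm
  have h10 : orderOf r = 1 := Nat.eq_one_of_dvd_coprimes h9 h7 h8
  exact orderOf_eq_one_iff.1 h10

theorem DVK_idx {G : Type} [Group G] [Finite G] (M : Ideal (integralClosure ℤ ℂ)) (D : Subgroup G) (θ : G → ℂ) (t : G)
    (ht : t ∈ TT M D θ) : t ^ (cz D).relIndex (TT M D θ) ∈ cz D := by
  have hN : ((cz D).subgroupOf (TT M D θ)).Normal := by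
    constructor
    intro n hn g
    rw [Subgroup.mem_subgroupOf] at hn ⊢
    exact cz_conj (show (g : G) ∈ nz D from g.2.1) hn
  exact Subgroup.pow_index_mem ((cz D).subgroupOf (TT M D θ)) (⟨t, ht⟩ : TT M D θ)

/-- The congruence modulo `p ^ c`, general form. -/
def DVK_stmt : Prop :=
  ∀ (p : ℕ) (M : Ideal (integralClosure ℤ ℂ)), Setup p M → ∀ (G : Type) [Group G] [Finite G]
    (D : Subgroup G) (x : G) (θ χ : G → ℂ), Rt p M D x θ χ → ∀ c h : ℕ, 1 ≤ c →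
    (∀ ψ ∈ Blk M χ (⊤ : Subgroup G), ∀ a : ℕ, Nat.card D = p ^ a → ∀ k : ℤ, Defect p ⊤ ψ k → (a : ℤ) ≤ k + h) →
    ∀ R : Subgroup G, IsOp p (⊤ : Subgroup G) R → R ≤ D →
    (∃ t ∈ TT M D θ, t ∈ cz R ∧ ∃ w ∈ D, (w⁻¹ * t * w * t⁻¹) ^ p ^ (c + h - 1) ≠ 1) →
    ∃ m : ℤ, ∑ᶠ C ∈ {C : Finset (Subgroup G) | NCh p ⊤ R C},
      (-1 : ℂ) ^ (C.card + 1) * ((Nat.card (nrm C) : ℂ) * LL p M χ (nrm C)) =
        (p : ℂ) ^ c * (Nat.card G : ℂ) * m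

theorem DVK (hLOA : LOA_stmt) (hKG1 : KG1_stmt) (hKCH : KCH_stmt) (hKLE : KLE_stmt) (hKIN : KIN_stmt)
    (hKBL : KBL_stmt) (hKDG : DVK_dg_stmt) (hKDV : DVK_dv_stmt) (hKUN : KUN_stmt) (hBCL : BCL_stmt)
    (hIM : IM_stmt) (hLBN : LBN_stmt) : DVK_stmt := by
  intro p M hM G _ _ D x θ χ hRt c h hc hht R hR hRD hex
  obtain ⟨t, ht, htR, w, hw, hne⟩ := hex
  have lo := hLOA p M hM G D x θ χ hRt
  obtain ⟨hvD, hvR⟩ := DVK_comm hM.pr D R hRt.dfa.pgrp hRt.com hRD t ht.1 htR _ lo.bet (DVK_idx M D θ t ht) w hw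
  have hn : R.Normal := by
    constructor
    intro r hr g
    have h1 : g ∈ Subgroup.normalizer (R : Set G) := hR.1.2.2 (Subgroup.mem_top g)
    exact (Subgroup.mem_normalizer_iff.1 h1 r).1 hr
  have hQ : Qn p R (QuotientGroup.mk' R) :=
    { pg := hR.1.2.1
      com := fun a ha b hb => hRt.com a (hRD ha) b (hRD hb)
      sur := QuotientGroup.mk'_surjective R
      ker := fun g => by
        rw [QuotientGroup.mk'_apply, QuotientGroup.eq_one_iff] }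
  obtain ⟨m, hm⟩ := DVK_gen hKG1 hKCH hKLE hKIN hKBL hKDG hKDV hKUN hBCL hIM p M hM G (G ⧸ R) D x θ χ hRt c h hc hht R
    hR hRD _ hvD hvR hne (QuotientGroup.mk' R) hQ
  refine ⟨m, ?_⟩
  have hfin : ({C : Finset (Subgroup G) | NCh p ⊤ R C}).Finite := Set.toFinite _
  have h1 : ∑ᶠ C ∈ {C : Finset (Subgroup G) | NCh p ⊤ R C},
      (-1 : ℂ) ^ (C.card + 1) * ((Nat.card (nrm C) : ℂ) * LL p M χ (nrm C)) =
      ((∑ᶠ C ∈ {C : Finset (Subgroup G) | NCh p ⊤ R C},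
      (-1) ^ (C.card + 1) * ((Nat.card (nrm C) : ℤ) * (lb p M χ (nrm C) : ℤ)) : ℤ) : ℂ) := by
    rw [finsum_mem_eq_finite_toFinset_sum _ hfin, finsum_mem_eq_finite_toFinset_sum _ hfin]
    push_cast
    refine Finset.sum_congr rfl fun C _ => ?_
    rw [lb_eq_LL hLBN p M hM G (nrm C) χ]
  rw [h1, hm]
  push_cast
  ring

end Pool.Agent.LE
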