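import Pool.Agent.helper58.LE.AllG
import Pool.Agent.helper58.LE.DVK
import Pool.Agent.helper70.LE.Defs

/-!
# MP_baa4d7_al, project LE: the congruence modulo `p ^ c`, assembled (no hypotheses)

`gDVK : DVK_stmt` (general form), `gDVH` (for the abstract induction of `GenDefs`), `lDVL : DVL_stmt` (interface of helper70).
-/

set_option autoImplicit false

namespace Pool.Agent.LE.AllG

open Pool.Agent Pool.Agent.FI Pool.Agent.FI3 Pool.Agent.FI4 Pool.Agent.FI4I Pool.Agent.FI4E Pool.Agent.LE Pool.Agent.GR Pool.Agent.helper58.DC Pool.Agent.DI Pool.Agent.OB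

theorem gDVKdg : DVK_dg_stmt := LE.DVK_dg AllA.dDEX AllA.dCLS AllA.dTPR Pool.Agent.OB.All.uDG2 AllK.kKUP AllK.kKBL AllK.kKIN AllK.kKG1
  Pool.Agent.DR.All.rCFA AllC.cFOV AllB.dCON AllK.kKHT
theorem gDVKdv : DVK_dv_stmt := LE.DVK_dv AllK.kKRG AllK.kJT0 AllK.kLBN
theorem gDVK : DVK_stmt := LE.DVK AllP4.pLOA AllK.kKG1 AllK.kKCH AllK.kKLE AllK.kKIN AllK.kKBL gDVKdg gDVKdv AllK.kKUN GR.All.dBCL GR.All.dIM
  AllK.kLBN

theorem gDVH (p : ℕ) (M : Ideal (integralClosure ℤ ℂ)) (hM : Setup p M) (H : HP) (c h : ℕ) (hc : 1 ≤ c)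
    (hw : ∀ (G : Type) [Group G] [Finite G] (D T : Subgroup G), H G D T → ∀ t ∈ T, t ∉ cz D →
      ∃ w ∈ D, (w⁻¹ * t * w * t⁻¹) ^ p ^ (c + h - 1) ≠ 1)
    (hh : ∀ (G : Type) [Group G] [Finite G] (D : Subgroup G) (x : G) (θ χ : G → ℂ), Rt p M D x θ χ → H G D (TT M D θ) →
      ∀ ψ ∈ Blk M χ (⊤ : Subgroup G), ∀ a : ℕ, Nat.card D = p ^ a → ∀ k : ℤ, Defect p ⊤ ψ k → (a : ℤ) ≤ k + h) :
    DVH p M H (p ^ c) := by
  intro G _ _ D x θ χ hR hH R hRo hRD hRP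
  unfold RP at hRP
  push Not at hRP
  obtain ⟨t, ht, htR, htD⟩ := hRP
  obtain ⟨m, hm⟩ := gDVK p M hM G D x θ χ hR c h hc (hh G D x θ χ hR hH) R hRo hRD
    ⟨t, ht, htR, hw G D (TT M D θ) hH t ht htD⟩
  refine ⟨m, ?_⟩
  rw [hm]
  push_cast
  ring

theorem lDVL : DVL_stmt := by
  intro p M hM G _ _ D x θ χ hR n c h hH hh R hRo hRD hRP
  unfold RP at hRP
  push Not at hRP
  obtain ⟨t, ht, htR, htD⟩ := hRP
  exact gDVK p M hM G D x θ χ hR c h hH.pos hh R hRo hRD ⟨t, ht, htR, hH.wit t ht htD⟩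

end Pool.Agent.LE.AllG
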