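import Pool.Agent.helper70.LE.Defs3
import Pool.Agent.helper70.LE.Defs
import Pool.Agent.helper58.LE.HHE
import Pool.Agent.helper58.LE.AllD

/-!
# MP_baa4d7_al, project LE: part 2 (all groups) from NIL, BDE, DVZ
-/

set_option autoImplicit false

namespace Pool.Agent.LE

open Pool.Agent.helper58.DC Pool.Agent.DI Pool.Agent.GR Pool.Agent.OB Pool.Agent.DR Pool.Agent.FI Pool.Agent.FI3 Pool.Agent.FI4 Pool.Agent.LE.AllG

/-- The divisibility by `p ^ c * |G|` under the commutator hypothesis, from DVZ. -/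
theorem P2L_dvh (hDVZ : DVZ_stmt) (p : ℕ) (M : Ideal (integralClosure ℤ ℂ)) (hM : Setup p M) (hp2 : p ≠ 2) (H : HP) (c : ℕ) (hc : 1 ≤ c)
    (hw : ∀ (G : Type) [Group G] [Finite G] (D T : Subgroup G), H G D T → HWE p c G D T) : DVH p M H (p ^ c) := by
  intro G _ _ D x θ χ hR hH R hRo hRD hRP
  unfold RP at hRP
  push Not at hRP
  obtain ⟨t, ht, htR, htD⟩ := hRP
  have lo := AllP4.pLOA p M hM G D x θ χ hR
  obtain ⟨w, hwD, hne⟩ := hw G D (TT M D θ) hH t ht htD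
  obtain ⟨hvD, hvR⟩ := DVK_comm hM.pr D R hR.dfa.pgrp hR.com hRD t ht.1 htR _ lo.bet (DVK_idx M D θ t ht) w hwD
  obtain ⟨m, hm⟩ := hDVZ p M hM hp2 G D x θ χ hR c hc R hRo hRD _ hvD (fun h => hne (hvR _ h))
  refine ⟨m, ?_⟩
  rw [hm]
  push_cast
  ring

theorem P2L (hNIL : NIL_stmt) (hBDE : BDE_stmt) (hDVZ : DVZ_stmt) : P2L_stmt := by
  intro p M hM hp2 c h hc
  have hHer : Her p (HAnd (HLE p c h) (HWE p c)) := (HHE p hM.pr c h).2.2.2.1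
  refine gMNG p M hM _ hHer (p ^ c) ?_ ?_ (P2L_dvh hDVZ p M hM hp2 _ c hc fun G _ _ D T hH => hH.2)
  · intro G _ _ D x θ χ hR _ R hRD hRn hRP
    exact hNIL p M hM hp2 G D x θ χ hR R hRD hRn hRP
  · intro G _ _ D x θ χ hR hH
    exact hBDE p M hM hp2 c h G D x θ χ hR hH.1

/-- The consequences of part 2 in one statement. -/
theorem P2L_all (hNIL : NIL_stmt) (hBDE : BDE_stmt) (hDVZ : DVZ_stmt) (hHZH : HZH_stmt) (p : ℕ) (M : Ideal (integralClosure ℤ ℂ))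
    (hM : Setup p M) (hp2 : p ≠ 2) (c h : ℕ) (hc : 1 ≤ c) (G : Type) [Group G] [Finite G] (D : Subgroup G) (x : G) (θ χ : G → ℂ)
    (hR : Rt p M D x θ χ) (hLE : HLE p c h G D (TT M D θ)) (hWE : HWE p c G D (TT M D θ)) :
    LL p M χ ⊤ = LL p M χ (nz D) ∧ (Blk M χ (⊤ : Subgroup G)).ncard = (Blk M χ (nz D)).ncard ∧
    (D ≠ ⊥ → IsOp p (⊤ : Subgroup G) ⊥ → ∑ᶠ d : ℤ, altSum (trivE G) p M χ d ⊤ = 0 ∧
      (HZE p G D (TT M D θ) → ∀ d : ℤ, altSum (trivE G) p M χ d ⊤ = 0)) := by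
  have hmn := P2L hNIL hBDE hDVZ p M hM hp2 c h hc
  have hHer : Her p (HAnd (HLE p c h) (HWE p c)) := (HHE p hM.pr c h).2.2.2.1
  have hHer2 : Her p (HAnd (HAnd (HLE p c h) (HWE p c)) (HZE p)) := (HHE p hM.pr c h).2.2.2.2.2
  refine ⟨hmn G D x θ χ hR ⟨hLE, hWE⟩, gAMG p M hM _ hHer hmn G D x θ χ hR ⟨hLE, hWE⟩, fun hD hO => ⟨?_, fun hZ => ?_⟩⟩
  · exact gFSG p M hM _ hHer hmn G D x θ χ hR ⟨hLE, hWE⟩ hD hO
  · refine gFDG p M hM _ hHer2 ?_ ?_ G D x θ χ hR ⟨⟨hLE, hWE⟩, hZ⟩ hD hO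
    · intro G' _ _ D' x' θ' χ' hR' hH'
      exact hmn G' D' x' θ' χ' hR' hH'.1
    · intro G' _ _ D' x' θ' χ' hR' hH'
      exact hHZH p M hM hp2 G' D' x' θ' χ' hR' hH'.2

end Pool.Agent.LE
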