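import Pool.Agent.helper70.LE.SpecN

/-!
# MP_baa4d7_al, project LE, row EX2
-/

set_option autoImplicit false

namespace Pool.Agent.LE

open Pool.Agent.helper58.DC Pool.Agent.DI Pool.Agent.GR Pool.Agent.OB Pool.Agent.DR Pool.Agent.FI Pool.Agent.FI3 Pool.Agent.FI4

/-- the idempotent of a union of blocks as a combination of the block idempotents -/
theorem EX2_dec {G : Type} [Group G] [Finite G] (M : Ideal (integralClosure ℤ ℂ)) (K : Subgroup G) (S : Set (G → ℂ))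
    (hS : S ⊆ IrrOn K) (hcl : ∀ η ∈ S, ∀ ψ ∈ Bl M K η, ψ ∈ S) (t : G) :
    eS K S t = ∑ᶠ η ∈ S, ((Bl M K η).ncard : ℂ)⁻¹ * eBl M K η t := by
  classical
  have hfin : S.Finite := (IrrOn_fin K).subset hS
  obtain ⟨F, hF⟩ : ∃ F : Finset (G → ℂ), F = hfin.toFinset := ⟨_, rfl⟩
  have hmF : ∀ ψ, ψ ∈ F ↔ ψ ∈ S := fun ψ => by rw [hF, Set.Finite.mem_toFinset]
  have hSF : S = (F : Set (G → ℂ)) := by
    ext ψ
    rw [Finset.mem_coe]
    exact (hmF ψ).symm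
  have hBl : ∀ η ∈ F, Bl M K η = ((F.filter fun ψ => SB M K ψ η : Finset (G → ℂ)) : Set (G → ℂ)) := by
    intro η hη
    ext ψ
    rw [Finset.mem_coe, Finset.mem_filter]
    exact ⟨fun h => ⟨(hmF ψ).2 (hcl η ((hmF η).1 hη) ψ h), h.2⟩, fun h => ⟨hS ((hmF ψ).1 h.1), h.2⟩⟩
  have hn : ∀ η ∈ F, (Bl M K η).ncard = (F.filter fun ψ => SB M K ψ η).card := by
    intro η hη
    rw [hBl η hη, Set.ncard_coe_finset]
  have hn2 : ∀ ψ ∈ F, ∀ η ∈ F, SB M K ψ η → (Bl M K η).ncard = (Bl M K ψ).ncard := by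
    intro ψ _ η _ h
    have h1 : Bl M K η = Bl M K ψ := by
      ext φ
      exact ⟨fun h2 => ⟨h2.1, h2.2.trans h.symm⟩, fun h2 => ⟨h2.1, h2.2.trans h⟩⟩
    rw [h1]
  have h1 : ∑ᶠ η ∈ S, ((Bl M K η).ncard : ℂ)⁻¹ * eBl M K η t =
      ∑ η ∈ F, ((Bl M K η).ncard : ℂ)⁻¹ * ((∑ ψ ∈ F.filter (fun ψ => SB M K ψ η), ψ 1 * ψ t⁻¹) / Nat.card K) := by
    rw [hSF, finsum_mem_coe_finset]
    refine Finset.sum_congr rfl fun η hη => ?_
    have h2 : eBl M K η t = (∑ᶠ ψ ∈ Bl M K η, ψ 1 * ψ t⁻¹) / Nat.card K := rfl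
    have h3 : ∑ᶠ ψ ∈ Bl M K η, ψ 1 * ψ t⁻¹ = ∑ ψ ∈ F.filter (fun ψ => SB M K ψ η), ψ 1 * ψ t⁻¹ := by
      rw [hBl η hη, finsum_mem_coe_finset]
    rw [h2, h3]
  rw [h1]
  have h4 : eS K S t = (∑ ψ ∈ F, ψ 1 * ψ t⁻¹) / Nat.card K := by
    unfold eS
    rw [hSF, finsum_mem_coe_finset]
  rw [h4]
  have h5 : ∀ η ∈ F, ((Bl M K η).ncard : ℂ)⁻¹ * ((∑ ψ ∈ F.filter (fun ψ => SB M K ψ η), ψ 1 * ψ t⁻¹) / Nat.card K) =
      ∑ ψ ∈ F, if SB M K ψ η then ((Bl M K ψ).ncard : ℂ)⁻¹ * (ψ 1 * ψ t⁻¹) / Nat.card K else 0 := by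
    intro η hη
    rw [Finset.sum_filter, mul_div_assoc', Finset.mul_sum, Finset.sum_div]
    refine Finset.sum_congr rfl fun ψ hψ => ?_
    by_cases hh : SB M K ψ η
    · rw [if_pos hh, if_pos hh, hn2 ψ hψ η hη hh]
    · rw [if_neg hh, if_neg hh, mul_zero, zero_div]
  rw [Finset.sum_congr rfl h5, Finset.sum_comm, Finset.sum_div]
  refine Finset.sum_congr rfl fun ψ hψ => ?_
  have h6 : ∑ η ∈ F, (if SB M K ψ η then ((Bl M K ψ).ncard : ℂ)⁻¹ * (ψ 1 * ψ t⁻¹) / Nat.card K else 0) =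
      ((F.filter fun η => SB M K ψ η).card : ℂ) * (((Bl M K ψ).ncard : ℂ)⁻¹ * (ψ 1 * ψ t⁻¹) / Nat.card K) := by
    rw [← Finset.sum_filter, Finset.sum_const, nsmul_eq_mul]
  have h7 : (F.filter fun η => SB M K ψ η).card = (Bl M K ψ).ncard := by
    rw [hn ψ hψ]
    congr 1
    refine Finset.filter_congr fun η _ => ⟨fun h => h.symm, fun h => h.symm⟩
  have h8 : ((Bl M K ψ).ncard : ℂ) ≠ 0 := by
    have h9 : (Bl M K ψ).ncard ≠ 0 := by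
      rw [hn ψ hψ]
      have h10 : ψ ∈ F.filter fun ψ' => SB M K ψ' ψ := Finset.mem_filter.2 ⟨hψ, SB.refl K ψ⟩
      exact (Finset.card_pos.2 ⟨ψ, h10⟩).ne'
    exact_mod_cast h9
  rw [h6, h7]
  field_simp

theorem EX2 (hEQP : EQP_stmt) (hRCN : RCN_stmt) (hSTA : STA_stmt) (hNS1 : NS1_stmt) (hHIB : HIB_stmt) (hCFX : CFX_stmt) (hSYL : SYL_stmt) (hBLE : BLE_stmt) (hFEQ : FEQ_stmt) : EX2_stmt := by
  classical
  intro p M hS G _ _ D x θ χ lo Q hQD hRP a ha haQ hDQ w hwL hne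
  have hp : Fact p.Prime := ⟨hS.1⟩
  obtain ⟨syl1, syl2, -, -, -, -, -, -, -⟩ := hSYL p G
  have hcom := lo.rt.com
  obtain ⟨L, hL⟩ : ∃ L : Subgroup G, L = cz Q := ⟨_, rfl⟩
  have hDp : IsPGroup p D := lo.rt.dfa.pgrp
  have hDL : D ≤ L := by
    intro d hd
    rw [hL, Subgroup.mem_centralizer_iff]
    intro q hq
    exact hcom q (hQD hq) d hd
  -- part one
  have part1 : Cz D a ≤ Cz (cz Q) w := by
    intro u hu
    obtain ⟨huD, hua⟩ := mem_Cz.1 hu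
    rw [mem_Cz]
    refine ⟨hL ▸ hDL huD, ?_⟩
    have h1 : u * (a⁻¹ * w) = (a⁻¹ * w) * u := (Subgroup.mem_centralizer_iff.1 hwL) u (hDQ hu)
    have h2 : a * u = u * a := hua
    calc w * u = a * ((a⁻¹ * w) * u) := by group
      _ = a * (u * (a⁻¹ * w)) := by rw [h1]
      _ = (a * u) * (a⁻¹ * w) := by group
      _ = (u * a) * (a⁻¹ * w) := by rw [h2]
      _ = u * w := by group
  have hD₁p : IsPGroup p (Cz D a) := hDp.to_le inf_le_left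
  have le1 : Nat.card (Cz D a) ≤ pp p (Cz (cz Q) w) := (syl1 _ _ hD₁p part1).1
  refine le_antisymm ?_ le1
  -- part two
  obtain ⟨P₀, -, hP₀w, hP₀p, hP₀c⟩ := syl2 ⊥ (Cz (cz Q) w) IsPGroup.of_bot bot_le
  rw [← hP₀c]
  obtain ⟨e, he⟩ : ∃ e : G → ℂ, e = eBl M (cz Q) θ := ⟨_, rfl⟩
  rw [← he] at hne
  obtain ⟨hHI, hHI2, hHI3⟩ := hHIB p M hS G (cz Q) θ
  rw [← he] at hHI
  have hP₀L : P₀ ≤ cz Q := fun r hr => (mem_Cz.1 (hP₀w hr)).1
  have hP₀c' : ∀ r ∈ P₀, w * r = r * w := fun r hr => (mem_Cz.1 (hP₀w hr)).2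
  have hanz : a ∈ nz (cz Q) := by
    rw [Subgroup.mem_normalizer_iff]
    intro n
    constructor
    · exact fun h => cz_conj haQ h
    · intro h
      have h1 := cz_conj ((nz Q).inv_mem haQ) h
      have h2 : a⁻¹ * (a * n * a⁻¹) * a⁻¹⁻¹ = n := by group
      rwa [h2] at h1
  have hnzL : ∀ l ∈ cz Q, l ∈ nz (cz Q) := fun l hl => Subgroup.le_normalizer hl
  have hwnz : w ∈ nz (cz Q) := by
    have h1 : w = a * (a⁻¹ * w) := by group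
    rw [h1]
    exact (nz (cz Q)).mul_mem hanz (hnzL _ hwL)
  obtain ⟨κ, hκ⟩ : ∃ κ : Set G, κ = {k : G | ∃ l ∈ cz Q, l * w * l⁻¹ = k} := ⟨_, rfl⟩
  rw [← hκ] at hne
  have hκc : ∀ l ∈ cz Q, ∀ k, l * k * l⁻¹ ∈ κ ↔ k ∈ κ := by
    intro l hl k
    rw [hκ]
    constructor
    · rintro ⟨m, hm, h⟩
      refine ⟨l⁻¹ * m, (cz Q).mul_mem ((cz Q).inv_mem hl) hm, ?_⟩
      calc (l⁻¹ * m) * w * (l⁻¹ * m)⁻¹ = l⁻¹ * (m * w * m⁻¹) * l := by group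
        _ = l⁻¹ * (l * k * l⁻¹) * l := by rw [h]
        _ = k := by group
    · rintro ⟨m, hm, rfl⟩
      exact ⟨l * m, (cz Q).mul_mem hl hm, by group⟩
  have hκL : ∀ k ∈ κ, w * k⁻¹ ∈ cz Q := by
    intro k hk
    rw [hκ] at hk
    obtain ⟨l, hl, rfl⟩ := hk
    have h1 : w * (l * w * l⁻¹)⁻¹ = (w * l * w⁻¹) * l⁻¹ := by group
    rw [h1]
    exact (cz Q).mul_mem ((Subgroup.mem_normalizer_iff.1 hwnz l).1 hl) ((cz Q).inv_mem hl)
  obtain ⟨f, hf⟩ : ∃ f : G → ℂ, f = fun k => if k ∈ κ then e (w * k⁻¹) else 0 := ⟨_, rfl⟩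
  have hfi : ∀ k, IntAt M (f k) := by
    intro k
    rw [hf]
    show IntAt M (if k ∈ κ then e (w * k⁻¹) else 0)
    split_ifs
    · exact hHI.idm.int _
    · exact (hHI.idm.int 1 |>.sub hS (hHI.idm.int 1)) |> fun h => by rwa [sub_self] at h
  have hfr : ∀ r ∈ P₀, ∀ k, f (r * k * r⁻¹) = f k := by
    intro r hr k
    have hrL := hP₀L hr
    rw [hf]
    show (if r * k * r⁻¹ ∈ κ then e (w * (r * k * r⁻¹)⁻¹) else 0) = if k ∈ κ then e (w * k⁻¹) else 0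
    have h1 : e (w * (r * k * r⁻¹)⁻¹) = e (w * k⁻¹) := by
      have h2 : w * (r * k * r⁻¹)⁻¹ = r * (w * k⁻¹) * r⁻¹ := by
        calc w * (r * k * r⁻¹)⁻¹ = (w * r) * k⁻¹ * r⁻¹ := by group
          _ = (r * w) * k⁻¹ * r⁻¹ := by rw [hP₀c' r hr]
          _ = r * (w * k⁻¹) * r⁻¹ := by group
      rw [h2]
      exact hHI.cls r hrL _
    by_cases hk : k ∈ κ
    · rw [if_pos hk, if_pos ((hκc r hrL k).2 hk), h1]
    · rw [if_neg hk, if_neg (fun h => hk ((hκc r hrL k).1 h))]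
  have hcfx := hCFX p M hS G P₀ hP₀p f hfi hfr
  have hsum1 : ∑ᶠ k, f k = ∑ᶠ k ∈ κ, e (w * k⁻¹) := by
    rw [finsum_mem_def]
    refine finsum_congr fun k => ?_
    rw [hf, Set.indicator_apply]
  obtain ⟨κ', hκ'⟩ : ∃ κ' : Set G, κ' = {k : G | k ∈ κ ∧ k ∈ cz P₀} := ⟨_, rfl⟩
  have hsum2 : ∀ g : G → ℂ, ∑ᶠ k ∈ (cz P₀ : Set G), (if k ∈ κ then g (w * k⁻¹) else 0) = ∑ᶠ k ∈ κ', g (w * k⁻¹) := by
    intro g
    rw [finsum_mem_def, finsum_mem_def]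
    refine finsum_congr fun k => ?_
    rw [Set.indicator_apply, Set.indicator_apply]
    by_cases h1 : k ∈ (cz P₀ : Set G)
    · rw [if_pos h1]
      by_cases h2 : k ∈ κ
      · rw [if_pos h2, if_pos]
        rw [hκ']
        exact ⟨h2, h1⟩
      · rw [if_neg h2, if_neg]
        rw [hκ']
        exact fun h => h2 h.1
    · rw [if_neg h1, if_neg]
      rw [hκ']
      exact fun h => h1 h.2
  have hne2 : ¬ InM M (∑ᶠ k ∈ κ', e (w * k⁻¹)) := by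
    intro h
    rw [hsum1] at hcfx
    have h1 : ∑ᶠ k ∈ (cz P₀ : Set G), f k = ∑ᶠ k ∈ κ', e (w * k⁻¹) := by
      rw [hf]
      exact hsum2 e
    rw [h1] at hcfx
    have h2 := hcfx.add hS h
    rw [sub_add_cancel] at h2
    exact hne h2
  obtain ⟨K, hK⟩ : ∃ K : Subgroup G, K = cz Q ⊓ cz P₀ := ⟨_, rfl⟩
  have hκK : ∀ k ∈ κ', w * k⁻¹ ∈ K := by
    intro k hk
    rw [hκ'] at hk
    rw [hK]
    refine ⟨hκL k hk.1, (cz P₀).mul_mem ?_ ((cz P₀).inv_mem hk.2)⟩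
    rw [Subgroup.mem_centralizer_iff]
    intro r hr
    exact (hP₀c' r hr).symm
  have heqp := hEQP p M hS G (cz Q) P₀ hP₀p hP₀L θ
  rw [← hK, ← he] at heqp
  have hne3 : ∑ᶠ k ∈ κ', eS K (Bq M (cz Q) K θ) (w * k⁻¹) ≠ 0 := by
    intro h
    apply hne2
    have h1 : InM M (∑ᶠ k ∈ κ', e (w * k⁻¹) - ∑ᶠ k ∈ κ', eS K (Bq M (cz Q) K θ) (w * k⁻¹)) := by
      rw [← finsum_mem_sub_distrib (fun k => e (w * k⁻¹)) (fun k => eS K (Bq M (cz Q) K θ) (w * k⁻¹)) (Set.toFinite _)]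
      exact InM.finsum_mem hS fun k hk => heqp _ (hκK k hk)
    rwa [h, sub_zero] at h1
  have hKL : K ≤ cz Q := by
    rw [hK]
    exact inf_le_left
  -- some block
  have hblock : ∃ η ∈ IrrOn K, SB M (cz Q) η θ ∧ ∑ᶠ k ∈ κ', eBl M K η (w * k⁻¹) ≠ 0 := by
    by_contra hcon
    push Not at hcon
    apply hne3
    have h1 : ∀ k, eS K (Bq M (cz Q) K θ) (w * k⁻¹) =
        ∑ᶠ η ∈ Bq M (cz Q) K θ, ((Bl M K η).ncard : ℂ)⁻¹ * eBl M K η (w * k⁻¹) := by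
      intro k
      refine EX2_dec M K _ (fun η hη => hη.1) ?_ _
      intro η hη ψ hψ
      exact ⟨hψ.1, (TRNb hKL (fun x hx => IrrOn_zero hψ.1 hx) (fun x hx => IrrOn_zero hη.1 hx) hψ.2).trans hη.2⟩
    have hfB : (Bq M (cz Q) K θ).Finite := (IrrOn_fin K).subset fun η hη => hη.1
    have h2 : ∑ᶠ k ∈ κ', eS K (Bq M (cz Q) K θ) (w * k⁻¹) =
        ∑ᶠ η ∈ Bq M (cz Q) K θ, ∑ᶠ k ∈ κ', ((Bl M K η).ncard : ℂ)⁻¹ * eBl M K η (w * k⁻¹) := by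
      rw [finsum_mem_comm _ hfB (Set.toFinite κ')]
      exact finsum_mem_congr rfl fun k _ => h1 k
    rw [h2]
    refine (finsum_mem_congr rfl fun η hη => ?_).trans (finsum_mem_zero _)
    rw [← mul_finsum_mem, hcon η hη.1 hη.2, mul_zero]
  obtain ⟨η, hη1, hη2, hη3⟩ := hblock
  have hwP : w ∈ cz P₀ := by
    rw [Subgroup.mem_centralizer_iff]
    intro r hr
    exact (hP₀c' r hr).symm
  have hwK : w ∈ nz K := by
    rw [Subgroup.mem_normalizer_iff]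
    intro n
    rw [hK]
    have h1 := Subgroup.mem_normalizer_iff.1 hwnz n
    have h2 : n ∈ cz P₀ ↔ w * n * w⁻¹ ∈ cz P₀ := by
      constructor
      · exact fun h => (cz P₀).mul_mem ((cz P₀).mul_mem hwP h) ((cz P₀).inv_mem hwP)
      · intro h
        have h3 := (cz P₀).mul_mem ((cz P₀).mul_mem ((cz P₀).inv_mem hwP) h) hwP
        have h4 : w⁻¹ * (w * n * w⁻¹) * w = n := by group
        rwa [h4] at h3
    rw [Subgroup.mem_inf, Subgroup.mem_inf, h1, h2]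
  obtain ⟨kHI, -, kHI3⟩ := hHIB p M hS G K η
  obtain ⟨g, hg⟩ : ∃ g : G → ℂ, g = eBl M K η := ⟨_, rfl⟩
  rw [← hg] at hη3 kHI kHI3
  have hψ : ∃ ψ ∈ Bl M K η, cjF w ψ ∈ Bl M K η := by
    by_contra hcon
    have h1 := (kHI3 w hwK hcon).1
    have h2 := hNS1 G K g kHI.idm.sup kHI.idm.idem kHI.cls w hwK h1
    apply hη3
    have h3 : ∀ t ∈ (K : Set G), ∑ᶠ k ∈ κ', g (w * t * k⁻¹ * t⁻¹) = ∑ᶠ k ∈ κ', g (w * k⁻¹) := by
      intro t ht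
      have htK : t ∈ K := ht
      have htL : t ∈ cz Q := hKL htK
      have htP : t ∈ cz P₀ := by
        rw [hK] at htK
        exact htK.2
      refine finsum_mem_eq_of_bijOn (fun k => t * k * t⁻¹) ⟨?_, ?_, ?_⟩ ?_
      · intro k hk
        rw [hκ'] at hk ⊢
        exact ⟨(hκc t htL k).2 hk.1, (cz P₀).mul_mem ((cz P₀).mul_mem htP hk.2) ((cz P₀).inv_mem htP)⟩
      · intro k _ k' _ h
        have h4 : t * k * t⁻¹ = t * k' * t⁻¹ := h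
        exact mul_left_cancel (mul_right_cancel h4)
      · intro k hk
        refine ⟨t⁻¹ * k * t, ?_, ?_⟩
        · rw [hκ'] at hk ⊢
          have h4 := (hκc t⁻¹ ((cz Q).inv_mem htL) k).2 hk.1
          rw [inv_inv] at h4
          exact ⟨h4, (cz P₀).mul_mem ((cz P₀).mul_mem ((cz P₀).inv_mem htP) hk.2) htP⟩
        · show t * (t⁻¹ * k * t) * t⁻¹ = k
          group
      · intro k _
        show g (w * t * k⁻¹ * t⁻¹) = g (w * (t * k * t⁻¹)⁻¹)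
        congr 1
        group
    have h4 : ∑ᶠ t ∈ (K : Set G), ∑ᶠ k ∈ κ', g (w * t * k⁻¹ * t⁻¹) = 0 := by
      rw [finsum_mem_comm _ (Set.toFinite _) (Set.toFinite κ')]
      refine (finsum_mem_congr rfl fun k _ => ?_).trans (finsum_mem_zero _)
      exact h2 k
    rw [finsum_mem_congr rfl h3] at h4
    have h5 : ∑ᶠ t ∈ (K : Set G), (∑ᶠ k ∈ κ', g (w * k⁻¹)) = (Nat.card K : ℂ) * ∑ᶠ k ∈ κ', g (w * k⁻¹) := by
      rw [finsum_mem_eq_finite_toFinset_sum _ (Set.toFinite _), Finset.sum_const, nsmul_eq_mul]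
      congr 2
      rw [← Set.ncard_eq_toFinset_card]
      rfl
    rw [h5] at h4
    have h6 : (Nat.card K : ℂ) ≠ 0 := by exact_mod_cast Nat.card_pos.ne'
    exact (mul_eq_zero.1 h4).resolve_left h6
  obtain ⟨ψ, hψ1, hψ2⟩ := hψ
  have hη1' : η ∈ IrrOn (cz Q ⊓ cz P₀) := by
    rw [← hK]
    exact hη1
  obtain ⟨l, hlL, hlP, hlS⟩ := hRCN p M hS G D x θ χ lo Q hQD P₀ hP₀p hP₀L η hη1' hη2
  obtain ⟨P', hP'⟩ : ∃ P' : Subgroup G, P' = cjS l P₀ := ⟨_, rfl⟩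
  rw [← hP'] at hlP hlS
  have hK' : cjS l K = cz Q ⊓ cz P' := by
    ext n
    rw [mem_cjS, hK, Subgroup.mem_inf, Subgroup.mem_inf]
    have h1 : l⁻¹ * n * l ∈ cz Q ↔ n ∈ cz Q := by
      constructor
      · intro h
        have h3 := (cz Q).mul_mem ((cz Q).mul_mem hlL h) ((cz Q).inv_mem hlL)
        have h4 : l * (l⁻¹ * n * l) * l⁻¹ = n := by group
        rwa [h4] at h3
      · exact fun h => (cz Q).mul_mem ((cz Q).mul_mem ((cz Q).inv_mem hlL) h) hlL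
    have h2 : l⁻¹ * n * l ∈ cz P₀ ↔ n ∈ cz P' := by
      have h3 : cz P' = cjS l (cz P₀) := by
        rw [hP']
        exact (hFEQ G M l l P₀ P₀ P₀ θ θ θ).2.1.1
      rw [h3, mem_cjS]
    rw [h1, h2]
  have hP'c : Nat.card P' = Nat.card P₀ := by
    rw [hP']
    exact (hFEQ G M l l P₀ P₀ P₀ θ θ θ).2.1.2.2.2.2.2
  have htr : ∀ φ : G → ℂ, φ ∈ Bl M K η → cjF l φ ∈ Bl M (cz Q ⊓ cz P') θ := by
    intro φ hφ
    have h1 := (hFEQ G M l l P₀ P₀ K η φ θ).2.2.2.2.2.2.1.1 hφ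
    rw [hK'] at h1
    exact ⟨h1.1, h1.2.trans hlS.symm⟩
  have hcj : cjF (l * w * l⁻¹) (cjF l ψ) = cjF l (cjF w ψ) := by
    funext y
    rw [cjF_apply, cjF_apply, cjF_apply, cjF_apply]
    congr 1
    group
  have hsta := hSTA p M hS G D x θ χ lo Q hQD hRP a ha haQ P' hlP (l * w * l⁻¹) (by
      have h1 : a⁻¹ * (l * w * l⁻¹) = (a⁻¹ * l * a) * (a⁻¹ * w) * l⁻¹ := by group
      rw [h1]
      refine (cz Q).mul_mem ((cz Q).mul_mem ?_ hwL) ((cz Q).inv_mem hlL)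
      have h2 := cz_conj ((nz Q).inv_mem haQ) hlL
      rwa [inv_inv] at h2) (by
      intro u hu
      rw [hP', mem_cjS] at hu
      have h1 := hP₀c' _ hu
      calc l * w * l⁻¹ * u = l * (w * (l⁻¹ * u * l)) * l⁻¹ := by group
        _ = l * ((l⁻¹ * u * l) * w) * l⁻¹ := by rw [h1]
        _ = u * (l * w * l⁻¹) := by group) ⟨cjF l ψ, htr ψ hψ1, by
      rw [hcj]
      exact htr _ hψ2⟩
  rw [← hP'c]
  refine Nat.le_of_dvd Nat.card_pos (Subgroup.card_dvd_of_le ?_)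
  intro u hu
  exact mem_Cz.2 ⟨hlP hu, hsta u hu⟩

end Pool.Agent.LE
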