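import Pool.Agent.helper70.LE.SpecN

set_option autoImplicit false

namespace Pool.Agent.LE

open Pool.Agent.helper58.DC Pool.Agent.DI Pool.Agent.GR Pool.Agent.OB Pool.Agent.DR Pool.Agent.FI Pool.Agent.FI3 Pool.Agent.FI4

/-- sum over representatives -/
theorem MLC_sumL {G : Type} [Group G] [Finite G] (L K : Subgroup G) (hKL : K ≤ L) (W : Finset G)
    (hW1 : ∀ l ∈ W, l ∈ L) (hW2 : ∀ l ∈ L, ∃! w, w ∈ W ∧ w⁻¹ * l ∈ K) (φ : G → ℂ)
    (hφ : ∀ l ∈ L, ∀ k ∈ K, φ (l * k) = φ l) :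
    (Nat.card K : ℂ) * ∑ w ∈ W, φ w = ∑ᶠ l ∈ (L : Set G), φ l := by
  classical
  have := Fintype.ofFinite G
  choose! rep hrep using hW2
  have h1 : ∑ᶠ l ∈ (L : Set G), φ l = ∑ l ∈ Finset.univ.filter (fun l : G => l ∈ L), φ l := by
    rw [finsum_mem_eq_finite_toFinset_sum _ (Set.toFinite _)]
    refine Finset.sum_congr ?_ fun _ _ => rfl
    ext l
    rw [Set.Finite.mem_toFinset, Finset.mem_filter]
    exact ⟨fun h => ⟨Finset.mem_univ _, h⟩, fun h => h.2⟩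
  have h2 : ((Finset.univ.filter fun k : G => k ∈ K).card : ℂ) = Nat.card K := by
    rw [Nat.card_eq_fintype_card, Fintype.card_subtype]
  have h3 : ∑ x ∈ W ×ˢ (Finset.univ.filter fun k : G => k ∈ K), φ (x.1 * x.2) =
      ∑ l ∈ Finset.univ.filter (fun l : G => l ∈ L), φ l := by
    refine Finset.sum_nbij' (fun x => x.1 * x.2) (fun l => (rep l, (rep l)⁻¹ * l)) ?_ ?_ ?_ ?_ ?_
    · rintro ⟨w, k⟩ hx
      rw [Finset.mem_product, Finset.mem_filter] at hx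
      rw [Finset.mem_filter]
      exact ⟨Finset.mem_univ _, L.mul_mem (hW1 w hx.1) (hKL hx.2.2)⟩
    · intro l hl
      rw [Finset.mem_filter] at hl
      rw [Finset.mem_product, Finset.mem_filter]
      exact ⟨(hrep l hl.2).1.1, Finset.mem_univ _, (hrep l hl.2).1.2⟩
    · rintro ⟨w, k⟩ hx
      rw [Finset.mem_product, Finset.mem_filter] at hx
      have hl : w * k ∈ L := L.mul_mem (hW1 w hx.1) (hKL hx.2.2)
      have h4 : w = rep (w * k) := (hrep (w * k) hl).2 w ⟨hx.1, by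
        show w⁻¹ * (w * k) ∈ K
        rw [inv_mul_cancel_left]
        exact hx.2.2⟩
      show (rep (w * k), (rep (w * k))⁻¹ * (w * k)) = (w, k)
      rw [← h4, inv_mul_cancel_left]
    · intro l hl
      show rep l * ((rep l)⁻¹ * l) = l
      rw [mul_inv_cancel_left]
    · rintro ⟨w, k⟩ _
      rfl
  rw [h1, ← h3, Finset.sum_product, ← h2, Finset.mul_sum]
  refine Finset.sum_congr rfl fun w hw => ?_
  rw [Finset.sum_congr rfl (fun k hk => hφ w (hW1 w hw) k (Finset.mem_filter.1 hk).2), Finset.sum_const, nsmul_eq_mul]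

theorem MLC_orb (hORP : ORP_stmt) {p : ℕ} {M : Ideal (integralClosure ℤ ℂ)} (hS : Setup p M) {G : Type} [Group G] [Finite G]
    (L K P : Subgroup G) (hPL : P ≤ L) (hP : IsPGroup p P) (W : Finset G)
    (hW1 : ∀ l ∈ W, l ∈ L) (hW2 : ∀ l ∈ L, ∃! w, w ∈ W ∧ w⁻¹ * l ∈ K) (φ : G → ℂ)
    (hφ1 : ∀ l ∈ L, IntAt M (φ l)) (hφ2 : ∀ l ∈ L, ∀ k ∈ K, φ (l * k) = φ l) (hφ3 : ∀ r ∈ P, ∀ l ∈ L, φ (r * l) = φ l) :
    InM M (∑ w ∈ W, φ w - ∑ᶠ w ∈ {w : G | w ∈ W ∧ ∀ r ∈ P, w⁻¹ * r * w ∈ K}, φ w) := by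
  classical
  obtain ⟨ω, hω⟩ : ∃ ω : L ⧸ K.subgroupOf L → ℂ, ∀ l : L, ω (QuotientGroup.mk l) = φ l := by
    refine ⟨fun x => Quotient.liftOn' x (fun l : L => φ l) ?_, fun l => rfl⟩
    intro a b hab
    rw [QuotientGroup.leftRel_apply, Subgroup.mem_subgroupOf] at hab
    have h1 : (b : G) = (a : G) * ((a⁻¹ * b : L) : G) := by
      show (b : G) = (a : G) * ((a : G)⁻¹ * (b : G))
      group
    show φ a = φ b
    rw [h1, hφ2 a a.2 _ hab]
  have hPs : IsPGroup p (P.subgroupOf L) := hP.of_equiv (Subgroup.subgroupOfEquivOfLe hPL).symm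
  have key := hORP p M hS (P.subgroupOf L) hPs (L ⧸ K.subgroupOf L) ω (fun x => by
      obtain ⟨l, rfl⟩ := QuotientGroup.mk_surjective x
      rw [hω]
      exact hφ1 l l.2) (fun r x => by
      obtain ⟨l, rfl⟩ := QuotientGroup.mk_surjective x
      have h1 : r • (QuotientGroup.mk l : L ⧸ K.subgroupOf L) = QuotientGroup.mk ((r : L) * l) := rfl
      rw [h1, hω, hω]
      exact hφ3 _ (Subgroup.mem_subgroupOf.1 r.2) _ l.2)
  obtain ⟨q, hq⟩ : ∃ q : G → L ⧸ K.subgroupOf L, ∀ l : L, q l = QuotientGroup.mk l :=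
    ⟨fun g => if h : g ∈ L then QuotientGroup.mk ⟨g, h⟩ else QuotientGroup.mk 1, fun l => by
      simp only [l.2, dite_true]⟩
  have hinj : Set.InjOn q (W : Set G) := by
    intro w hw w' hw' hww
    have h1 := hq ⟨w, hW1 w hw⟩
    have h2 := hq ⟨w', hW1 w' hw'⟩
    change q w = _ at h1
    change q w' = _ at h2
    rw [h1, h2, QuotientGroup.eq, Subgroup.mem_subgroupOf] at hww
    obtain ⟨w0, -, h3⟩ := hW2 w' (hW1 w' hw')
    rw [h3 w ⟨hw, hww⟩, h3 w' ⟨hw', by rw [inv_mul_cancel]; exact K.one_mem⟩]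
  have hsurj : ∀ x : L ⧸ K.subgroupOf L, ∃ w ∈ W, ∃ h : w ∈ L, x = QuotientGroup.mk (⟨w, h⟩ : L) := by
    intro x
    obtain ⟨l, rfl⟩ := QuotientGroup.mk_surjective x
    obtain ⟨w, ⟨h1, h2⟩, -⟩ := hW2 l l.2
    refine ⟨w, h1, hW1 w h1, Eq.symm ?_⟩
    rw [QuotientGroup.eq, Subgroup.mem_subgroupOf]
    exact h2
  have e1 : ∑ w ∈ W, φ w = ∑ᶠ x, ω x := by
    rw [← finsum_mem_univ ω, ← finsum_mem_coe_finset φ W]
    refine finsum_mem_eq_of_bijOn q ⟨fun _ _ => Set.mem_univ _, hinj, ?_⟩ ?_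
    · intro x _
      obtain ⟨w, h1, h2, h3⟩ := hsurj x
      exact ⟨w, h1, by rw [h3]; exact hq ⟨w, h2⟩⟩
    · intro w hw
      have h1 := hq ⟨w, hW1 w hw⟩
      change q w = _ at h1
      rw [h1, hω]
  have e2 : ∑ᶠ w ∈ {w : G | w ∈ W ∧ ∀ r ∈ P, w⁻¹ * r * w ∈ K}, φ w =
      ∑ᶠ x ∈ MulAction.fixedPoints (P.subgroupOf L) (L ⧸ K.subgroupOf L), ω x := by
    have hfix : ∀ w : L, (QuotientGroup.mk w : L ⧸ K.subgroupOf L) ∈ MulAction.fixedPoints (P.subgroupOf L) (L ⧸ K.subgroupOf L) ↔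
        ∀ r ∈ P, (w : G)⁻¹ * r * (w : G) ∈ K := by
      intro w
      rw [MulAction.mem_fixedPoints]
      constructor
      · intro h r hr
        have h1 := h ⟨⟨r, hPL hr⟩, Subgroup.mem_subgroupOf.2 hr⟩
        have h2 : (QuotientGroup.mk ((⟨r, hPL hr⟩ : L) * w) : L ⧸ K.subgroupOf L) = QuotientGroup.mk w := h1
        rw [eq_comm, QuotientGroup.eq, Subgroup.mem_subgroupOf] at h2
        have h3 : (w : G)⁻¹ * (r * (w : G)) ∈ K := h2
        rw [mul_assoc]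
        exact h3
      · intro h r
        have h2 := h _ (Subgroup.mem_subgroupOf.1 r.2)
        show (QuotientGroup.mk ((r : L) * w) : L ⧸ K.subgroupOf L) = QuotientGroup.mk w
        rw [eq_comm, QuotientGroup.eq, Subgroup.mem_subgroupOf]
        show (w : G)⁻¹ * (((r : L) : G) * (w : G)) ∈ K
        rw [← mul_assoc]
        exact h2
    refine finsum_mem_eq_of_bijOn q ⟨?_, hinj.mono fun w hw => hw.1, ?_⟩ ?_
    · rintro w ⟨hw, hr⟩
      have h1 := hq ⟨w, hW1 w hw⟩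
      change q w = _ at h1
      rw [h1]
      exact (hfix ⟨w, hW1 w hw⟩).2 hr
    · intro x hx
      obtain ⟨w, h1, h2, h3⟩ := hsurj x
      rw [h3] at hx ⊢
      exact ⟨w, ⟨h1, (hfix ⟨w, h2⟩).1 hx⟩, hq ⟨w, h2⟩⟩
    · rintro w ⟨hw, -⟩
      have h1 := hq ⟨w, hW1 w hw⟩
      change q w = _ at h1
      rw [h1, hω]
  rw [e1, e2]
  exact key

theorem MLC (hORP : ORP_stmt) (hCFX : CFX_stmt) (hEQP : EQP_stmt) (hCVF : CVF_stmt) (hBLE : BLE_stmt) : MLC_stmt := by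
  classical
  intro p M hS G _ _ D x θ χ lo Q hQD a ha haQ w₀ hw1 hw2 hw3 hw4 W hW1 hW2
  obtain ⟨L, hL⟩ : ∃ L : Subgroup G, L = cz Q := ⟨_, rfl⟩
  obtain ⟨D₁, hD₁⟩ : ∃ D₁ : Subgroup G, D₁ = Cz D a := ⟨_, rfl⟩
  obtain ⟨K, hK⟩ : ∃ K : Subgroup G, K = L ⊓ cz D₁ := ⟨_, rfl⟩
  rw [← hL, ← hD₁] at hW2 hw1 hw3 hw4 ⊢
  rw [← hL] at hW1
  rw [← hK] at hW2 hw1 hw3 hw4 ⊢
  have hKL : K ≤ L := by
    rw [hK]
    exact inf_le_left
  have hcom := lo.rt.com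
  have hD₁D : D₁ ≤ D := by
    rw [hD₁]
    exact inf_le_left
  have hD₁L : D₁ ≤ L := by
    intro d hd
    rw [hL, Subgroup.mem_centralizer_iff]
    intro q hq
    exact hcom q (hQD hq) d (hD₁D hd)
  have hD₁a : ∀ d ∈ D₁, a * d = d * a := by
    intro d hd
    rw [hD₁] at hd
    exact (mem_Cz.1 hd).2
  have hD₁c : D₁ ≤ cz D₁ := by
    intro d hd
    rw [Subgroup.mem_centralizer_iff]
    intro q hq
    exact hcom q (hD₁D hq) d (hD₁D hd)
  have hD₁K : D₁ ≤ K := by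
    rw [hK]
    exact le_inf hD₁L hD₁c
  have hD₁p : IsPGroup p D₁ := lo.rt.dfa.pgrp.to_le hD₁D
  have hKD₁ : ∀ k ∈ K, ∀ d ∈ D₁, d * k = k * d := by
    intro k hk d hd
    rw [hK] at hk
    exact (Subgroup.mem_centralizer_iff.1 hk.2) d hd
  -- `a` normalises `L` and `K`
  have haL : ∀ l, l ∈ L → a⁻¹ * l * a ∈ L := by
    intro l hl
    rw [hL] at hl ⊢
    have h1 := cz_conj ((nz Q).inv_mem haQ) hl
    rwa [inv_inv] at h1
  have haL' : ∀ l, l ∈ L → a * l * a⁻¹ ∈ L := by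
    intro l hl
    rw [hL] at hl ⊢
    exact cz_conj haQ hl
  have haK : ∀ k, k ∈ K → a⁻¹ * k * a ∈ K := by
    intro k hk
    rw [hK]
    refine ⟨haL k (hKL hk), Subgroup.mem_centralizer_iff.2 fun d hd => ?_⟩
    have h1 := hKD₁ k hk d hd
    have h2 := hD₁a d hd
    calc d * (a⁻¹ * k * a) = a⁻¹ * (a * d) * a⁻¹ * k * a := by group
      _ = a⁻¹ * (d * a) * a⁻¹ * k * a := by rw [h2]
      _ = a⁻¹ * (d * k) * a := by group
      _ = a⁻¹ * (k * d) * a := by rw [h1]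
      _ = a⁻¹ * k * (d * a) := by group
      _ = a⁻¹ * k * (a * d) := by rw [h2]
      _ = a⁻¹ * k * a * d := by group
  -- elements of `a K` commute with `D₁`
  have haKc : ∀ t, a⁻¹ * t ∈ K → ∀ d ∈ D₁, t * d = d * t := by
    intro t ht d hd
    have h1 := hKD₁ _ ht d hd
    have h2 := hD₁a d hd
    calc t * d = a * ((a⁻¹ * t) * d) := by group
      _ = a * (d * (a⁻¹ * t)) := by rw [h1]
      _ = (a * d) * (a⁻¹ * t) := by group
      _ = (d * a) * (a⁻¹ * t) := by rw [h2]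
      _ = d * t := by group
  -- `w₀` on the cosets
  have hright : ∀ t l k, k ∈ K → w₀ ((l * k)⁻¹ * t * (l * k)) = w₀ (l⁻¹ * t * l) := by
    intro t l k hk
    have h1 := hw1 k⁻¹ (K.inv_mem hk) (l⁻¹ * t * l)
    rw [← h1]
    congr 1
    group
  have hKc : (Nat.card K : ℂ) ≠ 0 := by exact_mod_cast Nat.card_pos.ne'
  have hinv : ∀ l ∈ L, ∀ t, ∑ w ∈ W, w₀ (w⁻¹ * (l * t * l⁻¹) * w) = ∑ w ∈ W, w₀ (w⁻¹ * t * w) := by
    intro l hl t
    apply mul_left_cancel₀ hKc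
    rw [MLC_sumL L K hKL W hW1 hW2 (fun w => w₀ (w⁻¹ * (l * t * l⁻¹) * w)) (fun l' _ k hk => hright _ l' k hk),
      MLC_sumL L K hKL W hW1 hW2 (fun w => w₀ (w⁻¹ * t * w)) (fun l' _ k hk => hright _ l' k hk)]
    refine finsum_mem_eq_of_bijOn (fun g => l⁻¹ * g) ⟨fun g hg => L.mul_mem (L.inv_mem hl) hg, fun g _ g' _ h => mul_left_cancel h,
      fun g hg => ⟨l * g, L.mul_mem hl hg, inv_mul_cancel_left l g⟩⟩ fun g _ => ?_
    show w₀ (g⁻¹ * (l * t * l⁻¹) * g) = w₀ ((l⁻¹ * g)⁻¹ * t * (l⁻¹ * g))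
    congr 1
    group
  refine ⟨hinv, ?_, ?_⟩
  · intro t ht
    refine Finset.sum_eq_zero fun w hw => hw3 _ fun h1 => ht ?_
    have hwL := hW1 w hw
    have h2 : a⁻¹ * t = (a⁻¹ * w * a) * (a⁻¹ * (w⁻¹ * t * w)) * w⁻¹ := by group
    rw [h2]
    exact L.mul_mem (L.mul_mem (haL w hwL) (hKL h1)) (L.inv_mem hwL)
  · intro t ht
    obtain ⟨e, he⟩ : ∃ e : G → ℂ, e = eBl M L θ := ⟨_, rfl⟩
    obtain ⟨f, hf⟩ : ∃ f : G → ℂ, f = eS K (Bq M L K θ) := ⟨_, rfl⟩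
    obtain ⟨Θ, hΘ⟩ : ∃ Θ : G → ℂ, Θ = fun s => ∑ w ∈ W, w₀ (w⁻¹ * s * w) := ⟨_, rfl⟩
    obtain ⟨Θ', hΘ'⟩ : ∃ Θ' : G → ℂ, Θ' = fun s => ∑ᶠ w ∈ {w : G | w ∈ W ∧ w ∈ nz D₁}, w₀ (w⁻¹ * s * w) := ⟨_, rfl⟩
    have hble := hBLE p M hS G L L le_rfl θ
    have heCF : CF L e := by
      rw [he]
      exact hble.2.1
    have heI : ∀ z, IntAt M (e z) := by
      rw [he]
      exact hble.2.2.1
    have hfI : ∀ z, IntAt M (f z) := by
      rw [hf]
      exact (hBLE p M hS G L K hKL θ).2.2.1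
    have hΘI : ∀ s, IntAt M (Θ s) := by
      intro s
      rw [hΘ]
      exact IntAt.sum hS _ fun w _ => hw2 _
    have hΘ'I : ∀ s, IntAt M (Θ' s) := by
      intro s
      rw [hΘ']
      exact IntAt.finsum_mem hS fun w _ => hw2 _
    have hΘinv : ∀ l ∈ L, ∀ s, Θ (l * s * l⁻¹) = Θ s := by
      intro l hl s
      rw [hΘ]
      exact hinv l hl s
    have htc := haKc t ht
    -- step 1
    have s1 : InM M (cv e Θ t - ∑ᶠ z ∈ (cz D₁ : Set G), e z * Θ (z⁻¹ * t)) := by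
      refine hCFX p M hS G D₁ hD₁p (fun z => e z * Θ (z⁻¹ * t)) (fun z => (heI z).mul hS (hΘI _)) ?_
      intro r hr z
      show e (r * z * r⁻¹) * Θ ((r * z * r⁻¹)⁻¹ * t) = e z * Θ (z⁻¹ * t)
      rw [heCF.1 r (hD₁L hr) z]
      have h1 : (r * z * r⁻¹)⁻¹ * t = r * (z⁻¹ * t) * r⁻¹ := by
        calc (r * z * r⁻¹)⁻¹ * t = r * z⁻¹ * (r⁻¹ * t) := by group
          _ = r * z⁻¹ * (t * r⁻¹) := by rw [htc r⁻¹ (D₁.inv_mem hr)]
          _ = r * (z⁻¹ * t) * r⁻¹ := by group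
      rw [h1, hΘinv r (hD₁L hr)]
    have s2 : ∑ᶠ z ∈ (cz D₁ : Set G), e z * Θ (z⁻¹ * t) = ∑ᶠ z ∈ (K : Set G), e z * Θ (z⁻¹ * t) := by
      rw [hK, Subgroup.coe_inf]
      symm
      refine finsum_mem_inter_support_eq' _ _ _ fun z hz => ?_
      rw [Function.mem_support] at hz
      have hzL : z ∈ L := by
        by_contra h
        exact hz (by rw [heCF.2 z h, zero_mul])
      exact ⟨fun h => h.2, fun h => ⟨hzL, h⟩⟩
    -- the function `Θ` on `a K`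
    have hclaim : ∀ t', a⁻¹ * t' ∈ K → InM M (Θ t' - Θ' t') := by
      intro t' ht'
      have htc' := haKc t' ht'
      have o1 := MLC_orb hORP hS L K D₁ hD₁L hD₁p W hW1 hW2 (fun l => w₀ (l⁻¹ * t' * l)) (fun l _ => hw2 _)
        (fun l _ k hk => hright t' l k hk) (fun r hr l _ => by
          show w₀ ((r * l)⁻¹ * t' * (r * l)) = w₀ (l⁻¹ * t' * l)
          congr 1
          calc (r * l)⁻¹ * t' * (r * l) = l⁻¹ * (r⁻¹ * (t' * r)) * l := by group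
            _ = l⁻¹ * (r⁻¹ * (r * t')) * l := by rw [htc' r hr]
            _ = l⁻¹ * t' * l := by group)
      have o2 : InM M (∑ᶠ w ∈ {w : G | w ∈ W ∧ ∀ r ∈ D₁, w⁻¹ * r * w ∈ K}, w₀ (w⁻¹ * t' * w) - Θ' t') := by
        rw [hΘ']
        have hsub : {w : G | w ∈ W ∧ w ∈ nz D₁} ⊆ {w : G | w ∈ W ∧ ∀ r ∈ D₁, w⁻¹ * r * w ∈ K} := by
          rintro w ⟨h1, h2⟩
          refine ⟨h1, fun r hr => hD₁K ?_⟩
          have h3 := (Subgroup.mem_normalizer_iff.1 ((nz D₁).inv_mem h2) r).1 hr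
          rwa [inv_inv] at h3
        have hsplit : ∑ᶠ w ∈ {w : G | w ∈ W ∧ ∀ r ∈ D₁, w⁻¹ * r * w ∈ K}, w₀ (w⁻¹ * t' * w) =
            ∑ᶠ w ∈ {w : G | w ∈ W ∧ w ∈ nz D₁}, w₀ (w⁻¹ * t' * w) +
            ∑ᶠ w ∈ {w : G | w ∈ W ∧ ∀ r ∈ D₁, w⁻¹ * r * w ∈ K} \ {w : G | w ∈ W ∧ w ∈ nz D₁}, w₀ (w⁻¹ * t' * w) := by
          rw [← finsum_mem_union Set.disjoint_sdiff_right (Set.toFinite _) (Set.toFinite _), Set.union_sdiff_cancel hsub]
        rw [hsplit, add_sub_cancel_left]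
        refine InM.finsum_mem hS fun w hw => ?_
        obtain ⟨⟨hwW, hwr⟩, hwn⟩ := hw
        by_contra hcon
        apply hwn
        refine ⟨hwW, ?_⟩
        have haw : a⁻¹ * (w⁻¹ * t' * w) ∈ K := by
          by_contra h
          exact hcon (by rw [hw3 _ h]; exact InM.zero hS)
        have htw := haKc _ haw
        obtain ⟨P₁, hP₁⟩ : ∃ P₁ : Subgroup G, P₁ = D₁.map (MulAut.conj w⁻¹).toMonoidHom := ⟨_, rfl⟩
        have hP₁m : ∀ y, y ∈ P₁ ↔ ∃ r ∈ D₁, w⁻¹ * r * w = y := by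
          intro y
          rw [hP₁, Subgroup.mem_map]
          refine ⟨fun ⟨r, hr, h⟩ => ⟨r, hr, ?_⟩, fun ⟨r, hr, h⟩ => ⟨r, hr, ?_⟩⟩
          · rw [← h]
            show w⁻¹ * r * w = w⁻¹ * r * w⁻¹⁻¹
            rw [inv_inv]
          · rw [← h]
            show w⁻¹ * r * w⁻¹⁻¹ = w⁻¹ * r * w
            rw [inv_inv]
        have hP₁K : P₁ ≤ K := by
          intro y hy
          obtain ⟨r, hr, rfl⟩ := (hP₁m y).1 hy
          exact hwr r hr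
        have hP₁t : ∀ y ∈ P₁, (w⁻¹ * t' * w) * y = y * (w⁻¹ * t' * w) := by
          intro y hy
          obtain ⟨r, hr, rfl⟩ := (hP₁m y).1 hy
          calc (w⁻¹ * t' * w) * (w⁻¹ * r * w) = w⁻¹ * (t' * r) * w := by group
            _ = w⁻¹ * (r * t') * w := by rw [htc' r hr]
            _ = (w⁻¹ * r * w) * (w⁻¹ * t' * w) := by group
        have hP₁n : P₁ ≤ nz D₁ := by
          intro y hy
          have hyK := hP₁K hy
          have h1 : y ∈ cz D₁ := by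
            rw [Subgroup.mem_centralizer_iff]
            exact fun d hd => hKD₁ y hyK d hd
          exact cz_le_nz D₁ h1
        have hP₁p : IsPGroup p P₁ := by
          rw [hP₁]
          exact hD₁p.map _
        have hsupp : IsPGroup p (P₁ ⊔ D₁ : Subgroup G) := hP₁p.to_sup_of_normal_right' hD₁p hP₁n
        have hsC : P₁ ⊔ D₁ ≤ Cz K (w⁻¹ * t' * w) := by
          refine sup_le ?_ ?_
          · intro y hy
            exact mem_Cz.2 ⟨hP₁K hy, hP₁t y hy⟩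
          · intro y hy
            exact mem_Cz.2 ⟨hD₁K hy, htw y hy⟩
        have hle := hw4 _ hcon (P₁ ⊔ D₁) hsupp hsC
        have heq : D₁ = P₁ ⊔ D₁ := Subgroup.eq_of_le_of_card_ge le_sup_right hle
        have hPD : P₁ ≤ D₁ := by
          rw [heq]
          exact le_sup_left
        have hcard : Nat.card P₁ = Nat.card D₁ := by
          rw [hP₁]
          exact Subgroup.card_map_of_injective (MulAut.conj w⁻¹).injective
        have hPD' : P₁ = D₁ := Subgroup.eq_of_le_of_card_ge hPD hcard.ge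
        have hwinv : w⁻¹ ∈ nz D₁ := by
          rw [Subgroup.mem_normalizer_iff]
          intro r
          rw [inv_inv]
          constructor
          · intro hr
            have : w⁻¹ * r * w ∈ P₁ := (hP₁m _).2 ⟨r, hr, rfl⟩
            rwa [hPD'] at this
          · intro hr
            rw [← hPD'] at hr
            obtain ⟨r', hr', h⟩ := (hP₁m _).1 hr
            have h2 : r' = r := mul_left_cancel (mul_right_cancel h)
            rwa [← h2]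
        have := (nz D₁).inv_mem hwinv
        rwa [inv_inv] at this
      have o3 := o1.add hS o2
      have h1 : (∑ w ∈ W, w₀ (w⁻¹ * t' * w) - ∑ᶠ w ∈ {w : G | w ∈ W ∧ ∀ r ∈ D₁, w⁻¹ * r * w ∈ K}, w₀ (w⁻¹ * t' * w)) +
          (∑ᶠ w ∈ {w : G | w ∈ W ∧ ∀ r ∈ D₁, w⁻¹ * r * w ∈ K}, w₀ (w⁻¹ * t' * w) - Θ' t') = Θ t' - Θ' t' := by
        rw [hΘ]
        ring
      rw [h1] at o3
      exact o3
    -- step 3
    have s3 : InM M (∑ᶠ z ∈ (K : Set G), e z * Θ (z⁻¹ * t) - ∑ᶠ z ∈ (K : Set G), f z * Θ' (z⁻¹ * t)) := by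
      rw [← finsum_mem_sub_distrib (fun z => e z * Θ (z⁻¹ * t)) (fun z => f z * Θ' (z⁻¹ * t)) (Set.toFinite _)]
      refine InM.finsum_mem hS fun z hz => ?_
      have hzK : z ∈ K := hz
      have h1 : InM M (e z - f z) := by
        rw [he, hf, hK]
        refine hEQP p M hS G L D₁ hD₁p hD₁L θ z ?_
        rw [← hK]
        exact hzK
      have h2 : a⁻¹ * (z⁻¹ * t) ∈ K := by
        have h3 : a⁻¹ * (z⁻¹ * t) = (a⁻¹ * z⁻¹ * a) * (a⁻¹ * t) := by group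
        rw [h3]
        exact K.mul_mem (haK _ (K.inv_mem hzK)) ht
      have h4 : e z * Θ (z⁻¹ * t) - f z * Θ' (z⁻¹ * t) = (e z - f z) * Θ (z⁻¹ * t) + f z * (Θ (z⁻¹ * t) - Θ' (z⁻¹ * t)) := by ring
      rw [h4]
      exact (h1.mul_right hS (hΘI _)).add hS ((hclaim _ h2).mul_left hS (hfI z))
    have s4 := s1.add hS (by rw [s2]; exact s3 : InM M (∑ᶠ z ∈ (cz D₁ : Set G), e z * Θ (z⁻¹ * t) -
      ∑ᶠ z ∈ (K : Set G), f z * Θ' (z⁻¹ * t)))
    have h5 : (cv e Θ t - ∑ᶠ z ∈ (cz D₁ : Set G), e z * Θ (z⁻¹ * t)) + (∑ᶠ z ∈ (cz D₁ : Set G), e z * Θ (z⁻¹ * t) -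
        ∑ᶠ z ∈ (K : Set G), f z * Θ' (z⁻¹ * t)) = cv e Θ t - ∑ᶠ z ∈ (K : Set G), f z * Θ' (z⁻¹ * t) := by ring
    rw [h5] at s4
    rw [he, hf, hΘ, hΘ'] at s4
    exact s4

end Pool.Agent.LE
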