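import Mathlib
import Pool.Agent.helper70.LE.Defs
import Pool.Agent.helper59.FI4.SpecI

/-!
# Project LE (MP_baa4d7_al), block IND-L: statements (ports of block IND of FI4 for the hypothesis `HL`)
-/

set_option autoImplicit false

namespace Pool.Agent.LE

open Pool.Agent.helper58.DC Pool.Agent.DI Pool.Agent.GR Pool.Agent.OB Pool.Agent.DR Pool.Agent.FI Pool.Agent.FI3 Pool.Agent.FI4 Pool.Agent.FI4I

/-- **HLN**: `HL` goes to subgroups `N` containing `cz D`. -/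
def HLN_stmt : Prop :=
  ∀ (p : ℕ) (M : Ideal (integralClosure ℤ ℂ)), Setup p M → ∀ (G : Type) [Group G] [Finite G]
    (D N : Subgroup G), D ≤ N → cz D ≤ N → ∀ θ ∈ IrrOn (cz D), ∀ n c h : ℕ, HL p M D θ n c h →
    HL p M (D.subgroupOf N) (rN N θ) n c h

/-- **HLC**: `HL` goes to the conjugates and does not depend on the root. -/
def HLC_stmt : Prop :=
  ∀ (p : ℕ) (M : Ideal (integralClosure ℤ ℂ)), Setup p M → ∀ (G : Type) [Group G] [Finite G]
    (D : Subgroup G) (x : G) (θ χ : G → ℂ), Rt p M D x θ χ → ∀ g : G, ∀ θ₁ ∈ IrrOn (cz (cjS g D)),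
    Induces M θ₁ χ → Rt p M (cjS g D) (g * x * g⁻¹) θ₁ χ ∧ iI M (cjS g D) θ₁ = iI M D θ ∧
      ∀ n c h : ℕ, HL p M D θ n c h → HL p M (cjS g D) θ₁ n c h

/-- **IHNL**: the induction hypothesis. -/
def IHNL_stmt : Prop :=
  ∀ (p : ℕ) (M : Ideal (integralClosure ℤ ℂ)), Setup p M → ∀ (G : Type) [Group G] [Finite G]
    (D : Subgroup G) (x : G) (θ χ : G → ℂ), Rt p M D x θ χ → ∀ n c h : ℕ, HL p M D θ n c h →
    ∀ Q N : Subgroup G, Mid p Q N →
    (∀ (D' : Subgroup N) (x' : N) (θ' χ' : N → ℂ), Rt p M D' x' θ' χ' → HL p M D' θ' n c h →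
      LL p M χ' ⊤ = LL p M χ' (nz D')) →
    Red p M D χ Q N

/-- **ONBL**: the bound for the normaliser. -/
def ONBL_stmt : Prop :=
  ∀ (p : ℕ) (M : Ideal (integralClosure ℤ ℂ)), Setup p M → p ≠ 2 → ∀ (G : Type) [Group G] [Finite G]
    (D : Subgroup G) (x : G) (θ χ : G → ℂ), Rt p M D x θ χ → ∀ n c h : ℕ, HL p M D θ n c h →
    ∃ l : ℕ, LL p M χ (nz D) = l ∧ 1 ≤ l ∧ l < p ^ c

/-- **DFE**: every member of the block has a defect, at most that of `D`. -/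
def DFE_stmt : Prop :=
  ∀ (p : ℕ) (M : Ideal (integralClosure ℤ ℂ)), Setup p M → ∀ (G : Type) [Group G] [Finite G]
    (D : Subgroup G) (x : G) (θ χ : G → ℂ), Rt p M D x θ χ →
    ∀ ψ ∈ Blk M χ (⊤ : Subgroup G), ∀ a : ℕ, Nat.card D = p ^ a → ∃ k : ℤ, Defect p ⊤ ψ k ∧ k ≤ a

end Pool.Agent.LE
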