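import Pool.Agent.helper58.LE.Stm

/-!
# Project LE (MP_baa4d7_al): `HL` goes to subgroups
-/

set_option autoImplicit false

namespace Pool.Agent.LE

open Pool.Agent.helper58.DC Pool.Agent.DI Pool.Agent.GR Pool.Agent.OB Pool.Agent.DR Pool.Agent.FI Pool.Agent.FI3 Pool.Agent.FI4 Pool.Agent.FI4I

theorem HLN (hTRT : TRT_stmt) (hTR3 : TR3_stmt) : HLN_stmt := by
  intro p M hM G _ _ D N hDN hCN θ hθ n c h H
  have e1 := hTRT G M D N hDN hCN θ hθ
  obtain ⟨t1, t2, t3, t4, t5⟩ := hTR3 p G N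
  have e2 : cz (D.subgroupOf N) = (cz D).subgroupOf N := (t1 D hDN).1
  have hle : cz D ≤ TT M D θ := cz_le_TT
  have e3 : iI M (D.subgroupOf N) (rN N θ) = (cz D).relIndex (TT M D θ ⊓ N) := by
    unfold iI
    rw [e1, e2]
    have e4 : (TT M D θ).subgroupOf N = (TT M D θ ⊓ N).subgroupOf N := by
      ext n
      simp [Subgroup.mem_subgroupOf]
    rw [e4]
    exact t5 _ _ (le_inf hle hCN) inf_le_right
  have e5 : (cz D).relIndex (TT M D θ ⊓ N) ≤ iI M D θ := by
    have h1 := Subgroup.relIndex_mul_relIndex (cz D) (TT M D θ ⊓ N) (TT M D θ) (le_inf hle hCN) inf_le_left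
    unfold iI
    rw [← h1]
    refine Nat.le_mul_of_pos_right _ (Nat.pos_of_ne_zero ?_)
    exact Subgroup.index_ne_zero_of_finite
  refine ⟨H.pos, ?_, ?_, ?_, H.exp, H.hgt⟩
  · rw [e3]
    exact e5.trans H.le
  · intro t ht htc
    rw [e1, Subgroup.mem_subgroupOf] at ht
    rw [e2, Subgroup.mem_subgroupOf] at htc
    obtain ⟨w, hw, hne⟩ := H.wit (t : G) ht htc
    refine ⟨⟨w, hDN hw⟩, Subgroup.mem_subgroupOf.2 hw, fun h0 => hne ?_⟩
    have h1 := congrArg Subtype.val h0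
    exact h1
  · refine lt_of_le_of_lt (Nat.mul_le_mul_left _ ?_) H.cnt
    refine Set.ncard_le_ncard_of_injOn (fun u : N => (u : G)) ?_ Subtype.val_injective.injOn (Set.toFinite _)
    rintro u ⟨hu, ho⟩
    rw [Subgroup.mem_subgroupOf] at hu
    exact ⟨hu, by rw [Subgroup.orderOf_coe]; exact ho⟩

end Pool.Agent.LE
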