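import Pool.Agent.helper58.LE.Stm

set_option autoImplicit false

namespace Pool.Agent.LE

open Pool.Agent.helper58.DC Pool.Agent.DI Pool.Agent.GR Pool.Agent.OB Pool.Agent.DR Pool.Agent.FI Pool.Agent.FI3 Pool.Agent.FI4 Pool.Agent.FI4I

theorem TGL (hTOG : TOG_stmt) (hLOC : LOC_stmt) (hIHN : IHNL_stmt) (hFMX3 : FMX3_stmt) : TGL_stmt := by
  classical
  intro p M hs G _ _ D x θ χ hRt n c h hHyp R hR hRD hRne hIH
  have hc0 : (Nat.card (nz D) : ℂ) ≠ 0 := Nat.cast_ne_zero.2 Nat.card_pos.ne'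
  apply mul_left_cancel₀ hc0
  have hRN : nz R = ⊤ := top_le_iff.1 hR.1.2.2
  have hCR : NCh p ⊤ R ({R} : Finset (Subgroup G)) := by
    refine ⟨⟨?_, Finset.mem_singleton_self R, ?_, fun _ _ => le_top, ?_⟩, ?_⟩
    · rw [Finset.coe_singleton]
      exact Set.subsingleton_singleton.isChain
    · intro Q hQ
      rw [Finset.mem_singleton.1 hQ]
    · intro Q hQ
      rw [Finset.mem_singleton.1 hQ]
      exact hR.1.2.1
    · intro Q hQ Q' hQ' _
      rw [Finset.mem_singleton.1 hQ, hRN]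
      exact le_top
  have hnR : nrm ({R} : Finset (Subgroup G)) = ⊤ := by
    unfold nrm
    rw [Finset.iInf_singleton]
    exact hRN
  have hset : {C : Finset (Subgroup G) | NCh p ⊤ R C} = insert {R} {C : Finset (Subgroup G) | NCh p ⊤ R C ∧ C ≠ {R}} := by
    ext C
    rw [Set.mem_insert_iff]
    constructor
    · intro h
      by_cases h1 : C = {R}
      · exact Or.inl h1
      · exact Or.inr ⟨h, h1⟩
    · rintro (h | h)
      · rw [h]
        exact hCR
      · exact h.1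
  have hnot : ({R} : Finset (Subgroup G)) ∉ {C : Finset (Subgroup G) | NCh p ⊤ R C ∧ C ≠ {R}} := fun h => h.2 rfl
  have hterm : ∀ C ∈ {C : Finset (Subgroup G) | NCh p ⊤ R C ∧ C ≠ {R}},
      (Nat.card (nz D) : ℂ) * ((-1 : ℂ) ^ (C.card + 1) * ((Nat.card (nrm C) : ℂ) * LL p M χ (nrm C))) =
      (-1 : ℂ) ^ (C.card + 1) * ∑ᶠ g ∈ {g : G | ∀ Q ∈ C, Q ≤ cjS g D},
        (Nat.card (nrm C ⊓ nz (cjS g D) : Subgroup G) : ℂ) * LL p M χ (nrm C ⊓ nz (cjS g D)) := by
    rintro C ⟨hC, hne⟩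
    obtain ⟨Q, hQC, hRQ, hQp, -, hmax, hQn, hnz, hcz⟩ := hFMX3 G p ⊤ R C hC hne
    have hMid : Mid p Q (nrm C) := ⟨hQp, hQn, hcz, hnz⟩
    have hnt : nrm C ≠ ⊤ := by
      intro h
      have h1 : Q ≤ R := hR.2 ⟨le_top, hQp, by rw [← h]; exact hnz⟩
      exact absurd hRQ (not_lt_of_ge h1)
    have hlt : Nat.card (nrm C) < Nat.card G :=
      lt_of_le_of_ne (Subgroup.card_le_card_group _) fun h => hnt (Subgroup.eq_top_of_card_eq _ h)
    have hRed : Red p M D χ Q (nrm C) := hIHN p M hs G D x θ χ hRt n c h hHyp Q (nrm C) hMid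
      (fun D' x' θ' χ' h1 h2 => hIH (nrm C) hlt D' x' θ' χ' h1 h2)
    have hL := hLOC p M hs G D x θ χ hRt Q (nrm C) hMid hRed
    have hsets : {g : G | ∀ Q ∈ C, Q ≤ cjS g D} = {g : G | Q ≤ cjS g D} := by
      ext g
      exact ⟨fun h => h Q hQC, fun h Q' hQ' => (hmax Q' hQ').trans h⟩
    rw [hsets, ← hL]
    ring
  rw [hset, finsum_mem_insert _ hnot (Set.toFinite _), hnR, Finset.card_singleton, mul_add,
    mul_finsum_mem, finsum_mem_congr rfl hterm, hTOG p M hs G D x θ χ hRt R hR hRD hRne,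
    Subgroup.card_top]
  ring

end Pool.Agent.LE
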