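import Pool.Agent.helper59.FI4.AllM
import Pool.Agent.helper59.FI4.AllI
import Pool.Agent.helper58.FI4E.AllE
import Pool.Agent.helper58.LE.Stm
import Pool.Agent.helper58.LE.HLN
import Pool.Agent.helper58.LE.HLC
import Pool.Agent.helper58.LE.DFE
import Pool.Agent.helper58.LE.IHNL
import Pool.Agent.helper58.LE.ONBL
import Pool.Agent.helper58.LE.TGL
import Pool.Agent.helper58.LE.MNL
import Pool.Agent.helper58.LE.HNL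
import Pool.Agent.helper58.LE.AML
import Pool.Agent.helper58.LE.FDL
import Pool.Agent.helper58.LE.FNL

/-!
# Project LE (MP_baa4d7_al), block IND-L: assembly. Inputs NIL, BDL, HTL, DVL.
-/

set_option autoImplicit false

namespace Pool.Agent.LE.AllI

open Pool.Agent Pool.Agent.FI Pool.Agent.FI3 Pool.Agent.FI4 Pool.Agent.FI4I Pool.Agent.FI4E Pool.Agent.LE Pool.Agent.GR Pool.Agent.helper58.DC Pool.Agent.DI Pool.Agent.OB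

theorem lHLN : HLN_stmt := LE.HLN Pool.Agent.FI4I.AllI.iTRT Pool.Agent.FI4I.AllI.iTR3
theorem lHLC : HLC_stmt := LE.HLC Pool.Agent.FI4I.AllI.iTTC AllB.dCON AllC.cFEQ AllA.dSYL
theorem lDFE : DFE_stmt := LE.DFE AllQ2.dQID (AllQ2.eQHT AllQ.qQEV) AllA.dTPR
theorem lIHNL : IHNL_stmt := LE.IHNL Pool.Agent.FI4I.AllI.iRTN lHLN lHLC Pool.Agent.FI4I.AllI.iBKV Pool.Agent.FI4I.AllI.iTRL Pool.Agent.FI4I.AllI.iTR3 AllC.cFSI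
theorem lTGL : TGL_stmt := LE.TGL (Pool.Agent.FI4I.AllI.iTOG AllK.kLBN) Pool.Agent.FI4I.AllI.iLOC lIHNL Pool.Agent.FI3F.AllF.cFMX3
theorem lONBL (hBDL : BDL_stmt) : ONBL_stmt := LE.ONBL Pool.Agent.FI4I.AllI.iBKV AllB.dCON AllA.dEXB AllC.cFEQ AllC.cFSI AllA.dCJG Pool.Agent.FI4I.AllI.iRTN
  lHLN Pool.Agent.FI4I.AllI.iTRL hBDL
theorem lMNL (hNIL : NIL_stmt) (hBDL : BDL_stmt) (hHTL : HTL_stmt) (hDVL : DVL_stmt) : MNL_stmt :=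
  LE.MNL hNIL lTGL hDVL AllK.kOPD hHTL hBDL (lONBL hBDL)
theorem lHNL (hHTL : HTL_stmt) : HNL_stmt := LE.HNL Pool.Agent.FI4I.AllI.iBKN Pool.Agent.FI4I.AllI.iBKV lHLC Pool.Agent.FI4I.AllI.iRTN lHLN Pool.Agent.FI4I.AllI.iTRL hHTL lDFE
  Pool.Agent.FI4I.AllI.iTR4
theorem lAML (hNIL : NIL_stmt) (hBDL : BDL_stmt) (hHTL : HTL_stmt) (hDVL : DVL_stmt) : AML_stmt :=
  LE.AML (lMNL hNIL hBDL hHTL hDVL) lIHNL Pool.Agent.FI4I.AllI.iLOC (Pool.Agent.FI4I.AllI.iKNR AllK.kKRA AllK.kLBN) Pool.Agent.FI4I.AllI.iVNN Pool.Agent.FI4I.AllI.iLBI lHLC AllC.cFEQ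
theorem lFDL (hNIL : NIL_stmt) (hBDL : BDL_stmt) (hHTL : HTL_stmt) (hDVL : DVL_stmt) : FDL_stmt :=
  LE.FDL AllC.cFT0 (lHNL hHTL) AllK.kKRG lTGL (lMNL hNIL hBDL hHTL hDVL)
theorem lFNL (hNIL : NIL_stmt) (hBDL : BDL_stmt) (hHTL : HTL_stmt) (hDVL : DVL_stmt) : FNL_stmt :=
  LE.FNL GR.All.dB2 AllC.cFT0 AllK.kKRG lTGL (lMNL hNIL hBDL hHTL hDVL)

end Pool.Agent.LE.AllI
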