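import Pool.Agent.helper66.LE.Defs3
import Pool.Agent.helper66.LE.TI

/-!
# MP_d04c2c_pr, lg:C1: the infrared bound spreads the mass of the two-point function
-/

open Finset Classical MeasureTheory Filter Topology

namespace Pool.Agent.helper66.LE

section C1
variable {d L : ℕ} [NeZero L] {q : ℝ}

theorem C1_re (m : ℤ) : (ZMod.stdAddChar ((m : ℤ) : ZMod L) : ℂ).re = Real.cos (2 * Real.pi * m / L) := by
  rw [ZMod.stdAddChar_coe]
  have h : (2 * Real.pi * Complex.I * (m : ℂ) / (L : ℂ)) = ((2 * Real.pi * m / L : ℝ) : ℂ) * Complex.I := by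
    push_cast
    ring
  rw [h, Complex.exp_ofReal_mul_I_re]

theorem C1_cs (i : Fin d) (j : ℕ) (x : Tor d L) :
    cs (Pi.single i ((j : ℕ) : ZMod L)) x = Real.cos (2 * Real.pi * j / L * ab i x) := by
  unfold cs ee
  have h1 : ∑ j', (Pi.single i ((j : ℕ) : ZMod L) : Fin d → ZMod L) j' * x j' = (((j : ℤ) * (x i).valMinAbs : ℤ) : ZMod L) := by
    rw [Finset.sum_eq_single i]
    · rw [Pi.single_eq_same]
      push_cast [ZMod.coe_valMinAbs]
      rfl
    · intro b _ hb
      rw [Pi.single_eq_of_ne hb, zero_mul]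
    · intro h
      exact absurd (Finset.mem_univ i) h
  rw [h1, C1_re]
  unfold ab
  rw [← Real.cos_abs (2 * Real.pi * j / L * _), ← Real.cos_abs (2 * Real.pi * _ / L)]
  congr 1
  push_cast
  rw [show 2 * Real.pi * ((j : ℝ) * ((x i).valMinAbs : ℝ)) / L = 2 * Real.pi * j / L * ((x i).valMinAbs : ℝ) by ring,
    abs_mul, abs_mul, abs_abs]

theorem C1_Dh (hd : 1 ≤ d) (i : Fin d) (j : ℕ) :
    1 - Dh (Pi.single i ((j : ℕ) : ZMod L) : Tor d L) = (1 - Real.cos (2 * Real.pi * j / L)) / d := by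
  unfold Dh
  have hd0 : (0 : ℝ) < d := by exact_mod_cast hd
  have h1 : ∑ j', (ZMod.stdAddChar ((Pi.single i ((j : ℕ) : ZMod L) : Tor d L) j') : ℂ).re =
      (d - 1) + Real.cos (2 * Real.pi * j / L) := by
    have h2 : ∀ j', (ZMod.stdAddChar ((Pi.single i ((j : ℕ) : ZMod L) : Tor d L) j') : ℂ).re =
        1 + (if j' = i then Real.cos (2 * Real.pi * j / L) - 1 else 0) := by
      intro j'
      by_cases h : j' = i
      · subst h
        rw [Pi.single_eq_same, if_pos rfl]
        have := C1_re (L := L) (j : ℤ)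
        push_cast at this
        rw [this]
        ring
      · rw [Pi.single_eq_of_ne h, if_neg h]
        simp
    rw [Finset.sum_congr rfl fun j' _ => h2 j', Finset.sum_add_distrib, Finset.sum_ite_eq']
    simp
    ring
  rw [h1]
  field_simp
  ring

theorem spread (hd : 1 ≤ d) (h0 : 0 ≤ q) (h1 : q ≤ 1)
    (hIR : ∀ k : Tor d L, fh (tt d L q) k * (1 - Dh k) ≤ 6) (hχ : 24 * d ≤ chi d L q)
    (hL : chi d L q ≤ (L : ℝ) ^ 2) (i : Fin d) {ρ : ℝ} (hρ : 0 ≤ ρ) (hρ' : 480 * d * ρ ^ 2 ≤ chi d L q) :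
    chi d L q / 8 ≤ ∑ x : Tor d L, if ρ < ab i x then tt d L q x else 0 := by
  have hd0 : (1 : ℝ) ≤ d := by exact_mod_cast hd
  have hL0 : (0 : ℝ) < L := by exact_mod_cast Nat.pos_of_ne_zero (NeZero.ne L)
  have hX : 0 < chi d L q := by nlinarith
  set X := chi d L q with hXdef
  set u := Real.sqrt (3 * d / (2 * X)) with hu
  have hu2 : u ^ 2 = 3 * d / (2 * X) := Real.sq_sqrt (by positivity)
  have hu0 : 0 < u := Real.sqrt_pos.2 (by positivity)
  have hu2' : u ^ 2 * X = 3 * d / 2 := by rw [hu2]; field_simp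
  have hu4 : u ≤ 1 / 4 := by
    by_contra hcon
    push Not at hcon
    have : (1 / 4 : ℝ) ^ 2 < u ^ 2 := by nlinarith
    nlinarith
  have huL : 1 ≤ u * L := by
    by_contra hcon
    push Not at hcon
    have h2 : (u * L) ^ 2 < 1 := by
      have : 0 < u * L := by positivity
      nlinarith
    have h3 : u ^ 2 * X ≤ (u * L) ^ 2 := by
      rw [mul_pow]
      exact mul_le_mul_of_nonneg_left hL (by positivity)
    nlinarith
  set j := ⌈u * L⌉₊ with hj
  have hj1 : u * L ≤ j := Nat.le_ceil _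
  have hj2 : (j : ℝ) ≤ 2 * (u * L) := by
    have := Nat.ceil_lt_add_one (a := u * L) (by positivity)
    rw [← hj] at this
    linarith
  set t := (j : ℝ) / L with ht
  have ht1 : u ≤ t := by rw [ht, le_div_iff₀ hL0]; exact hj1
  have ht2 : t ≤ 2 * u := by rw [ht, div_le_iff₀ hL0]; linarith
  have htj : 2 * Real.pi * j / L = 2 * Real.pi * t := by rw [ht]; ring
  have hpi : 0 < Real.pi := Real.pi_pos
  -- the Fourier coefficient
  have hF : fh (tt d L q) (Pi.single i ((j : ℕ) : ZMod L)) ≤ X / 2 := by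
    by_contra hcon
    push Not at hcon
    have h2 := hIR (Pi.single i ((j : ℕ) : ZMod L))
    rw [C1_Dh hd, htj] at h2
    have h3 : Real.cos (2 * Real.pi * t) ≤ 1 - 2 / Real.pi ^ 2 * (2 * Real.pi * t) ^ 2 := by
      refine Real.cos_le_one_sub_mul_cos_sq ?_
      rw [abs_of_nonneg (by positivity)]
      nlinarith
    have h4 : 2 / Real.pi ^ 2 * (2 * Real.pi * t) ^ 2 = 8 * t ^ 2 := by
      field_simp
      ring
    rw [h4] at h3
    have h5 : u ^ 2 ≤ t ^ 2 := by nlinarith
    have h6 : 12 / X ≤ (1 - Real.cos (2 * Real.pi * t)) / d := by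
      rw [div_le_div_iff₀ hX (by linarith)]
      have : 8 * u ^ 2 ≤ 1 - Real.cos (2 * Real.pi * t) := by linarith
      have h7 : 8 * u ^ 2 * X ≤ (1 - Real.cos (2 * Real.pi * t)) * X := mul_le_mul_of_nonneg_right this hX.le
      nlinarith
    have h7 : X / 2 * (12 / X) < fh (tt d L q) (Pi.single i ((j : ℕ) : ZMod L)) * (12 / X) :=
      mul_lt_mul_of_pos_right hcon (by positivity)
    have h8 : fh (tt d L q) (Pi.single i ((j : ℕ) : ZMod L)) * (12 / X) ≤
        fh (tt d L q) (Pi.single i ((j : ℕ) : ZMod L)) * ((1 - Real.cos (2 * Real.pi * t)) / d) :=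
      mul_le_mul_of_nonneg_left h6 (by linarith)
    have h9 : X / 2 * (12 / X) = 6 := by field_simp; norm_num
    linarith
  have h2 : X - fh (tt d L q) (Pi.single i ((j : ℕ) : ZMod L)) =
      ∑ x, tt d L q x * (1 - Real.cos (2 * Real.pi * t * ab i x)) := by
    rw [hXdef]
    unfold fh chi
    rw [← Finset.sum_sub_distrib]
    refine Finset.sum_congr rfl fun x _ => ?_
    rw [C1_cs, htj]
    ring
  have h3 : ∀ x, tt d L q x * (1 - Real.cos (2 * Real.pi * t * ab i x)) ≤
      1 / 4 * tt d L q x + 2 * (if ρ < ab i x then tt d L q x else 0) := by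
    intro x
    have hτ : 0 ≤ tt d L q x := tau_nonneg h0 h1 _ _
    have hab : 0 ≤ ab i x := abs_nonneg _
    by_cases h : ρ < ab i x
    · rw [if_pos h]
      have := Real.neg_one_le_cos (2 * Real.pi * t * ab i x)
      nlinarith
    · rw [if_neg h]
      push Not at h
      have h4 := Real.one_sub_sq_div_two_le_cos (x := 2 * Real.pi * t * ab i x)
      have h5 : (2 * Real.pi * t * ab i x) ^ 2 ≤ (4 * Real.pi * u * ρ) ^ 2 := by
        refine pow_le_pow_left₀ (by positivity) ?_ 2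
        have : t * ab i x ≤ 2 * u * ρ := mul_le_mul ht2 h hab (by positivity)
        nlinarith
      have h6 : (4 * Real.pi * u * ρ) ^ 2 = 16 * Real.pi ^ 2 * (u ^ 2 * ρ ^ 2) := by ring
      have h7 : u ^ 2 * ρ ^ 2 ≤ 1 / 320 := by
        have h8 : u ^ 2 * (480 * d * ρ ^ 2) ≤ u ^ 2 * X := mul_le_mul_of_nonneg_left hρ' (by positivity)
        rw [hu2'] at h8
        have h9 : (480 * d) * (u ^ 2 * ρ ^ 2) ≤ 3 * d / 2 := by linarith
        have h10 : (0 : ℝ) < 480 * d := by linarith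
        have h11 : u ^ 2 * ρ ^ 2 ≤ (3 * d / 2) / (480 * d) := by
          rw [le_div_iff₀ h10]; linarith
        have h12 : (3 * (d : ℝ) / 2) / (480 * d) = 1 / 320 := by
          field_simp
          norm_num
        linarith
      have h8 : Real.pi ^ 2 ≤ 10 := by
        have := Real.pi_lt_d2
        nlinarith
      have h9 : Real.pi ^ 2 * (u ^ 2 * ρ ^ 2) ≤ 10 * (1 / 320) :=
        mul_le_mul h8 h7 (by positivity) (by norm_num)
      have h10 : 1 - Real.cos (2 * Real.pi * t * ab i x) ≤ 1 / 4 := by linarith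
      nlinarith
  have h4 : X - fh (tt d L q) (Pi.single i ((j : ℕ) : ZMod L)) ≤
      1 / 4 * X + 2 * ∑ x : Tor d L, (if ρ < ab i x then tt d L q x else 0) := by
    rw [h2]
    refine (Finset.sum_le_sum fun x _ => h3 x).trans ?_
    rw [Finset.sum_add_distrib, ← Finset.mul_sum, ← Finset.mul_sum]
    exact le_rfl
  linarith

end C1

end Pool.Agent.helper66.LE
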