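import Pool.Agent.helper66.LE.Defs3
import Pool.Agent.helper66.LE.RU
import Pool.Agent.helper66.LE.DL

/-!
# MP_d04c2c_pr, lg:C2: second moments, reaching a large distance from a point and from a set
-/

open Finset Classical MeasureTheory Filter Topology

namespace Pool.Agent.helper66.LE

section C2
variable {d L : ℕ} [NeZero L] {q : ℝ}

/-- Cauchy-Schwarz: second moment bound for a nonnegative function. -/
theorem C2_second {ι : Type*} (h0 : 0 ≤ q) (h1 : q ≤ 1) (E : Finset ι) (Z : Finset ι → ℝ) (A : Finset ι → Prop)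
    (hA : ∀ F ⊆ E, Z F ≠ 0 → A F) :
    (Ex q E Z) ^ 2 ≤ Ex q E (fun F => Z F ^ 2) * Pr q E A := by
  unfold Pr Ex
  refine Finset.sum_sq_le_sum_mul_sum_of_sq_le_mul _ ?_ ?_ ?_
  · intro F _
    exact mul_nonneg (wt_nonneg h0 h1 _ _) (sq_nonneg _)
  · intro F _
    refine mul_nonneg (wt_nonneg h0 h1 _ _) ?_
    show (0 : ℝ) ≤ if A F then 1 else 0
    split_ifs <;> norm_num
  · intro F hF
    show (wt q E F * Z F) ^ 2 ≤ wt q E F * Z F ^ 2 * (wt q E F * if A F then (1 : ℝ) else 0)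
    by_cases h : A F
    · rw [if_pos h]
      apply le_of_eq
      ring
    · rw [if_neg h]
      have : Z F = 0 := by
        by_contra hz
        exact h (hA F (Finset.mem_powerset.1 hF) hz)
      rw [this]
      simp

theorem C2_ex_ind {ι : Type*} (E : Finset ι) (A : Finset ι → Prop) (inst : DecidablePred A) :
    Ex q E (fun F => if A F then (1 : ℝ) else 0) = Pr q E A := by
  unfold Pr
  refine Ex_congr fun F _ => ?_
  by_cases h : A F
  · rw [if_pos h, if_pos h]
  · rw [if_neg h, if_neg h]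

theorem C2_pr_equiv {V : Type*} (q : ℝ) (E : Finset (Sym2 V)) (e : V ≃ V) (he : E.image (Sym2.map e) = E)
    (A B : Finset (Sym2 V) → Prop) (h : ∀ F, A (F.image (Sym2.map e)) ↔ B F) : Pr q E A = Pr q E B := by
  unfold Pr
  conv_lhs => rw [← he]
  rw [Ex_image _ ((Sym2.map.injective e.injective).injOn)]
  refine Ex_congr fun F _ => ?_
  simp only [h F]

theorem C2_tree (h0 : 0 ≤ q) (h1 : q ≤ 1) :
    ∑ u : Tor d L, ∑ z : Tor d L, Pr q (cay (uv d (ZMod L))) (fun F => Conn F 0 u ∧ Conn F 0 z) ≤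
      (chi d L q) ^ 3 := by
  have h2 : ∀ u z : Tor d L, Pr q (cay (uv d (ZMod L))) (fun F => Conn F 0 u ∧ Conn F 0 z) ≤
      ∑ y, tau q (uv d (ZMod L)) y * tau q (uv d (ZMod L)) (u - y) * tau q (uv d (ZMod L)) (z - y) :=
    fun u z => DL_tree h0 h1 u z
  refine (Finset.sum_le_sum fun u _ => Finset.sum_le_sum fun z _ => h2 u z).trans (le_of_eq ?_)
  have h3 : ∀ y : Tor d L, ∑ u : Tor d L, tau q (uv d (ZMod L)) (u - y) = chi d L q := by
    intro y
    unfold chi tt
    exact Fintype.sum_equiv (Equiv.subRight y) _ _ (fun u => rfl)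
  calc ∑ u : Tor d L, ∑ z : Tor d L, ∑ y,
        tau q (uv d (ZMod L)) y * tau q (uv d (ZMod L)) (u - y) * tau q (uv d (ZMod L)) (z - y)
      = ∑ u : Tor d L, ∑ y : Tor d L, ∑ z,
        tau q (uv d (ZMod L)) y * tau q (uv d (ZMod L)) (u - y) * tau q (uv d (ZMod L)) (z - y) := by
        refine Finset.sum_congr rfl fun u _ => Finset.sum_comm
    _ = ∑ u : Tor d L, ∑ y : Tor d L,
        tau q (uv d (ZMod L)) y * tau q (uv d (ZMod L)) (u - y) * chi d L q := by
        refine Finset.sum_congr rfl fun u _ => Finset.sum_congr rfl fun y _ => ?_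
        rw [← Finset.mul_sum, h3 y]
    _ = ∑ y : Tor d L, ∑ u : Tor d L,
        tau q (uv d (ZMod L)) y * tau q (uv d (ZMod L)) (u - y) * chi d L q := Finset.sum_comm
    _ = ∑ y : Tor d L, tau q (uv d (ZMod L)) y * chi d L q * chi d L q := by
        refine Finset.sum_congr rfl fun y _ => ?_
        rw [← Finset.sum_mul, ← Finset.mul_sum, h3 y]
    _ = (chi d L q) ^ 3 := by
        rw [← Finset.sum_mul, ← Finset.sum_mul]
        have : ∑ y : Tor d L, tau q (uv d (ZMod L)) y = chi d L q := rfl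
        rw [this]
        ring

theorem far_ge (h0 : 0 ≤ q) (h1 : q ≤ 1) (i : Fin d) {ρ : ℝ}
    (h : chi d L q / 8 ≤ ∑ x : Tor d L, if ρ < ab i x then tt d L q x else 0) :
    1 / (64 * chi d L q) ≤ Pr q (cay (uv d (ZMod L))) (farE i ρ 0) := by
  have hX : 1 ≤ chi d L q := one_le_chi h0 h1
  set E := cay (uv d (ZMod L)) with hE
  set Z : Finset (Sym2 (Tor d L)) → ℝ := fun F => ∑ x : Tor d L, if ρ < ab i x ∧ Conn F 0 x then (1 : ℝ) else 0 with hZ
  have hEZ : Ex q E Z = ∑ x : Tor d L, if ρ < ab i x then tt d L q x else 0 := by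
    rw [hZ, Ex_sum]
    refine Finset.sum_congr rfl fun x _ => ?_
    by_cases hx : ρ < ab i x
    · rw [if_pos hx]
      simp only [hx, true_and]
      rfl
    · rw [if_neg hx]
      simp only [hx, false_and, if_false]
      exact Ex_const q E 0
  have hEZ2 : Ex q E (fun F => Z F ^ 2) ≤ (chi d L q) ^ 3 := by
    refine le_trans ?_ (C2_tree h0 h1)
    have h2 : ∑ u : Tor d L, ∑ z : Tor d L, Pr q (cay (uv d (ZMod L))) (fun F => Conn F 0 u ∧ Conn F 0 z) =
        Ex q E (fun F => ∑ u : Tor d L, ∑ z : Tor d L, if Conn F 0 u ∧ Conn F 0 z then (1 : ℝ) else 0) := by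
      rw [Ex_sum]
      refine Finset.sum_congr rfl fun u _ => ?_
      rw [Ex_sum]
      refine Finset.sum_congr rfl fun z _ => ?_
      rw [← C2_ex_ind]
    rw [h2]
    refine Ex_mono h0 h1 fun F _ => ?_
    have h3 : Z F ^ 2 = ∑ u : Tor d L, ∑ z : Tor d L,
        (if ρ < ab i u ∧ Conn F 0 u then (1 : ℝ) else 0) * (if ρ < ab i z ∧ Conn F 0 z then (1 : ℝ) else 0) := by
      rw [pow_two, hZ, Finset.sum_mul_sum]
    rw [h3]
    refine Finset.sum_le_sum fun u _ => Finset.sum_le_sum fun z _ => ?_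
    by_cases hu : Conn F 0 u <;> by_cases hz : Conn F 0 z <;> by_cases hu' : ρ < ab i u <;>
      by_cases hz' : ρ < ab i z <;> simp [hu, hz, hu', hz']
  have hA := C2_second h0 h1 E Z (farE i ρ 0) (by
    intro F _ hne
    by_contra hcon
    apply hne
    rw [hZ]
    refine Finset.sum_eq_zero fun x _ => ?_
    rw [if_neg]
    rintro ⟨hx, hc⟩
    exact hcon ⟨x, by rwa [sub_zero], hc⟩)
  rw [hEZ] at hA
  have hP : 0 ≤ Pr q E (farE i ρ 0) := Pr_nonneg h0 h1 _ _
  have h4 : (chi d L q / 8) ^ 2 ≤ (chi d L q) ^ 3 * Pr q E (farE i ρ 0) := by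
    refine le_trans ?_ (hA.trans (mul_le_mul_of_nonneg_right hEZ2 hP))
    exact pow_le_pow_left₀ (by linarith) h 2
  rw [div_le_iff₀ (by linarith)]
  have hX2 : 0 < (chi d L q) ^ 2 := by positivity
  have h5 : (chi d L q) ^ 2 * 1 ≤ (chi d L q) ^ 2 * (Pr q E (farE i ρ 0) * (64 * chi d L q)) := by
    nlinarith
  exact le_of_mul_le_mul_left h5 hX2

theorem far_translate (i : Fin d) (ρ : ℝ) (v : Tor d L) :
    Pr q (cay (uv d (ZMod L))) (farE i ρ v) = Pr q (cay (uv d (ZMod L))) (farE i ρ 0) := by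
  refine C2_pr_equiv q _ (Equiv.addRight v) (cay_image (uv d (ZMod L)) (Equiv.addRight v) (by intro a b; simp))
    _ _ fun F => ?_
  unfold farE
  constructor
  · rintro ⟨x, hx, hc⟩
    refine ⟨x - v, by rwa [sub_zero], ?_⟩
    rw [← conn_image_equiv (Equiv.addRight v) F 0 (x - v)]
    have e1 : (Equiv.addRight v) 0 = v := by simp
    have e2 : (Equiv.addRight v) (x - v) = x := by simp
    rw [e1, e2]
    exact hc
  · rintro ⟨x, hx, hc⟩
    refine ⟨x + v, by simpa using hx, ?_⟩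
    have := (conn_image_equiv (Equiv.addRight v) F 0 x).2 hc
    have e1 : (Equiv.addRight v) 0 = v := by simp
    have e2 : (Equiv.addRight v) x = x + v := by simp
    rw [e1, e2] at this
    exact this

theorem C2_inc_far (i : Fin d) (ρ : ℝ) (v : Tor d L) : Inc (farE i ρ v) := by
  rintro F F' h ⟨x, hx, hc⟩
  exact ⟨x, hx, hc.mono h⟩

theorem cross_torus (h0 : 0 ≤ q) (h1 : q ≤ 1) (i : Fin d) {ρ : ℝ}
    (h : 1 / (64 * chi d L q) ≤ Pr q (cay (uv d (ZMod L))) (farE i ρ 0)) (A : Finset (Tor d L))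
    (hA : 4096 * (chi d L q) ^ 3 ≤ A.card) :
    1 / 2 ≤ Pr q (cay (uv d (ZMod L))) (fun F => ∃ v ∈ A, farE i ρ v F) := by
  have hX : 1 ≤ chi d L q := one_le_chi h0 h1
  set X := chi d L q with hXd
  set E := cay (uv d (ZMod L)) with hE
  set p := Pr q E (farE i ρ 0) with hp
  set Z : Finset (Sym2 (Tor d L)) → ℝ := fun F => ∑ v ∈ A, if farE i ρ v F then (1 : ℝ) else 0 with hZ
  have hp0 : 0 < p := lt_of_lt_of_le (by positivity) h
  have hAc : (0 : ℝ) < A.card := lt_of_lt_of_le (by positivity) hA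
  have hEZ : Ex q E Z = A.card * p := by
    rw [hZ, Ex_sum]
    have h2 : ∀ v ∈ A, Ex q E (fun F => if farE i ρ v F then (1 : ℝ) else 0) = p := by
      intro v _
      rw [C2_ex_ind, hp, hE, far_translate]
    rw [Finset.sum_congr rfl h2]
    rw [Finset.sum_const, nsmul_eq_mul]
  have hpair : ∀ v v' : Tor d L, Pr q E (fun F => farE i ρ v F ∧ farE i ρ v' F) ≤
      tau q (uv d (ZMod L)) (v' - v) + p * p := by
    intro v v'
    have h2 : Pr q E (fun F => farE i ρ v F ∧ farE i ρ v' F) ≤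
        Pr q E (fun F => Conn F v v' ∨ Dis (farE i ρ v) (farE i ρ v') F) := by
      refine Pr_mono h0 h1 fun F _ hF => ?_
      by_cases hc : Conn F v v'
      · exact Or.inl hc
      · right
        obtain ⟨⟨x, hx, hvx⟩, ⟨y, hy, hvy⟩⟩ := hF
        obtain ⟨F₁, F₂, h3, h4, h5, h6, h7⟩ := DU_dis hvx hvy hc
        exact ⟨F₁, F₂, h3, h4, h5, ⟨x, hx, h6⟩, ⟨y, hy, h7⟩⟩
    refine h2.trans ((Pr_or_le h0 h1 _ _ _).trans (add_le_add (le_of_eq (tau_sub q _ v v')) ?_))
    refine (bk h0 h1 _ (C2_inc_far i ρ v) (C2_inc_far i ρ v')).trans (le_of_eq ?_)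
    rw [far_translate i ρ v, far_translate i ρ v']
  have hEZ2 : Ex q E (fun F => Z F ^ 2) ≤ A.card * X + (A.card) ^ 2 * p ^ 2 := by
    have h2 : Ex q E (fun F => Z F ^ 2) = ∑ v ∈ A, ∑ v' ∈ A, Pr q E (fun F => farE i ρ v F ∧ farE i ρ v' F) := by
      have h3 : ∀ F, Z F ^ 2 = ∑ v ∈ A, ∑ v' ∈ A, if farE i ρ v F ∧ farE i ρ v' F then (1 : ℝ) else 0 := by
        intro F
        rw [pow_two, hZ, Finset.sum_mul_sum]
        refine Finset.sum_congr rfl fun v _ => Finset.sum_congr rfl fun v' _ => ?_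
        by_cases hv : farE i ρ v F <;> by_cases hv' : farE i ρ v' F <;> simp [hv, hv']
      simp only [h3]
      rw [Ex_sum]
      refine Finset.sum_congr rfl fun v _ => ?_
      rw [Ex_sum]
      refine Finset.sum_congr rfl fun v' _ => ?_
      rw [C2_ex_ind]
    rw [h2]
    refine (Finset.sum_le_sum fun v _ => Finset.sum_le_sum fun v' _ => hpair v v').trans ?_
    have h4 : ∀ v : Tor d L, ∑ v' ∈ A, (tau q (uv d (ZMod L)) (v' - v) + p * p) ≤ X + A.card * (p * p) := by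
      intro v
      rw [Finset.sum_add_distrib, Finset.sum_const, nsmul_eq_mul]
      refine add_le_add ?_ le_rfl
      have h5 : ∑ v' ∈ A, tau q (uv d (ZMod L)) (v' - v) ≤ ∑ v' : Tor d L, tau q (uv d (ZMod L)) (v' - v) :=
        Finset.sum_le_sum_of_subset_of_nonneg (Finset.subset_univ _) fun x _ _ => tau_nonneg h0 h1 _ _
      refine h5.trans (le_of_eq ?_)
      rw [hXd]
      unfold chi tt
      exact Fintype.sum_equiv (Equiv.subRight v) _ _ (fun u => rfl)
    refine (Finset.sum_le_sum fun v _ => h4 v).trans (le_of_eq ?_)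
    rw [Finset.sum_const, nsmul_eq_mul]
    ring
  have hCS := C2_second h0 h1 E Z (fun F => ∃ v ∈ A, farE i ρ v F) (by
    intro F _ hne
    by_contra hcon
    push Not at hcon
    apply hne
    rw [hZ]
    refine Finset.sum_eq_zero fun v hv => ?_
    rw [if_neg (hcon v hv)])
  rw [hEZ] at hCS
  set P := Pr q E (fun F => ∃ v ∈ A, farE i ρ v F) with hP
  have hP0 : 0 ≤ P := Pr_nonneg h0 h1 _ _
  -- `|A| X ≤ |A|² p²`
  have h6 : X ≤ A.card * p ^ 2 := by
    have h7 : (1 / (64 * X)) ^ 2 ≤ p ^ 2 := pow_le_pow_left₀ (by positivity) h 2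
    have h8 : (1 / (64 * X)) ^ 2 = 1 / (4096 * X ^ 2) := by
      field_simp
      norm_num
    rw [h8] at h7
    have h9 : 4096 * X ^ 3 * (1 / (4096 * X ^ 2)) ≤ A.card * p ^ 2 :=
      mul_le_mul hA h7 (by positivity) hAc.le
    have h10 : 4096 * X ^ 3 * (1 / (4096 * X ^ 2)) = X := by
      field_simp
    linarith
  have h7 : (A.card : ℝ) * X ≤ A.card ^ 2 * p ^ 2 := by
    have := mul_le_mul_of_nonneg_left h6 hAc.le
    nlinarith
  have h8 : (A.card * p) ^ 2 ≤ (2 * (A.card ^ 2 * p ^ 2)) * P :=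
    hCS.trans (mul_le_mul_of_nonneg_right (by linarith) hP0)
  have h9 : 0 < (A.card : ℝ) ^ 2 * p ^ 2 := by positivity
  have h10 : ((A.card : ℝ) ^ 2 * p ^ 2) * (1 / 2) ≤ ((A.card : ℝ) ^ 2 * p ^ 2) * P := by nlinarith
  exact le_of_mul_le_mul_left h10 h9

end C2

end Pool.Agent.helper66.LE
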