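import Pool.Agent.helper58.LE.Stm

set_option autoImplicit false

namespace Pool.Agent.LE

open Pool.Agent.helper58.DC Pool.Agent.DI Pool.Agent.GR Pool.Agent.OB Pool.Agent.DR Pool.Agent.FI Pool.Agent.FI3 Pool.Agent.FI4 Pool.Agent.FI4I

theorem HNL (hBKN : BKN_stmt) (hBKV : BKV_stmt) (hCJR : HLC_stmt) (hRTN : RTN_stmt) (hHYN : HLN_stmt)
    (hTRL : TRL_stmt) (hHT4 : HTL_stmt) (hDFE : DFE_stmt) (hTR4 : TR4_stmt) : HNL_stmt := by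
  intro p M hS hp2 G _ _ D x θ χ hR n c hH Q N hQ hQN hc hn φ hφ a ha
  have hMid : Mid p Q N := ⟨hQ, hQN, hc, hn⟩
  obtain ⟨g, hg, θ₁, hθ₁, hsb, hind⟩ := hBKN p M hS G D x θ χ hR Q N hMid φ hφ
  obtain ⟨hDN, hcN, -, -⟩ := hBKV p M hS G D x θ χ hR Q N hMid g hg
  obtain ⟨hR1, -, hH1⟩ := hCJR p M hS G D x θ χ hR g θ₁ hθ₁ hind
  have hφN : φ ∈ IrrOn N := hφ.1
  obtain ⟨x'', hR2⟩ := hRTN p M hS G (cjS g D) _ θ₁ χ hR1 N hcN φ hφN hsb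
  have hH2 := hHYN p M hS G (cjS g D) N hDN hcN θ₁ hθ₁ n c 0 (hH1 n c 0 hH)
  obtain ⟨-, -, -, h4⟩ := hTRL p M hS G N φ hφN
  have hcard : Nat.card ((cjS g D).subgroupOf N) = p ^ a := by
    rw [Nat.card_congr (Subgroup.subgroupOfEquivOfLe hDN).toEquiv, ← ha]
    exact Subgroup.card_map_of_injective (MulAut.conj g).injective
  obtain ⟨k, hk, hka⟩ := hDFE p M hS N _ x'' _ _ hR2 (rN N φ) h4 a hcard
  have h7 := hHT4 p M hS hp2 N _ x'' _ _ hR2 n c 0 hH2 (rN N φ) h4 a hcard k hk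
  have h8 : k = (a : ℤ) := by
    push_cast at h7
    omega
  have h5 : Defect p ⊤ (rN N φ) (a : ℤ) := by
    rw [← h8]
    exact hk
  have h6 := (hTR4 p G N N le_rfl φ φ).2 a
  rw [Subgroup.subgroupOf_self] at h6
  exact h6.mp h5

end Pool.Agent.LE
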