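import Pool.Agent.helper70.LE.SpecN

/-!
# MP_baa4d7_al, project LE, row MLA
-/

set_option autoImplicit false

namespace Pool.Agent.LE

open Pool.Agent.helper58.DC Pool.Agent.DI Pool.Agent.GR Pool.Agent.OB Pool.Agent.DR Pool.Agent.FI Pool.Agent.FI3 Pool.Agent.FI4

section

variable {G : Type} [Group G] [Finite G]

theorem MLA_sub (hIDM : IDM_stmt) (hEXP : EXP_stmt) (hCVF : CVF_stmt) (hCCI : CCI_stmt) (K : Subgroup G)
    (S S' : Set (G → ℂ)) (hS : S ⊆ IrrOn K) (hS' : S' ⊆ IrrOn K) (hss : S ⊆ S') :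
    cv (eS K S) (eS K S') = eS K S := by
  obtain ⟨c1, d1, -, -⟩ := hIDM G K S hS
  obtain ⟨c2, d2, -, -⟩ := hIDM G K S' hS'
  have c3 := ((hCVF G).2.2.2.2.2.2.2.1 K _ _ c1 c2).1
  have c4 := ((hCVF G).2.2.2.2.2.2.2.1 K _ _ c3 c1).2.2
  refine sub_eq_zero.1 (hEXP G K _ c4 ?_)
  intro ψ hψ
  rw [((hCCI G K ψ hψ).1 1 _ _).2.1, (hCCI G K ψ hψ).2.1 _ _ c1 c2, d1 ψ hψ, d2 ψ hψ]
  by_cases h : ψ ∈ S
  · rw [if_pos h, if_pos (hss h)]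
    ring
  · rw [if_neg h]
    ring

theorem MLA_cvK (K : Subgroup G) (A B : G → ℂ) (hA : ∀ x, x ∉ K → A x = 0) (v : G) :
    cv A B v = ∑ᶠ u ∈ (K : Set G), A u * B (u⁻¹ * v) := by
  classical
  unfold cv
  rw [finsum_mem_def]
  refine finsum_congr fun u => ?_
  rw [Set.indicator_apply]
  by_cases h : u ∈ (K : Set G)
  · rw [if_pos h]
  · rw [if_neg h, hA u h, zero_mul]

theorem MLA_dbl (K : Subgroup G) (A B c : G → ℂ) (hA : ∀ x, x ∉ K → A x = 0) :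
    ∑ᶠ u ∈ (K : Set G), A u * ∑ᶠ t ∈ (K : Set G), B t * c (u * t) = ∑ᶠ v ∈ (K : Set G), cv A B v * c v := by
  have h1 : ∀ u ∈ (K : Set G), A u * ∑ᶠ t ∈ (K : Set G), B t * c (u * t) =
      ∑ᶠ v ∈ (K : Set G), c v * (A u * B (u⁻¹ * v)) := by
    intro u hu
    have huK : u ∈ K := hu
    rw [mul_finsum_mem]
    refine finsum_mem_eq_of_bijOn (fun t => u * t) ⟨?_, ?_, ?_⟩ ?_
    · intro t ht
      exact K.mul_mem huK ht
    · intro t _ t' _ h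
      exact mul_left_cancel h
    · intro v hv
      exact ⟨u⁻¹ * v, K.mul_mem (K.inv_mem huK) hv, mul_inv_cancel_left u v⟩
    · intro t _
      show A u * (B t * c (u * t)) = c (u * t) * (A u * B (u⁻¹ * (u * t)))
      rw [inv_mul_cancel_left]
      ring
  rw [finsum_mem_congr rfl h1, finsum_mem_comm _ (Set.toFinite _) (Set.toFinite _)]
  refine finsum_mem_congr rfl fun v _ => ?_
  rw [← mul_finsum_mem, ← MLA_cvK K A B hA v, mul_comm]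

theorem MLA_rep (L K : Subgroup G) : ∃ W : Finset G, (∀ l ∈ W, l ∈ L) ∧ ∀ l ∈ L, ∃! w, w ∈ W ∧ w⁻¹ * l ∈ K := by
  classical
  have := Fintype.ofFinite (L ⧸ K.subgroupOf L)
  refine ⟨Finset.univ.image fun q : L ⧸ K.subgroupOf L => ((Quotient.out q : L) : G), ?_, ?_⟩
  · intro l hl
    obtain ⟨q, -, rfl⟩ := Finset.mem_image.1 hl
    exact (Quotient.out q : L).2
  · intro l hl
    obtain ⟨q, hq⟩ : ∃ q : L ⧸ K.subgroupOf L, q = QuotientGroup.mk ⟨l, hl⟩ := ⟨_, rfl⟩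
    refine ⟨((Quotient.out q : L) : G), ⟨Finset.mem_image.2 ⟨q, Finset.mem_univ _, rfl⟩, ?_⟩, ?_⟩
    · have h1 : (QuotientGroup.mk (Quotient.out q) : L ⧸ K.subgroupOf L) = QuotientGroup.mk ⟨l, hl⟩ := by
        rw [QuotientGroup.out_eq', hq]
      have h2 := QuotientGroup.eq.1 h1
      exact Subgroup.mem_subgroupOf.1 h2
    · rintro w ⟨hw, hwl⟩
      obtain ⟨q', -, rfl⟩ := Finset.mem_image.1 hw
      have h1 : (QuotientGroup.mk (Quotient.out q') : L ⧸ K.subgroupOf L) = QuotientGroup.mk ⟨l, hl⟩ :=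
        QuotientGroup.eq.2 (Subgroup.mem_subgroupOf.2 hwl)
      rw [QuotientGroup.out_eq', ← hq] at h1
      rw [h1]

theorem MLA_nzcz {P : Subgroup G} {g : G} (hg : g ∈ nz P) : g ∈ nz (cz P) := by
  rw [Subgroup.mem_normalizer_iff]
  intro n
  constructor
  · exact fun h => cz_conj hg h
  · intro h
    have h1 := cz_conj ((nz P).inv_mem hg) h
    have h2 : g⁻¹ * (g * n * g⁻¹) * g⁻¹⁻¹ = n := by group
    rwa [h2] at h1

theorem MLA_nzsup {A B : Subgroup G} {g : G} (hA : g ∈ nz A) (hB : g ∈ nz B) : g ∈ nz (A ⊔ B) := by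
  refine cj_nz.1 ?_
  show (A ⊔ B).map (MulAut.conj g).toMonoidHom = A ⊔ B
  rw [Subgroup.map_sup]
  have h1 : A.map (MulAut.conj g).toMonoidHom = A := cj_nz.2 hA
  have h2 : B.map (MulAut.conj g).toMonoidHom = B := cj_nz.2 hB
  rw [h1, h2]

theorem MLA_czsup (A B : Subgroup G) : cz (A ⊔ B) = cz A ⊓ cz B := by
  refine le_antisymm (le_inf (cz_mono le_sup_left) (cz_mono le_sup_right)) ?_
  intro x hx
  have h1 : A ⊔ B ≤ Subgroup.centralizer {x} := by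
    refine sup_le ?_ ?_
    · intro y hy
      rw [Subgroup.mem_centralizer_singleton_iff]
      exact (Subgroup.mem_centralizer_iff.1 hx.1) y hy
    · intro y hy
      rw [Subgroup.mem_centralizer_singleton_iff]
      exact (Subgroup.mem_centralizer_iff.1 hx.2) y hy
  rw [Subgroup.mem_centralizer_iff]
  intro y hy
  exact Subgroup.mem_centralizer_singleton_iff.1 (h1 hy)

end

theorem MLA (hMLC : MLC_stmt) (hEX1 : EX1_stmt) (hEX2 : EX2_stmt) (hHIB : HIB_stmt) (hFRA4 : FRA4_stmt) (hNYT : NYT_stmt) (hCVF : CVF_stmt) (hCCI : CCI_stmt) (hIDM : IDM_stmt) (hEXP : EXP_stmt) (hCFX : CFX_stmt) (hSYL : SYL_stmt) : MLA_stmt := by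
  classical
  intro p M hS hp2 G _ _ D x θ χ lo Q hQD hRP a ha haQ
  have hp : Fact p.Prime := ⟨hS.1⟩
  obtain ⟨syl1, -, -, -, -, syl6, -, -, -⟩ := hSYL p G
  have hD₁D : Cz D a ≤ D := inf_le_left
  have hQ'D : Q ⊔ Cz D a ≤ D := sup_le hQD hD₁D
  obtain ⟨-, -, nyt3⟩ := hNYT p M hS G D x θ χ lo Q hQD a ha haQ
  have hRP' : RP M D θ (Q ⊔ Cz D a) := nyt3 hRP _ hQ'D le_sup_left
  have hacz : a ∈ cz (Cz D a) := by
    rw [Subgroup.mem_centralizer_iff]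
    intro d hd
    exact (mem_Cz.1 hd).2.symm
  have haQ' : a ∈ nz (Q ⊔ Cz D a) := MLA_nzsup haQ (cz_le_nz _ hacz)
  obtain ⟨w, hw1, hw2, hw3⟩ := hEX1 p M hS hp2 G D x θ χ lo (Q ⊔ Cz D a) hQ'D hRP' a ha haQ'
  have hpp := hEX2 p M hS G D x θ χ lo (Q ⊔ Cz D a) hQ'D hRP' a ha haQ' le_sup_right w hw1 hw3
  obtain ⟨fr1, -, -⟩ := hFRA4 p M hS G D x θ χ lo Q hQD
  obtain ⟨fr1', fr2', -⟩ := hFRA4 p M hS G D x θ χ lo (Q ⊔ Cz D a) hQ'D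
  have hanzK := MLA_nzcz haQ'
  have hKe : cz (Q ⊔ Cz D a) = cz Q ⊓ cz (Cz D a) := MLA_czsup _ _
  have mlc := hMLC p M hS G D x θ χ lo Q hQD a ha haQ
  have hnzK : ∀ l, l ∈ nz (Q ⊔ Cz D a) → l ∈ nz (cz (Q ⊔ Cz D a)) := fun l hl => MLA_nzcz hl
  obtain ⟨K, hK⟩ : ∃ K : Subgroup G, K = cz (Q ⊔ Cz D a) := ⟨_, rfl⟩
  have hKQ : K ≤ cz Q := by
    rw [hK]
    exact cz_mono le_sup_left
  have hKD₁ : K ≤ cz (Cz D a) := by
    rw [hK]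
    exact cz_mono le_sup_right
  rw [← hKe] at mlc
  rw [← hK] at mlc hw1 hw3 hpp fr1' fr2' hanzK hnzK ⊢
  have haK : ∀ k, k ∈ K → a⁻¹ * k * a ∈ K := by
    intro k hk
    have h1 := (Subgroup.mem_normalizer_iff.1 ((nz K).inv_mem hanzK) k).1 hk
    rwa [inv_inv] at h1
  obtain ⟨hHI, hHI2, hHI3⟩ := hHIB p M hS G K θ
  obtain ⟨e', he'⟩ : ∃ e' : G → ℂ, e' = eBl M K θ := ⟨_, rfl⟩
  rw [← he'] at hHI hw3 hHI2 hHI3 ⊢
  have hsup := hHI.idm.sup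
  have hidem := hHI.idm.idem
  have hint := hHI.idm.int
  have hcls := hHI.cls
  obtain ⟨κ, hκ⟩ : ∃ κ : Set G, κ = {k : G | ∃ l ∈ K, l * w * l⁻¹ = k} := ⟨_, rfl⟩
  rw [← hκ] at hw3
  have hκc : ∀ l ∈ K, ∀ k, l * k * l⁻¹ ∈ κ ↔ k ∈ κ := by
    intro l hl k
    rw [hκ]
    constructor
    · rintro ⟨m, hm, h⟩
      refine ⟨l⁻¹ * m, K.mul_mem (K.inv_mem hl) hm, ?_⟩
      calc (l⁻¹ * m) * w * (l⁻¹ * m)⁻¹ = l⁻¹ * (m * w * m⁻¹) * l := by group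
        _ = l⁻¹ * (l * k * l⁻¹) * l := by rw [h]
        _ = k := by group
    · rintro ⟨m, hm, rfl⟩
      exact ⟨l * m, K.mul_mem hl hm, by group⟩
  have hκa : ∀ k ∈ κ, a⁻¹ * k ∈ K := by
    intro k hk
    rw [hκ] at hk
    obtain ⟨l, hl, rfl⟩ := hk
    have h1 : a⁻¹ * (l * w * l⁻¹) = (a⁻¹ * l * a) * (a⁻¹ * w) * l⁻¹ := by group
    rw [h1]
    exact K.mul_mem (K.mul_mem (haK l hl) hw1) (K.inv_mem hl)
  obtain ⟨w₀, hw₀⟩ : ∃ w₀ : G → ℂ, w₀ = fun t => ∑ᶠ k ∈ κ, e' (t * k⁻¹) := ⟨_, rfl⟩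
  have hw₀t : ∀ t, w₀ t = ∑ᶠ k ∈ κ, e' (t * k⁻¹) := fun t => by rw [hw₀]
  have a1 : ∀ k ∈ K, ∀ t, w₀ (k * t * k⁻¹) = w₀ t := by
    intro l hl t
    rw [hw₀t, hw₀t]
    symm
    refine finsum_mem_eq_of_bijOn (fun k => l * k * l⁻¹) ⟨?_, ?_, ?_⟩ ?_
    · intro k hk
      exact (hκc l hl k).2 hk
    · intro k _ k' _ h
      have h4 : l * k * l⁻¹ = l * k' * l⁻¹ := h
      exact mul_left_cancel (mul_right_cancel h4)
    · intro k hk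
      refine ⟨l⁻¹ * k * l, ?_, ?_⟩
      · have h4 := (hκc l⁻¹ (K.inv_mem hl) k).2 hk
        rwa [inv_inv] at h4
      · show l * (l⁻¹ * k * l) * l⁻¹ = k
        group
    · intro k _
      show e' (t * k⁻¹) = e' (l * t * l⁻¹ * (l * k * l⁻¹)⁻¹)
      have h4 : l * t * l⁻¹ * (l * k * l⁻¹)⁻¹ = l * (t * k⁻¹) * l⁻¹ := by group
      rw [h4, hcls l hl]
  have a2 : ∀ t, IntAt M (w₀ t) := by
    intro t
    rw [hw₀t]
    exact IntAt.finsum_mem hS fun k _ => hint _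
  have a3 : ∀ t, a⁻¹ * t ∉ K → w₀ t = 0 := by
    intro t ht
    rw [hw₀t]
    refine (finsum_mem_congr rfl fun k hk => ?_).trans (finsum_mem_zero _)
    refine hsup _ fun h1 => ht ?_
    have h2 : a⁻¹ * t = (a⁻¹ * (t * k⁻¹) * a) * (a⁻¹ * k) := by group
    rw [h2]
    exact K.mul_mem (haK _ h1) (hκa k hk)
  have a4 : ∀ t, ¬ InM M (w₀ t) → ∀ P : Subgroup G, IsPGroup p P → P ≤ Cz K t → Nat.card P ≤ Nat.card (Cz D a) := by
    intro t ht P hP hPt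
    obtain ⟨f, hf⟩ : ∃ f : G → ℂ, f = fun k => if k ∈ κ then e' (t * k⁻¹) else 0 := ⟨_, rfl⟩
    have hfi : ∀ k, IntAt M (f k) := by
      intro k
      rw [hf]
      show IntAt M (if k ∈ κ then e' (t * k⁻¹) else 0)
      split_ifs
      · exact hint _
      · exact IntAt.zero hS
    have hfr : ∀ r ∈ P, ∀ k, f (r * k * r⁻¹) = f k := by
      intro r hr k
      obtain ⟨hrK, hrt⟩ := mem_Cz.1 (hPt hr)
      rw [hf]
      show (if r * k * r⁻¹ ∈ κ then e' (t * (r * k * r⁻¹)⁻¹) else 0) = if k ∈ κ then e' (t * k⁻¹) else 0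
      have h1 : e' (t * (r * k * r⁻¹)⁻¹) = e' (t * k⁻¹) := by
        have h2 : t * (r * k * r⁻¹)⁻¹ = r * (t * k⁻¹) * r⁻¹ := by
          calc t * (r * k * r⁻¹)⁻¹ = (t * r) * k⁻¹ * r⁻¹ := by group
            _ = (r * t) * k⁻¹ * r⁻¹ := by rw [hrt]
            _ = r * (t * k⁻¹) * r⁻¹ := by group
        rw [h2]
        exact hcls r hrK _
      by_cases hk : k ∈ κ
      · rw [if_pos hk, if_pos ((hκc r hrK k).2 hk), h1]
      · rw [if_neg hk, if_neg (fun h => hk ((hκc r hrK k).1 h))]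
    have hcfx := hCFX p M hS G P hP f hfi hfr
    have hsum1 : ∑ᶠ k, f k = w₀ t := by
      rw [hw₀t, finsum_mem_def]
      refine finsum_congr fun k => ?_
      rw [hf, Set.indicator_apply]
    rw [hsum1] at hcfx
    have hex : ∃ k, k ∈ κ ∧ k ∈ cz P := by
      by_contra hcon
      push Not at hcon
      have h1 : ∑ᶠ k ∈ (cz P : Set G), f k = 0 := by
        refine (finsum_mem_congr rfl fun k hk => ?_).trans (finsum_mem_zero _)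
        rw [hf]
        show (if k ∈ κ then e' (t * k⁻¹) else 0) = 0
        rw [if_neg (fun h => hcon k h hk)]
      rw [h1, sub_zero] at hcfx
      exact ht hcfx
    obtain ⟨k, hk, hkP⟩ := hex
    rw [hκ] at hk
    obtain ⟨l, hl, rfl⟩ := hk
    have h1 : P ≤ Cz K (l * w * l⁻¹) := by
      intro r hr
      exact mem_Cz.2 ⟨(mem_Cz.1 (hPt hr)).1, ((Subgroup.mem_centralizer_iff.1 hkP) r hr).symm⟩
    have h2 := (syl1 P _ hP h1).1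
    rwa [(syl6 K w l hl).2, hpp] at h2
  obtain ⟨W, hW1, hW2⟩ := MLA_rep (cz Q) K
  obtain ⟨m1, m2, m3⟩ := mlc w₀ a1 a2 a3 a4 W hW1 hW2
  refine ⟨fun s => ∑ l ∈ W, w₀ (l⁻¹ * s * l), m1, m2, w, hw1, hw2, ?_⟩
  intro h0
  obtain ⟨f, hf⟩ : ∃ f : G → ℂ, f = eS K (Bq M (cz Q) K θ) := ⟨_, rfl⟩
  obtain ⟨Θ', hΘ'⟩ : ∃ Θ' : G → ℂ, Θ' = fun s => ∑ᶠ l ∈ {l : G | l ∈ W ∧ l ∈ nz (Cz D a)}, w₀ (l⁻¹ * s * l) := ⟨_, rfl⟩
  obtain ⟨g, hg⟩ : ∃ g : G → ℂ, g = cv (eBl M (cz Q) θ) (fun s => ∑ l ∈ W, w₀ (l⁻¹ * s * l)) := ⟨_, rfl⟩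
  have m3' : ∀ t, a⁻¹ * t ∈ K → InM M (g t - ∑ᶠ z ∈ (K : Set G), f z * Θ' (z⁻¹ * t)) := by
    intro t ht
    rw [hg, hf, hΘ']
    exact m3 t ht
  rw [← hg] at h0
  -- the reproducing property
  have hrep : ∀ t, ∑ᶠ z ∈ (K : Set G), e' z * w₀ (z⁻¹ * t) = w₀ t := by
    intro t
    have h1 : ∀ z ∈ (K : Set G), e' z * w₀ (z⁻¹ * t) = ∑ᶠ k ∈ κ, e' z * e' (z⁻¹ * (t * k⁻¹)) := by
      intro z _
      rw [hw₀t, mul_finsum_mem]
      refine finsum_mem_congr rfl fun k _ => ?_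
      rw [mul_assoc]
    rw [finsum_mem_congr rfl h1, finsum_mem_comm _ (Set.toFinite _) (Set.toFinite _), hw₀t]
    refine finsum_mem_congr rfl fun k _ => ?_
    rw [← MLA_cvK K e' e' hsup, hidem]
  -- the comparison
  have c1 : InM M (∑ᶠ z ∈ (K : Set G), e' z * g (z⁻¹ * w) -
      ∑ᶠ z ∈ (K : Set G), e' z * ∑ᶠ t ∈ (K : Set G), f t * Θ' (t⁻¹ * (z⁻¹ * w))) := by
    rw [← finsum_mem_sub_distrib (fun z => e' z * g (z⁻¹ * w))
      (fun z => e' z * ∑ᶠ t ∈ (K : Set G), f t * Θ' (t⁻¹ * (z⁻¹ * w))) (Set.toFinite _)]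
    refine InM.finsum_mem hS fun z hz => ?_
    have hzK : z ∈ K := hz
    rw [← mul_sub]
    refine InM.mul_left hS (hint z) (m3' _ ?_)
    have h1 : a⁻¹ * (z⁻¹ * w) = (a⁻¹ * z⁻¹ * a) * (a⁻¹ * w) := by group
    rw [h1]
    exact K.mul_mem (haK _ (K.inv_mem hzK)) hw1
  rw [h0, zero_sub] at c1
  have c2 := c1.neg
  rw [neg_neg] at c2
  have hcDK : cz D ≤ K := fr1'.2.1
  have hθ : ∀ y, y ∉ K → θ y = 0 := fun y hy => IrrOn_zero lo.rt.th fun h => hy (hcDK h)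
  have hef : cv e' f = e' := by
    rw [he', hf]
    refine MLA_sub hIDM hEXP hCVF hCCI K _ _ (fun ψ h => h.1) (fun ψ h => h.1) ?_
    intro ψ h
    exact ⟨h.1, TRNb hKQ (fun y hy => IrrOn_zero h.1 hy) hθ h.2⟩
  have c3 : ∑ᶠ z ∈ (K : Set G), e' z * ∑ᶠ t ∈ (K : Set G), f t * Θ' (t⁻¹ * (z⁻¹ * w)) =
      ∑ᶠ v ∈ (K : Set G), e' v * Θ' (v⁻¹ * w) := by
    have h1 := MLA_dbl K e' f (fun v => Θ' (v⁻¹ * w)) hsup
    rw [hef] at h1
    rw [← h1]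
    refine finsum_mem_congr rfl fun z _ => ?_
    congr 1
    refine finsum_mem_congr rfl fun t _ => ?_
    show f t * Θ' (t⁻¹ * (z⁻¹ * w)) = f t * Θ' ((z * t)⁻¹ * w)
    rw [mul_inv_rev, mul_assoc]
  rw [c3] at c2
  obtain ⟨term, hterm⟩ : ∃ term : G → ℂ, term = fun l => ∑ᶠ v ∈ (K : Set G), e' v * w₀ (l⁻¹ * (v⁻¹ * w) * l) := ⟨_, rfl⟩
  have c4 : ∑ᶠ v ∈ (K : Set G), e' v * Θ' (v⁻¹ * w) = ∑ᶠ l ∈ {l : G | l ∈ W ∧ l ∈ nz (Cz D a)}, term l := by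
    have h1 : ∀ v ∈ (K : Set G), e' v * Θ' (v⁻¹ * w) =
        ∑ᶠ l ∈ {l : G | l ∈ W ∧ l ∈ nz (Cz D a)}, e' v * w₀ (l⁻¹ * (v⁻¹ * w) * l) := by
      intro v _
      rw [hΘ', mul_finsum_mem]
    rw [finsum_mem_congr rfl h1, finsum_mem_comm _ (Set.toFinite _) (Set.toFinite _), hterm]
  rw [c4] at c2
  obtain ⟨l₀, ⟨hl₀W, hl₀K⟩, hl₀u⟩ := hW2 1 (cz Q).one_mem
  rw [mul_one] at hl₀K
  have hl₀K' : l₀ ∈ K := by
    have h1 := K.inv_mem hl₀K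
    rwa [inv_inv] at h1
  have hl₀ : l₀ ∈ {l : G | l ∈ W ∧ l ∈ nz (Cz D a)} := ⟨hl₀W, cz_le_nz _ (hKD₁ hl₀K')⟩
  -- the other terms vanish
  have hzero : ∀ l, l ∈ {l : G | l ∈ W ∧ l ∈ nz (Cz D a)} → l ≠ l₀ → term l = 0 := by
    rintro l ⟨hlW, hlN⟩ hne
    have hlK : l ∉ K := by
      intro h
      refine hne (hl₀u l ⟨hlW, ?_⟩)
      rw [mul_one]
      exact K.inv_mem h
    have hlQ' : l ∈ nz (Q ⊔ Cz D a) := MLA_nzsup (cz_le_nz _ (hW1 l hlW)) hlN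
    have hlnz : l ∈ nz K := hnzK l hlQ'
    have hno : ¬ ∃ ψ ∈ Bl M K θ, cjF l ψ ∈ Bl M K θ := by
      rintro ⟨ψ, h1, h2⟩
      obtain ⟨k, hk, hkl⟩ := fr2' l hlQ' ψ h1 h2
      have h3 : k * l ∈ TT M D θ ⊓ cz Q := ⟨hkl, (cz Q).mul_mem (hKQ hk) (hW1 l hlW)⟩
      rw [fr1.2.2.2.2 hRP] at h3
      have h4 := K.mul_mem (K.inv_mem hk) (hcDK h3)
      rw [inv_mul_cancel_left] at h4
      exact hlK h4
    have hcv := (hHI3 l hlnz hno).1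
    have h1 : ∀ v ∈ (K : Set G), e' v * w₀ (l⁻¹ * (v⁻¹ * w) * l) =
        e' v * ∑ᶠ t ∈ (K : Set G), e' (l⁻¹ * t * l) * w₀ (l⁻¹ * ((v * t)⁻¹ * w) * l) := by
      intro v _
      rw [← hrep (l⁻¹ * (v⁻¹ * w) * l)]
      congr 1
      symm
      refine finsum_mem_eq_of_bijOn (fun t => l⁻¹ * t * l) ⟨?_, ?_, ?_⟩ ?_
      · intro t ht
        have h4 := (Subgroup.mem_normalizer_iff.1 ((nz K).inv_mem hlnz) t).1 ht
        rwa [inv_inv] at h4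
      · intro t _ t' _ h
        have h4 : l⁻¹ * t * l = l⁻¹ * t' * l := h
        exact mul_left_cancel (mul_right_cancel h4)
      · intro t ht
        refine ⟨l * t * l⁻¹, (Subgroup.mem_normalizer_iff.1 hlnz t).1 ht, ?_⟩
        show l⁻¹ * (l * t * l⁻¹) * l = t
        group
      · intro t _
        show e' (l⁻¹ * t * l) * w₀ (l⁻¹ * ((v * t)⁻¹ * w) * l) =
          e' (l⁻¹ * t * l) * w₀ ((l⁻¹ * t * l)⁻¹ * (l⁻¹ * (v⁻¹ * w) * l))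
        congr 2
        group
    rw [hterm]
    show ∑ᶠ v ∈ (K : Set G), e' v * w₀ (l⁻¹ * (v⁻¹ * w) * l) = 0
    rw [finsum_mem_congr rfl h1, MLA_dbl K e' (fun t => e' (l⁻¹ * t * l)) (fun v => w₀ (l⁻¹ * (v⁻¹ * w) * l)) hsup, hcv]
    refine (finsum_mem_congr rfl fun v _ => ?_).trans (finsum_mem_zero _)
    exact zero_mul _
  have c5 : ∑ᶠ l ∈ {l : G | l ∈ W ∧ l ∈ nz (Cz D a)}, term l = term l₀ := by
    rw [finsum_mem_def, finsum_eq_single _ l₀]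
    · exact Set.indicator_of_mem hl₀ _
    · intro l hl
      by_cases h : l ∈ {l : G | l ∈ W ∧ l ∈ nz (Cz D a)}
      · rw [Set.indicator_of_mem h]
        exact hzero l h hl
      · exact Set.indicator_of_notMem h _
  have c6 : term l₀ = w₀ w := by
    rw [hterm]
    show ∑ᶠ v ∈ (K : Set G), e' v * w₀ (l₀⁻¹ * (v⁻¹ * w) * l₀) = w₀ w
    rw [← hrep w]
    refine finsum_mem_congr rfl fun v _ => ?_
    have h1 := a1 l₀⁻¹ (K.inv_mem hl₀K') (v⁻¹ * w)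
    rw [inv_inv] at h1
    rw [h1]
  rw [c5, c6, hw₀t] at c2
  exact hw3 c2

end Pool.Agent.LE
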